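import Pool.Agent.H23.DR.Near
import Pool.Agent.H47.DR.Ang

/-!
# Module BC (about 130 lines): lemmas B and C in one

PROOF. Let `c i j = 2 ip (u i) (u j) ^ 2 - 1` (`c i i = 1`), `R i l = ∑_{j ∈ l} c i j`; `|R i l| ≤ sqrt (T l)` for
`i ∈ l ∈ L` (`Cfg.abs_sum_re`, H47 Ang). For every line
`(∑_{i ∈ l} F i)^2 = ∑_{i ∈ l} F i^2 + ∑_{i ≠ j ∈ l} F i F j
 = ∑_{i ∈ l} F i^2 R i l + ∑_{i ≠ j ∈ l} (F i^2 (- c i j) + F i F j)`.
Sum over `l ∈ Us`. The first part is at most `K^2 ∑_{l ∈ L} |l| sqrt (T l)`. The second part is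
`∑_{i ≠ j, C.ln i j ∈ Us} G i j` with `G i j = F i^2 (1 - 2 ip^2) + F i F j` (`LS.sum_pairs` with
`f i j l = if l ∈ Us then G i j else 0`). `G i j = 0` if `i ∉ NN` (`F i = 0`).
For `i ∈ NN`: (1) `j ∉ NN`, `C.ln i j ∈ Us`: then `r < |ip (u j) v| ≤ s`, `F j = 0`, `|G i j| ≤ K^2`: total at most
`K^2 n A` (`A` = number of such `j`). (2) `j ∈ NN`, `j ≠ i`, `ip^2 < 1 - ρ^2`: then `C.ln i j ∈ Us` (`near_line`,
`2 r / ρ ≤ s/2`). (3) `j ∈ NN`, `1 - ρ^2 ≤ ip^2`: if `F i = F j` then `0 ≤ G i j = F i^2 (2 - 2 ip^2) ≤ 2 K^2 ρ^2`,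
otherwise `|G i j| ≤ 2 K^2`. (4) `j = i`: `G i i = 0`. So the second part is at most
`∑_{i, j ∈ NN} G i j + K^2 (n A + 2 ρ^2 n^2 + 2 Z)`.
-/

namespace Pool.Agent.H23.DR

open H47.DR Finset

variable {n : ℕ}

private theorem bc_ip_self (C : Cfg n) (i : Fin n) : ip (C.u i) (C.u i) ^ 2 = 1 := by
  have h : ip (C.u i) (C.u i) = 1 := by
    change inner ℝ (C.u i) (C.u i) = 1
    rw [real_inner_self_eq_norm_sq, C.unit i]
    norm_num
  rw [h]
  norm_num

private theorem bc_ip_le (C : Cfg n) (i j : Fin n) : ip (C.u i) (C.u j) ^ 2 ≤ 1 := by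
  by_cases h : i = j
  · rw [h, bc_ip_self]
  · have h1 := abs_lt.1 (C.indep i j h)
    nlinarith [h1.1, h1.2]

private theorem bc_G_abs {x y K q : ℝ} (hx : |x| ≤ K) (hy : |y| ≤ K) (hq0 : 0 ≤ q) (hq1 : q ≤ 1) :
    |x ^ 2 * (1 - 2 * q) + x * y| ≤ 2 * K ^ 2 := by
  have hK : 0 ≤ K := (abs_nonneg x).trans hx
  have h1 : |x ^ 2 * (1 - 2 * q)| ≤ K ^ 2 := by
    rw [abs_mul, abs_pow]
    have h2 : |1 - 2 * q| ≤ 1 := by
      rw [abs_le]
      constructor <;> linarith
    calc |x| ^ 2 * |1 - 2 * q| ≤ K ^ 2 * 1 := by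
          apply mul_le_mul (pow_le_pow_left₀ (abs_nonneg x) hx 2) h2 (abs_nonneg _) (by positivity)
      _ = K ^ 2 := mul_one _
  have h2 : |x * y| ≤ K ^ 2 := by
    rw [abs_mul]
    calc |x| * |y| ≤ K * K := mul_le_mul hx hy (abs_nonneg _) hK
      _ = K ^ 2 := by ring
  calc |x ^ 2 * (1 - 2 * q) + x * y| ≤ |x ^ 2 * (1 - 2 * q)| + |x * y| := abs_add_le _ _
    _ ≤ 2 * K ^ 2 := by linarith

private theorem bc_G_le {x K q : ℝ} (hx : |x| ≤ K) (hq0 : 0 ≤ q) :
    x ^ 2 * (1 - 2 * q) + x * 0 ≤ K ^ 2 := by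
  have hx2 : x ^ 2 ≤ K ^ 2 := by
    rw [← sq_abs x]
    exact pow_le_pow_left₀ (abs_nonneg x) hx 2
  nlinarith [sq_nonneg x, mul_nonneg (sq_nonneg x) hq0]

open Classical in
theorem bc (C : Cfg n) (v : E) (r s ρ : ℝ) (hr : 0 < r) (hs : 0 < s) (hρ : 0 < ρ) (hρ1 : ρ ≤ 1)
    (h4 : 4 * r ≤ s * ρ) (F : Fin n → ℝ) (K : ℝ) (hF : ∀ i, |F i| ≤ K)
    (h0 : ∀ i, i ∉ NN C v r → F i = 0) :
    ∑ l ∈ Us C v s, (∑ i ∈ l, F i) ^ 2 ≤
      ∑ i ∈ NN C v r, ∑ j ∈ NN C v r,
        (F i ^ 2 * (1 - 2 * ip (C.u i) (C.u j) ^ 2) + F i * F j) +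
      K ^ 2 * (∑ l ∈ C.L, (l.card : ℝ) * Real.sqrt (C.T l) +
        n * ((univ.filter fun j => r < |ip (C.u j) v| ∧ |ip (C.u j) v| ≤ s).card : ℝ) +
        2 * ρ ^ 2 * (n : ℝ) ^ 2 +
        2 * (((NN C v r ×ˢ NN C v r).filter fun p =>
          1 - ρ ^ 2 ≤ ip (C.u p.1) (C.u p.2) ^ 2 ∧ F p.1 ≠ F p.2).card : ℝ)) := by
  set G : Fin n → Fin n → ℝ := fun i j => F i ^ 2 * (1 - 2 * ip (C.u i) (C.u j) ^ 2) + F i * F j
    with hG
  have hGii : ∀ i, G i i = 0 := by
    intro i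
    simp only [hG]
    rw [bc_ip_self]
    ring
  have hGd : ∀ i j, G i j = F i ^ 2 * (1 - 2 * ip (C.u i) (C.u j) ^ 2) + F i * F j :=
    fun i j => rfl
  -- the identity on a line
  have hline : ∀ l : Finset (Fin n), (∑ i ∈ l, F i) ^ 2 =
      ∑ i ∈ l, F i ^ 2 * (∑ j ∈ l, (2 * ip (C.u i) (C.u j) ^ 2 - 1)) +
        ∑ i ∈ l, ∑ j ∈ l, G i j := by
    intro l
    rw [pow_two, Finset.sum_mul_sum, ← Finset.sum_add_distrib]
    refine Finset.sum_congr rfl (fun i _ => ?_)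
    rw [Finset.mul_sum, ← Finset.sum_add_distrib]
    refine Finset.sum_congr rfl (fun j _ => ?_)
    rw [hGd]
    ring
  have hsub : Us C v s ⊆ C.L := Finset.filter_subset _ _
  have hF2 : ∀ i, F i ^ 2 ≤ K ^ 2 := by
    intro i
    rw [← sq_abs (F i)]
    exact pow_le_pow_left₀ (abs_nonneg _) (hF i) 2
  -- first part
  have hA : ∑ l ∈ Us C v s, ∑ i ∈ l, F i ^ 2 * (∑ j ∈ l, (2 * ip (C.u i) (C.u j) ^ 2 - 1)) ≤
      K ^ 2 * ∑ l ∈ C.L, (l.card : ℝ) * Real.sqrt (C.T l) := by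
    rw [Finset.mul_sum]
    calc ∑ l ∈ Us C v s, ∑ i ∈ l, F i ^ 2 * (∑ j ∈ l, (2 * ip (C.u i) (C.u j) ^ 2 - 1))
        ≤ ∑ l ∈ Us C v s, K ^ 2 * ((l.card : ℝ) * Real.sqrt (C.T l)) := by
          refine Finset.sum_le_sum (fun l hl => ?_)
          have hlL := hsub hl
          calc ∑ i ∈ l, F i ^ 2 * (∑ j ∈ l, (2 * ip (C.u i) (C.u j) ^ 2 - 1))
              ≤ ∑ _i ∈ l, K ^ 2 * Real.sqrt (C.T l) := by
                refine Finset.sum_le_sum (fun i hi => ?_)
                have h1 := (le_abs_self _).trans (C.abs_sum_re hlL hi)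
                calc F i ^ 2 * (∑ j ∈ l, (2 * ip (C.u i) (C.u j) ^ 2 - 1))
                    ≤ F i ^ 2 * Real.sqrt (C.T l) :=
                      mul_le_mul_of_nonneg_left h1 (sq_nonneg _)
                  _ ≤ K ^ 2 * Real.sqrt (C.T l) :=
                      mul_le_mul_of_nonneg_right (hF2 i) (Real.sqrt_nonneg _)
            _ = K ^ 2 * ((l.card : ℝ) * Real.sqrt (C.T l)) := by
                rw [Finset.sum_const, nsmul_eq_mul]
                ring
      _ ≤ ∑ l ∈ C.L, K ^ 2 * ((l.card : ℝ) * Real.sqrt (C.T l)) := by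
          refine Finset.sum_le_sum_of_subset_of_nonneg hsub (fun l _ _ => ?_)
          positivity
  -- second part
  have hB : ∑ l ∈ Us C v s, ∑ i ∈ l, ∑ j ∈ l, G i j =
      ∑ i, ∑ j ∈ univ.filter (fun j => j ≠ i), (if C.ln i j ∈ Us C v s then G i j else 0) := by
    rw [C.sum_pairs (fun i j l => if l ∈ Us C v s then G i j else 0)]
    rw [← Finset.sum_subset hsub]
    · refine Finset.sum_congr rfl (fun l hl => ?_)
      refine Finset.sum_congr rfl (fun i _ => ?_)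
      rw [Finset.sum_filter]
      refine Finset.sum_congr rfl (fun j _ => ?_)
      by_cases hj : j = i
      · rw [hj, hGii]
        simp
      · rw [if_pos hj, if_pos hl]
    · intro l _ hl
      refine Finset.sum_eq_zero (fun i _ => Finset.sum_eq_zero (fun j _ => ?_))
      rw [if_neg hl]
  set Zc : Fin n → Fin n → Prop := fun i j =>
    1 - ρ ^ 2 ≤ ip (C.u i) (C.u j) ^ 2 ∧ F i ≠ F j with hZc
  set Ac : Fin n → Prop := fun j => r < |ip (C.u j) v| ∧ |ip (C.u j) v| ≤ s with hAc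
  have hK2 : 0 ≤ K ^ 2 := sq_nonneg K
  have hmemN : ∀ i, i ∈ NN C v r ↔ |ip (C.u i) v| ≤ r := by
    intro i
    simp [NN]
  have hpt : ∀ i ∈ NN C v r, ∀ j, j ≠ i → (if C.ln i j ∈ Us C v s then G i j else 0) ≤
      (if j ∈ NN C v r then G i j + (if Zc i j then 2 * K ^ 2 else 0) else 0) +
        (if Ac j then K ^ 2 else 0) := by
    intro i hi j hji
    have hAn : 0 ≤ (if Ac j then K ^ 2 else 0) := by split_ifs <;> simp [hK2]
    by_cases hj : j ∈ NN C v r
    · rw [if_pos hj]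
      have hZn : 0 ≤ (if Zc i j then 2 * K ^ 2 else 0) := by
        split_ifs
        · linarith
        · exact le_refl _
      by_cases hU : C.ln i j ∈ Us C v s
      · rw [if_pos hU]
        linarith
      · rw [if_neg hU]
        have hP : 1 - ρ ^ 2 < ip (C.u i) (C.u j) ^ 2 := by
          by_contra hP
          push Not at hP
          apply hU
          have h2 : 2 * r / ρ ≤ s := by
            rw [div_le_iff₀ hρ]
            linarith
          simp only [Us, mem_filter]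
          refine ⟨C.ln_mem (Ne.symm hji), fun k hk => ?_⟩
          exact (near_line C v r ρ hρ (Ne.symm hji) ((hmemN i).1 hi) ((hmemN j).1 hj) hP hk).trans h2
        by_cases hFF : F i = F j
        · have h1 : 0 ≤ G i j := by
            rw [hGd, ← hFF]
            have h2 := bc_ip_le C i j
            nlinarith [sq_nonneg (F i), mul_nonneg (sq_nonneg (F i)) (sub_nonneg.2 h2)]
          linarith
        · have hz : Zc i j := ⟨hP.le, hFF⟩
          rw [if_pos hz]
          have h1 := (abs_le.1 (bc_G_abs (hF i) (hF j) (sq_nonneg (ip (C.u i) (C.u j)))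
            (bc_ip_le C i j))).1
          rw [hGd]
          linarith
    · rw [if_neg hj, zero_add]
      by_cases hU : C.ln i j ∈ Us C v s
      · rw [if_pos hU]
        have h1 : |ip (C.u j) v| ≤ s := by
          have h2 := hU
          simp only [Us, mem_filter] at h2
          exact h2.2 j (C.right_mem (Ne.symm hji))
        have h2 : r < |ip (C.u j) v| := by
          by_contra h3
          exact hj ((hmemN j).2 (not_lt.1 h3))
        have hac : Ac j := ⟨h2, h1⟩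
        rw [if_pos hac, hGd, h0 j hj]
        exact bc_G_le (hF i) (sq_nonneg _)
      · rw [if_neg hU]
        exact hAn
  have hdiag : ∀ i, 0 ≤ (if i ∈ NN C v r then G i i + (if Zc i i then 2 * K ^ 2 else 0) else 0) +
        (if Ac i then K ^ 2 else 0) := by
    intro i
    rw [hGii, zero_add]
    have h1 : 0 ≤ 2 * K ^ 2 := by linarith
    apply add_nonneg
    · split_ifs
      · exact h1
      · exact le_refl _
      · exact le_refl _
    · split_ifs
      · exact hK2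
      · exact le_refl _
  have hC : ∑ i, ∑ j ∈ univ.filter (fun j => j ≠ i), (if C.ln i j ∈ Us C v s then G i j else 0) ≤
      ∑ i ∈ NN C v r, ∑ j, ((if j ∈ NN C v r then G i j + (if Zc i j then 2 * K ^ 2 else 0) else 0)
        + (if Ac j then K ^ 2 else 0)) := by
    rw [← Finset.sum_subset (Finset.subset_univ (NN C v r))]
    · refine Finset.sum_le_sum (fun i hi => ?_)
      calc ∑ j ∈ univ.filter (fun j => j ≠ i), (if C.ln i j ∈ Us C v s then G i j else 0)
          ≤ ∑ j ∈ univ.filter (fun j => j ≠ i),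
            ((if j ∈ NN C v r then G i j + (if Zc i j then 2 * K ^ 2 else 0) else 0)
              + (if Ac j then K ^ 2 else 0)) := by
            refine Finset.sum_le_sum (fun j hj => ?_)
            simp only [mem_filter, mem_univ, true_and] at hj
            exact hpt i hi j hj
        _ ≤ _ := by
            refine Finset.sum_le_sum_of_subset_of_nonneg (Finset.filter_subset _ _) ?_
            intro j _ hj
            simp only [mem_filter, mem_univ, true_and, not_not] at hj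
            rw [hj]
            exact hdiag i
    · intro i _ hi
      refine Finset.sum_eq_zero (fun j _ => ?_)
      have h1 : G i j = 0 := by
        rw [hGd, h0 i hi]
        ring
      rw [h1]
      simp
  have hD : ∑ i ∈ NN C v r, ∑ j, ((if j ∈ NN C v r then G i j +
        (if Zc i j then 2 * K ^ 2 else 0) else 0) + (if Ac j then K ^ 2 else 0)) =
      ∑ i ∈ NN C v r, ∑ j ∈ NN C v r, G i j +
        2 * K ^ 2 * (((NN C v r ×ˢ NN C v r).filter fun p => Zc p.1 p.2).card : ℝ) +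
        ((NN C v r).card : ℝ) * (K ^ 2 * ((univ.filter fun j => Ac j).card : ℝ)) := by
    have h1 : ∀ i ∈ NN C v r, ∑ j, ((if j ∈ NN C v r then G i j +
        (if Zc i j then 2 * K ^ 2 else 0) else 0) + (if Ac j then K ^ 2 else 0)) =
        (∑ j ∈ NN C v r, G i j + ∑ j ∈ NN C v r, (if Zc i j then 2 * K ^ 2 else 0)) +
          K ^ 2 * ((univ.filter fun j => Ac j).card : ℝ) := by
      intro i _
      rw [Finset.sum_add_distrib]
      congr 1
      · rw [← Finset.sum_filter, Finset.filter_mem_eq_inter, Finset.univ_inter,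
          Finset.sum_add_distrib]
      · rw [← Finset.sum_filter, Finset.sum_const, nsmul_eq_mul, mul_comm]
    rw [Finset.sum_congr rfl h1, Finset.sum_add_distrib, Finset.sum_add_distrib]
    congr 1
    · congr 1
      have h2 := Finset.sum_product (NN C v r) (NN C v r)
        (fun p : Fin n × Fin n => if Zc p.1 p.2 then 2 * K ^ 2 else 0)
      simp only at h2
      rw [← h2, ← Finset.sum_filter, Finset.sum_const, nsmul_eq_mul, mul_comm]
    · rw [Finset.sum_const, nsmul_eq_mul]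
  have hcard : ((NN C v r).card : ℝ) ≤ n := by
    have h1 := Finset.card_le_univ (NN C v r)
    rw [Fintype.card_fin] at h1
    exact_mod_cast h1
  have hE : ((NN C v r).card : ℝ) * (K ^ 2 * ((univ.filter fun j => Ac j).card : ℝ)) ≤
      K ^ 2 * (n * ((univ.filter fun j => Ac j).card : ℝ)) := by
    have h1 : 0 ≤ K ^ 2 * ((univ.filter fun j => Ac j).card : ℝ) := by positivity
    calc ((NN C v r).card : ℝ) * (K ^ 2 * ((univ.filter fun j => Ac j).card : ℝ))
        ≤ n * (K ^ 2 * ((univ.filter fun j => Ac j).card : ℝ)) :=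
          mul_le_mul_of_nonneg_right hcard h1
      _ = _ := by ring
  have hR : 0 ≤ K ^ 2 * (2 * ρ ^ 2 * (n : ℝ) ^ 2) := by positivity
  have hL : ∑ l ∈ Us C v s, (∑ i ∈ l, F i) ^ 2 =
      ∑ l ∈ Us C v s, ∑ i ∈ l, F i ^ 2 * (∑ j ∈ l, (2 * ip (C.u i) (C.u j) ^ 2 - 1)) +
        ∑ l ∈ Us C v s, ∑ i ∈ l, ∑ j ∈ l, G i j := by
    rw [← Finset.sum_add_distrib]
    exact Finset.sum_congr rfl (fun l _ => hline l)
  rw [hL, hB]
  rw [hD] at hC
  have hfin : K ^ 2 * (∑ l ∈ C.L, (l.card : ℝ) * Real.sqrt (C.T l) +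
        n * ((univ.filter fun j => Ac j).card : ℝ) +
        2 * ρ ^ 2 * (n : ℝ) ^ 2 +
        2 * (((NN C v r ×ˢ NN C v r).filter fun p => Zc p.1 p.2).card : ℝ)) =
      K ^ 2 * ∑ l ∈ C.L, (l.card : ℝ) * Real.sqrt (C.T l) +
        K ^ 2 * (n * ((univ.filter fun j => Ac j).card : ℝ)) +
        K ^ 2 * (2 * ρ ^ 2 * (n : ℝ) ^ 2) +
        2 * K ^ 2 * (((NN C v r ×ˢ NN C v r).filter fun p => Zc p.1 p.2).card : ℝ) := by ring
  have hgoal : ∑ l ∈ Us C v s, ∑ i ∈ l, F i ^ 2 * (∑ j ∈ l, (2 * ip (C.u i) (C.u j) ^ 2 - 1)) +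
      ∑ i, ∑ j ∈ univ.filter (fun j => j ≠ i), (if C.ln i j ∈ Us C v s then G i j else 0) ≤
      ∑ i ∈ NN C v r, ∑ j ∈ NN C v r, G i j +
      K ^ 2 * (∑ l ∈ C.L, (l.card : ℝ) * Real.sqrt (C.T l) +
        n * ((univ.filter fun j => Ac j).card : ℝ) +
        2 * ρ ^ 2 * (n : ℝ) ^ 2 +
        2 * (((NN C v r ×ˢ NN C v r).filter fun p => Zc p.1 p.2).card : ℝ)) := by
    rw [hfin]
    linarith
  exact hgoal

end Pool.Agent.H23.DR
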