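import Mathlib
import Pool.Agent.H47.DR.Defs

/-!
# Limit block of the Dirac problem (MP_5c92e3_co): definitions (helper23)

Sections 3, 4, 5 of /team-store/h89_dirac.md, with the limit `PP` of the uniform measures on the
triples (point, point, unit normal of their line). Definitions of configurations: H47.DR.Defs.
-/

namespace Pool.Agent.H23.DR

open H47.DR MeasureTheory Filter Topology
open scoped ENNReal RealInnerProductSpace

/-- A sequence of near extremal configurations. -/
structure SeqG where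
  N : ℕ → ℕ
  C : ∀ m, Cfg (N m)
  good : ∀ m, Good (C m) (1 / ((m : ℝ) + 1))

/-- The ultrafilter along which all limits are taken. -/
noncomputable def UU : Filter ℕ := (Filter.hyperfilter ℕ : Filter ℕ)

/-- The great circle orthogonal to `v`. -/
def Pl (v : S2) : Set S2 := {u | ip u v = 0}

/-- Three coplanar vectors. -/
def Cop (a b c : E) : Prop := ∃ ν : E, ‖ν‖ = 1 ∧ ip ν a = 0 ∧ ip ν b = 0 ∧ ip ν c = 0

/-- The pair `x, -x`. -/
def pm (x : S2) : Set S2 := {x, -x}

/-- The points neither parallel nor orthogonal to `x`. -/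
def WW (x : S2) : Set S2 := {u | 0 < |ip x u| ∧ |ip x u| < 1}

/-- The second moments of the part of `μ` on the great circle `Pl v`. -/
noncomputable def BL (μ : Measure S2) (v : S2) (a b : E) : ℝ :=
  ∫ u in Pl v, ip u a * ip u b ∂μ

/-- `cof c p = c - <c, p> p` -/
noncomputable def cof (c p : E) : E := c - ip c p • p

theorem norm_sph (p : S2) : ‖(p : E)‖ = 1 := by simp

theorem ip_self_sph (p : S2) : ip (p : E) (p : E) = 1 := by
  simp only [ip]
  rw [real_inner_self_eq_norm_sq, norm_sph]; norm_num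

theorem cof_perp (c : E) (p : S2) : ip (cof c (p : E)) (p : E) = 0 := by
  have := ip_self_sph p
  simp only [ip, cof] at this ⊢
  rw [inner_sub_left, real_inner_smul_left, this]
  ring

theorem cof_norm (c : E) (p : S2) : ‖cof c (p : E)‖ ≤ 2 * ‖c‖ := by
  have h1 : |ip c (p : E)| ≤ ‖c‖ := by
    have := abs_real_inner_le_norm c (p : E)
    rwa [norm_sph, mul_one] at this
  calc ‖cof c (p : E)‖ ≤ ‖c‖ + ‖ip c (p : E) • (p : E)‖ := norm_sub_le _ _
    _ ≤ ‖c‖ + ‖c‖ := by
        rw [norm_smul, norm_sph, mul_one, Real.norm_eq_abs]; linarith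
    _ = 2 * ‖c‖ := by ring

open Classical in
/-- The limit object of a sequence of near extremal configurations: `μ` is the limit of the uniform
measures on the points, `PP` the limit of the uniform measures on the triples (point, point, unit
normal of the connecting line). -/
structure LimD (s : SeqG) (μ : Measure S2) (PP : Measure (S2 × S2 × S2)) : Prop where
  pr : IsProbabilityMeasure μ
  prP : IsProbabilityMeasure PP
  cl : ∀ F : Set S2, IsClosed F → ∀ ε : ℝ, 0 < ε → ∀ᶠ m in UU,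
    ((Finset.univ.filter fun i => (s.C m).us i ∈ F).card : ℝ) ≤ (μ.real F + ε) * s.N m
  op : ∀ G : Set S2, IsOpen G → ∀ ε : ℝ, 0 < ε → ∀ᶠ m in UU,
    (μ.real G - ε) * s.N m ≤ ((Finset.univ.filter fun i => (s.C m).us i ∈ G).card : ℝ)
  cl2 : ∀ F : Set (S2 × S2), IsClosed F → ∀ ε : ℝ, 0 < ε → ∀ᶠ m in UU,
    ((Finset.univ.filter fun p : Fin (s.N m) × Fin (s.N m) =>
      ((s.C m).us p.1, (s.C m).us p.2) ∈ F).card : ℝ) ≤ ((μ.prod μ).real F + ε) * (s.N m) ^ 2
  ct : ∀ f : S2 → ℝ, Continuous f →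
    Tendsto (fun m => 1 / (s.N m : ℝ) * ∑ i, f ((s.C m).us i)) UU (𝓝 (∫ u, f u ∂μ))
  iso : ∀ y : E, ∫ u : S2, ip u y ^ 2 ∂μ = ‖y‖ ^ 2 / 3
  marg : PP.map (fun x => (x.1, x.2.1)) = μ.prod μ
  perp : ∀ᵐ x ∂PP, ip x.2.2 x.1 = 0 ∧ ip x.2.2 x.2.1 = 0
  bal : ∀ V : S2 × S2 → E, Measurable V → (∃ C, ∀ y, ‖V y‖ ≤ C) →
    (∀ p ν : S2, ip (V (p, ν)) p = 0) →
    ∫ x, ip x.1 x.2.1 * ip (V (x.1, x.2.2)) x.2.1 ∂PP = 0

/-- A great circle is solid if almost all points of the configurations near it are on one line. -/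
def Solid (s : SeqG) (μ : Measure S2) (v : S2) : Prop :=
  ∀ κ : ℝ, 0 < κ → ∀ r : ℝ, 0 < r → ∀ᶠ m in UU, ∃ l ∈ (s.C m).L,
    (μ.real (Pl v) - κ) * s.N m ≤ (l.card : ℝ) ∧ ∀ i ∈ l, |ip ((s.C m).u i) v| ≤ r

/-- The second moments on `Pl v` are those of a multiple of the identity. -/
def Scal (μ : Measure S2) (v : S2) : Prop :=
  ∀ a b : E, ip a v = 0 → BL μ v a b = μ.real (Pl v) / 2 * ip a b

/-- Three directions in the support of `μ` on `Pl v`. -/
def Three (μ : Measure S2) (v : S2) (y : Fin 3 → S2) : Prop :=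
  (∀ a, y a ∈ Pl v) ∧ (∀ a b, a ≠ b → |ip (y a) (y b)| < 1) ∧
    ∀ a, ∀ c : ℝ, c < 1 → 0 < μ ({u : S2 | c < |ip u (y a)|} ∩ Pl v)

/-- determinant -/
def det3 (a b c : E) : ℝ :=
  a 0 * (b 1 * c 2 - b 2 * c 1) - a 1 * (b 0 * c 2 - b 2 * c 0) + a 2 * (b 0 * c 1 - b 1 * c 0)

open Classical in
/-- The points within `r` of the plane orthogonal to `v`. -/
noncomputable def NN {n : ℕ} (C : Cfg n) (v : E) (r : ℝ) : Finset (Fin n) :=
  Finset.univ.filter fun i => |ip (C.u i) v| ≤ r

open Classical in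
/-- The lines all of whose points are within `s` of the plane orthogonal to `v`. -/
noncomputable def Us {n : ℕ} (C : Cfg n) (v : E) (s : ℝ) : Finset (Finset (Fin n)) :=
  C.L.filter fun l => ∀ i ∈ l, |ip (C.u i) v| ≤ s

theorem isClosed_Pl (v : S2) : IsClosed (Pl v) := by
  have : Continuous fun u : S2 => ip u v := by fun_prop
  exact isClosed_singleton.preimage this

theorem isClosed_pm (x : S2) : IsClosed (pm x) := by
  unfold pm; exact (Set.toFinite _).isClosed

theorem isOpen_WW (x : S2) : IsOpen (WW x) := by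
  have : Continuous fun u : S2 => |ip x u| := by fun_prop
  exact (isOpen_Ioo (a := (0 : ℝ)) (b := 1)).preimage this

end Pool.Agent.H23.DR
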