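import Pool.Agent.H23.DR.Third

/-!
# Module Caps (about 170 lines)

PROOF. (1) Order and signs: `D a b = det3 a b v`, alternating bilinear; for independent `a, b ∈ Pl v`
`D a b ≠ 0` (`v, a, b` is a basis; `D a b = ± ‖..‖`; with the frame `a, v, f`: `b = β a + δ f`,
`D a b = δ det3 a f v`, `det3 a f v = ± 1`). Replace `y 1` by `± y 1` and `y 2` by `± y 2` to get
`D (y 0) (y 1) > 0`, `D (y 0) (y 2) > 0`; if then `D (y 1) (y 2) < 0` exchange `y 1` and `y 2`. The conditions of
`Three` do not change under signs and permutations. (2) By continuity there is `c0 < 1` such that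
`det3 u w v > 0` for unit `u, w` with `ip u (y' a) ≥ c0`, `ip w (y' b) ≥ c0`, `a < b` (`‖u - y' a‖^2 = 2 - 2 ip`;
`det3` is trilinear, `|det3 x y z| ≤ 6 ‖x‖ ‖y‖ ‖z‖`). (3) Only countably many `c` have
`μ {u | |ip u (y' a)| = c} > 0` for some `a` (`Measure.countable_meas_level_set_pos`); choose
`c ∈ (max c0 0, 1)` outside of them. (4) `ρ0`: if `c ≤ |ip u (y' a)|`, `c ≤ |ip w (y' b)|`, `a ≠ b`, then
with the right signs `det3 (± u) (± w) v ≠ 0` (sign by (2)), so `|ip u w| < 1`; the set of such pairs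
`(u, w)` is compact and `ip u w ^2` is continuous: its maximum is `< 1`.
-/

namespace Pool.Agent.H23.DR

open H47.DR MeasureTheory Filter Topology

theorem caps_ip (x y : E) : ip x y = x 0 * y 0 + x 1 * y 1 + x 2 * y 2 := by
  unfold ip
  rw [PiLp.inner_apply, Fin.sum_univ_three]
  simp only [RCLike.inner_apply, conj_trivial]
  ring

theorem caps_gram (a b c : E) : det3 a b c ^ 2 =
    ip a a * (ip b b * ip c c - ip b c ^ 2) - ip a b * (ip a b * ip c c - ip b c * ip a c) +
      ip a c * (ip a b * ip b c - ip b b * ip a c) := by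
  unfold det3
  rw [caps_ip, caps_ip, caps_ip, caps_ip, caps_ip, caps_ip]
  ring

theorem caps_unit {x : E} (h : ‖x‖ = 1) : ip x x = 1 := by
  unfold ip
  rw [real_inner_self_eq_norm_sq, h]
  norm_num

theorem caps_le {x y : E} (hx : ‖x‖ = 1) (hy : ‖y‖ = 1) : |ip x y| ≤ 1 := by
  have h1 := abs_real_inner_le_norm x y
  rwa [hx, hy, mul_one] at h1

/-- the square of the determinant of unit vectors -/
theorem caps_sq {u w v : E} (hu : ‖u‖ = 1) (hw : ‖w‖ = 1) (hv : ‖v‖ = 1) :
    ip u w ^ 2 ≤ 1 - det3 u w v ^ 2 := by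
  rw [caps_gram, caps_unit hu, caps_unit hw, caps_unit hv]
  have h := abs_le.1 (caps_le hu hw)
  set x := ip u w
  set y := ip w v
  set z := ip u v
  have h1 : 2 * x * y * z ≤ y ^ 2 + z ^ 2 := by
    nlinarith [sq_nonneg (y - z), sq_nonneg (y + z), mul_nonneg (by linarith [h.1] : 0 ≤ 1 + x)
      (sq_nonneg (y + z)), mul_nonneg (by linarith [h.2] : 0 ≤ 1 - x) (sq_nonneg (y - z)),
      mul_nonneg (by linarith [h.1] : 0 ≤ 1 + x) (sq_nonneg (y - z)),
      mul_nonneg (by linarith [h.2] : 0 ≤ 1 - x) (sq_nonneg (y + z))]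
  nlinarith

theorem caps_coord (x : E) (i : Fin 3) : |x i| ≤ ‖x‖ := by
  have := PiLp.norm_apply_le x i
  rwa [Real.norm_eq_abs] at this

theorem caps_bound (x y z : E) : |det3 x y z| ≤ 6 * (‖x‖ * ‖y‖ * ‖z‖) := by
  have key : ∀ i j k : Fin 3, |x i * y j * z k| ≤ ‖x‖ * ‖y‖ * ‖z‖ := by
    intro i j k
    rw [abs_mul, abs_mul]
    exact mul_le_mul (mul_le_mul (caps_coord x i) (caps_coord y j) (abs_nonneg _) (norm_nonneg _))
      (caps_coord z k) (abs_nonneg _) (mul_nonneg (norm_nonneg _) (norm_nonneg _))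
  have h1 := abs_le.1 (key 0 1 2)
  have h2 := abs_le.1 (key 0 2 1)
  have h3 := abs_le.1 (key 1 0 2)
  have h4 := abs_le.1 (key 1 2 0)
  have h5 := abs_le.1 (key 2 0 1)
  have h6 := abs_le.1 (key 2 1 0)
  unfold det3
  rw [abs_le]
  constructor <;> nlinarith [h1.1, h1.2, h2.1, h2.2, h3.1, h3.2, h4.1, h4.2, h5.1, h5.2, h6.1, h6.2]

theorem caps_diff (u w a b v : E) : det3 u w v - det3 a b v = det3 (u - a) w v + det3 a (w - b) v := by
  unfold det3
  simp only [PiLp.sub_apply]
  ring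

theorem caps_dist {u a : E} (hu : ‖u‖ = 1) (ha : ‖a‖ = 1) {c : ℝ} (h : c ≤ ip u a) :
    ‖u - a‖ ≤ Real.sqrt (2 - 2 * c) := by
  apply Real.le_sqrt_of_sq_le
  rw [norm_sub_sq_real, hu, ha]
  have : inner ℝ u a = ip u a := rfl
  rw [this]
  linarith

theorem caps_neg_ip (x : S2) (y : E) : ip ((-x : S2) : E) y = - ip (x : E) y := by
  rw [coe_neg_sphere, ip, inner_neg_left]

theorem caps_neg_ip' (x : S2) (y : E) : ip y ((-x : S2) : E) = - ip y (x : E) := by
  rw [coe_neg_sphere, ip, inner_neg_right]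

theorem caps_neg_det (a b : E) (v : E) : det3 a (-b) v = - det3 a b v := by
  unfold det3
  simp only [PiLp.neg_apply]
  ring

theorem caps_neg_det' (a b : E) (v : E) : det3 (-a) b v = - det3 a b v := by
  unfold det3
  simp only [PiLp.neg_apply]
  ring

theorem caps_swap (a b : E) (v : E) : det3 a b v = - det3 b a v := by
  unfold det3
  ring

/-- signs and permutations -/
theorem caps_three {μ : Measure S2} {v : S2} {y : Fin 3 → S2} (hT : Three μ v y) (π : Fin 3 → Fin 3)
    (hπ : Function.Injective π) (y' : Fin 3 → S2) (h : ∀ a, y' a = y (π a) ∨ y' a = -y (π a)) :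
    Three μ v y' := by
  obtain ⟨h1, h2, h3⟩ := hT
  refine ⟨fun a => ?_, fun a b hab => ?_, fun a c hc => ?_⟩
  · have h4 : ip (y (π a) : E) (v : E) = 0 := h1 (π a)
    change ip (y' a : E) (v : E) = 0
    rcases h a with h' | h'
    · rw [h', h4]
    · rw [h', caps_neg_ip, h4, neg_zero]
  · have h4 := h2 (π a) (π b) (fun h' => hab (hπ h'))
    rcases h a with h' | h' <;> rcases h b with h'' | h'' <;> rw [h', h''] <;>
      first
        | exact h4
        | (simp only [caps_neg_ip, caps_neg_ip', abs_neg, neg_neg]; exact h4)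
  · have h4 := h3 (π a) c hc
    rcases h a with h' | h' <;> rw [h'] <;>
      first
        | exact h4
        | (simp only [caps_neg_ip', abs_neg]; exact h4)

/-- sign choice -/
theorem caps_sign (a x : S2) (v : E) (h : det3 a x v ≠ 0) :
    ∃ x' : S2, (x' = x ∨ x' = -x) ∧ 0 < det3 a x' v := by
  rcases lt_or_gt_of_ne h with h1 | h1
  · refine ⟨-x, Or.inr rfl, ?_⟩
    rw [coe_neg_sphere, caps_neg_det]
    linarith
  · exact ⟨x, Or.inl rfl, h1⟩

theorem caps_order (μ : Measure S2) (v : S2) (y : Fin 3 → S2) (hT : Three μ v y) :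
    ∃ y' : Fin 3 → S2, Three μ v y' ∧ ∀ a b : Fin 3, a < b → 0 < det3 (y' a) (y' b) v := by
  have hne : ∀ z : Fin 3 → S2, Three μ v z → ∀ a b, a ≠ b → det3 (z a) (z b) v ≠ 0 := by
    intro z hz a b hab h0
    have h1 := caps_gram (z a : E) (z b) v
    have ha : ip (z a : E) (v : E) = 0 := hz.1 a
    have hb : ip (z b : E) (v : E) = 0 := hz.1 b
    rw [h0, caps_unit (norm_sph _), caps_unit (norm_sph _), caps_unit (norm_sph _), ha, hb] at h1
    have h2 := abs_lt.1 (hz.2.1 a b hab)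
    nlinarith
  obtain ⟨x1, hx1, h1⟩ := caps_sign (y 0) (y 1) v (hne y hT 0 1 (by decide))
  obtain ⟨x2, hx2, h2⟩ := caps_sign (y 0) (y 2) v (hne y hT 0 2 (by decide))
  have hz : Three μ v ![y 0, x1, x2] := by
    refine caps_three hT id Function.injective_id _ fun a => ?_
    fin_cases a
    · exact Or.inl rfl
    · exact hx1
    · exact hx2
  have h3 := hne _ hz 1 2 (by decide)
  have h3' : det3 x1 x2 v ≠ 0 := h3
  rcases lt_or_gt_of_ne h3' with h4 | h4
  · refine ⟨![y 0, x2, x1], ?_, ?_⟩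
    · refine caps_three hT ![0, 2, 1] (by decide) _ fun a => ?_
      fin_cases a
      · exact Or.inl rfl
      · exact hx2
      · exact hx1
    · intro a b hab
      fin_cases a <;> fin_cases b <;> first | exact absurd hab (by decide) | skip
      · exact h2
      · exact h1
      · change 0 < det3 x2 x1 v
        rw [caps_swap]
        linarith
  · refine ⟨![y 0, x1, x2], hz, ?_⟩
    intro a b hab
    fin_cases a <;> fin_cases b <;> first | exact absurd hab (by decide) | skip
    · exact h1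
    · exact h2
    · exact h4

theorem caps (μ : Measure S2) [IsProbabilityMeasure μ] (v : S2) (y : Fin 3 → S2)
    (hT : Three μ v y) :
    ∃ (y' : Fin 3 → S2) (c ρ0 : ℝ), 0 < c ∧ c < 1 ∧ 0 < ρ0 ∧ (∀ a, y' a ∈ Pl v) ∧
      (∀ a, 0 < μ ({u : S2 | c < |ip u (y' a)|} ∩ Pl v)) ∧
      (∀ a, μ {u : S2 | |ip u (y' a)| = c} = 0) ∧
      (∀ a b : Fin 3, a < b → ∀ u w : E, ‖u‖ = 1 → ‖w‖ = 1 → c ≤ ip u (y' a) →
        c ≤ ip w (y' b) → 0 < det3 u w v) ∧
      (∀ a b : Fin 3, a ≠ b → ∀ u w : S2, c ≤ |ip u (y' a)| → c ≤ |ip w (y' b)| →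
        ip u w ^ 2 ≤ 1 - ρ0 ^ 2) := by
  classical
  obtain ⟨y', hT', hord⟩ := caps_order μ v y hT
  -- the minimum of the determinants
  obtain ⟨δ, hδ0, hδ⟩ : ∃ δ : ℝ, 0 < δ ∧ ∀ a b : Fin 3, a < b → δ ≤ det3 (y' a) (y' b) v := by
    refine ⟨min (det3 (y' 0) (y' 1) v) (min (det3 (y' 0) (y' 2) v) (det3 (y' 1) (y' 2) v)), ?_, ?_⟩
    · exact lt_min (hord 0 1 (by decide)) (lt_min (hord 0 2 (by decide)) (hord 1 2 (by decide)))
    · intro a b hab
      fin_cases a <;> fin_cases b <;> first | exact absurd hab (by decide) | skip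
      · exact min_le_left _ _
      · exact (min_le_right _ _).trans (min_le_left _ _)
      · exact (min_le_right _ _).trans (min_le_right _ _)
  -- the constant
  have hcount : (⋃ a : Fin 3, {t : ℝ | 0 < μ {u : S2 | |ip u (y' a)| = t}}).Countable := by
    refine Set.countable_iUnion fun a => ?_
    have hm : Measurable fun u : S2 => |ip u (y' a)| := by
      have : Continuous fun u : S2 => |ip u (y' a)| := by fun_prop
      exact this.measurable
    exact Measure.countable_meas_level_set_pos hm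
  have hlt : max (1 / 2) (1 - δ ^ 2 / 400) < (1 : ℝ) := by
    refine max_lt (by norm_num) ?_
    have : 0 < δ ^ 2 := by positivity
    linarith
  obtain ⟨c, hc, hc1, hc2⟩ := (hcount.dense_compl ℝ).exists_between hlt
  have hc12 : 1 / 2 < c := (le_max_left _ _).trans_lt hc1
  have hcδ : 1 - δ ^ 2 / 400 < c := (le_max_right _ _).trans_lt hc1
  have hs : Real.sqrt (2 - 2 * c) ≤ δ / 14 := by
    rw [Real.sqrt_le_left (by positivity)]
    nlinarith
  -- the main estimate
  have main : ∀ a b : Fin 3, a < b → ∀ u w : E, ‖u‖ = 1 → ‖w‖ = 1 → c ≤ ip u (y' a) →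
      c ≤ ip w (y' b) → δ / 10 ≤ det3 u w v := by
    intro a b hab u w hu hw h1 h2
    have h3 := hδ a b hab
    have h4 := caps_diff u w (y' a) (y' b) v
    have h5 := caps_bound (u - y' a) w v
    have h6 := caps_bound (y' a) (w - y' b) v
    have h7 := caps_dist hu (norm_sph (y' a)) h1
    have h8 := caps_dist hw (norm_sph (y' b)) h2
    rw [hw, norm_sph, mul_one, mul_one] at h5
    rw [norm_sph, norm_sph, one_mul, mul_one] at h6
    have h9 := abs_le.1 h5
    have h10 := abs_le.1 h6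
    linarith [h9.1, h10.1]
  refine ⟨y', c, δ / 10, by linarith, hc2, by positivity, hT'.1, fun a => hT'.2.2 a c hc2, ?_,
    fun a b hab u w hu hw h1 h2 => ?_, ?_⟩
  · intro a
    by_contra h0
    apply hc
    rw [Set.mem_iUnion]
    exact ⟨a, pos_iff_ne_zero.2 h0⟩
  · have := main a b hab u w hu hw h1 h2
    linarith
  · -- all pairs
    have hlt2 : ∀ a b : Fin 3, a < b → ∀ u w : S2, c ≤ |ip u (y' a)| → c ≤ |ip w (y' b)| →
        ip u w ^ 2 ≤ 1 - (δ / 10) ^ 2 := by
      intro a b hab u w h1 h2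
      obtain ⟨u', hu', h1'⟩ : ∃ u' : S2, (u' = u ∨ u' = -u) ∧ c ≤ ip u' (y' a) := by
        rcases le_abs.1 h1 with h | h
        · exact ⟨u, Or.inl rfl, h⟩
        · exact ⟨-u, Or.inr rfl, by rw [caps_neg_ip]; exact h⟩
      obtain ⟨w', hw', h2'⟩ : ∃ w' : S2, (w' = w ∨ w' = -w) ∧ c ≤ ip w' (y' b) := by
        rcases le_abs.1 h2 with h | h
        · exact ⟨w, Or.inl rfl, h⟩
        · exact ⟨-w, Or.inr rfl, by rw [caps_neg_ip]; exact h⟩
      have h3 := main a b hab u' w' (norm_sph _) (norm_sph _) h1' h2'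
      have h4 := caps_sq (norm_sph u') (norm_sph w') (norm_sph v)
      have h5 : ip (u' : E) (w' : E) ^ 2 = ip (u : E) (w : E) ^ 2 := by
        rcases hu' with rfl | rfl <;> rcases hw' with rfl | rfl <;>
          simp only [caps_neg_ip, caps_neg_ip', neg_neg, neg_sq]
      rw [h5] at h4
      have h6 : (δ / 10) ^ 2 ≤ det3 u' w' v ^ 2 := pow_le_pow_left₀ (by positivity) h3 2
      linarith
    intro a b hab u w h1 h2
    rcases lt_or_gt_of_ne hab with h | h
    · exact hlt2 a b h u w h1 h2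
    · have := hlt2 b a h w u h2 h1
      have e : ip (w : E) (u : E) = ip (u : E) (w : E) := by rw [ip, real_inner_comm]
      rwa [e] at this

end Pool.Agent.H23.DR
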