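import Pool.Agent.H23.DR.Wnl

/-!
# Module Cover (about 90 lines)

PROOF. Let `ι = {P : Set S2 // ∃ v : S2, ip x v = 0 ∧ P = Pl v \ pm x}`. Different elements are disjoint
(`Pl_inter`), so `{P : ι | 0 < μ P}` is countable (`Measure.countable_meas_pos_of_disjoint_iUnion`). Let
`q ∈ Z`. Either `q` is in the null set of `wnl`, or `0 < μ ({u | Cop x q u} \ pm x)`; with a unit normal
`v` of `x, q` (`perp_two`) `{u | Cop x q u} = Pl v` (`cop_iff`; `|ip x q| < 1` because `q ∈ WW x`), so
`q ∈ Z ∩ Pl v` with `Pl v \ pm x` charged. So `Z` is contained in the union of a null set and of countably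
many null sets `Z ∩ Pl v` (`measure_biUnion_null_iff`).
-/

namespace Pool.Agent.H23.DR

open H47.DR MeasureTheory Filter Topology

private theorem Cover_pm (x q : S2) (hq : q ∈ WW x) : q ∉ pm x := by
  intro h
  have h1 : |ip (x : E) (q : E)| < 1 := hq.2
  have h2 := ip_self_sph x
  rcases h with h | h
  · subst h
    rw [h2, abs_one] at h1
    exact lt_irrefl _ h1
  · have h' : q = -x := h
    subst h'
    have h3 : ip (x : E) ((-x : S2) : E) = -ip (x : E) (x : E) := by
      simp only [ip, coe_neg_sphere, inner_neg_right]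
    rw [h3, h2, abs_neg, abs_one] at h1
    exact lt_irrefl _ h1

theorem cover {s : SeqG} {μ : Measure S2} {PP : Measure (S2 × S2 × S2)} (h : LimD s μ PP)
    (x : S2) (hx : 0 < μ (pm x)) (Z : Set S2) (hZ : Z ⊆ WW x)
    (h0 : ∀ v : S2, ip x v = 0 → μ (Z ∩ Pl v) = 0) : μ Z = 0 := by
  classical
  have hpr := h.pr
  have hnull := wnl h x hx
  set J : Set {P : Set S2 // ∃ v : S2, ip x v = 0 ∧ P = Pl v \ pm x} :=
    {i | 0 < μ i.1} with hJ
  have hJc : J.Countable := by
    apply Measure.countable_meas_pos_of_disjoint_iUnion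
      (As := fun i : {P : Set S2 // ∃ v : S2, ip x v = 0 ∧ P = Pl v \ pm x} => i.1)
    · rintro ⟨P, v, hv, rfl⟩
      exact (isClosed_Pl v).measurableSet.diff (isClosed_pm x).measurableSet
    · rintro ⟨P, v, hv, rfl⟩ ⟨P', v', hv', rfl⟩ hne
      rw [Function.onFun, Set.disjoint_left]
      rintro u ⟨hu1, hu2⟩ ⟨hu3, hu4⟩
      have hne' : Pl v ≠ Pl v' := by
        intro he
        apply hne
        apply Subtype.ext
        change Pl v \ pm x = Pl v' \ pm x
        rw [he]
      exact hu2 (Pl_inter x v v' u hv hv' hne' hu1 hu3)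
  have hsub : Z ⊆ {q : S2 | q ∈ WW x ∧ μ ({u : S2 | Cop x q u} \ pm x) = 0} ∪
      ⋃ i ∈ J, (Z ∩ i.1) := by
    intro q hq
    by_cases hq0 : μ ({u : S2 | Cop x q u} \ pm x) = 0
    · exact Or.inl ⟨hZ hq, hq0⟩
    · right
      obtain ⟨v, hv, hv1, hv2⟩ := perp_two (x : E) (q : E)
      set v' : S2 := ⟨v, by simpa using hv⟩ with hv'
      have a1 : ip (x : E) (v' : E) = 0 := by
        rw [ip, real_inner_comm]; exact hv1
      have a2 : ip (q : E) (v' : E) = 0 := by
        rw [ip, real_inner_comm]; exact hv2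
      have hset : {u : S2 | Cop x q u} = Pl v' := by
        ext u
        exact cop_iff x q v' (hZ hq).2 a1 a2 u
      rw [hset] at hq0
      rw [Set.mem_iUnion₂]
      refine ⟨⟨Pl v' \ pm x, v', a1, rfl⟩, pos_iff_ne_zero.2 hq0, hq, a2, Cover_pm x q (hZ hq)⟩
  refine measure_mono_null hsub (measure_union_null hnull ?_)
  rw [measure_biUnion_null_iff hJc]
  rintro ⟨P, v, hv, rfl⟩ _
  have hsub2 : Z ∩ (Pl v \ pm x) ⊆ Z ∩ Pl v := fun u hu => ⟨hu.1, hu.2.1⟩
  exact measure_mono_null hsub2 (h0 v hv)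

end Pool.Agent.H23.DR
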