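import Pool.Agent.H23.DR.Sc2

/-!
# Module Dich (about 130 lines)

PROOF. Call `y ∈ Pl v` charged if `0 < μ ({u | c < |ip u y|} ∩ Pl v)` for all `c < 1`. (S) Every measurable
`R ⊆ Pl v` with `μ R > 0` contains a charged point: `exists_mem_forall_mem_nhdsWithin_pos_measure` gives
`y ∈ R` all of whose neighbourhoods `O` in `R` have `μ O > 0`, and `{u | c < |ip u y|}` is an open
neighbourhood of `y`. `y1` charged in `Pl v`. If `μ (Pl v \ pm y1) = 0`, then
`BL a b = μ(pm y1) ip a y1 * ip b y1` for all `a, b`, and for `f ∈ Pl v` orthogonal to `y1`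
(`exists_third`) `Scal` gives `0 = BL f f = μ(Pl v)/2`, impossible. So there is a charged
`y2 ∈ Pl v \ pm y1`, `|ip y1 y2| < 1` (`eq_or_neg`). If `μ (Pl v \ (pm y1 ∪ pm y2)) > 0` there is a charged
`y3` in this set: right alternative. Otherwise
`BL a b = m1 ip a y1 * ip b y1 + m2 ip a y2 * ip b y2` with `m_i = μ (pm y_i)`
(integral over `pm y1 ∪ pm y2`, disjoint). `Scal` for `a = b = f` orthogonal to `y1`:
`μ(Pl v)/2 = m2 ip f y2 ^ 2`; for `a = f`, `b = y1`: `0 = m2 ip f y2 * ip y1 y2`, so `ip y1 y2 = 0`,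
so `y2 = ± f`, `ip f y2 ^ 2 = 1`, `m2 = μ(Pl v)/2`, and `m1 = μ(Pl v)/2` the same.
-/

namespace Pool.Agent.H23.DR

open H47.DR MeasureTheory Filter Topology

private theorem Dich_charged (μ : Measure S2) (v : S2) (R : Set S2) (hR : R ⊆ Pl v)
    (h : μ R ≠ 0) : ∃ y ∈ R, ∀ c : ℝ, c < 1 → 0 < μ ({u : S2 | c < |ip u y|} ∩ Pl v) := by
  obtain ⟨y, hy, hpos⟩ := exists_mem_forall_mem_nhdsWithin_pos_measure h
  refine ⟨y, hy, fun c hc => ?_⟩
  have hcont : Continuous fun u : S2 => |ip u y| := by fun_prop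
  have hopen : IsOpen {u : S2 | c < |ip u y|} := isOpen_lt continuous_const hcont
  have hmem : y ∈ {u : S2 | c < |ip u y|} := by
    have h1 : |ip y y| = 1 := by rw [ip_self_sph y, abs_one]
    change c < |ip y y|
    rw [h1]; exact hc
  have h2 : {u : S2 | c < |ip u y|} ∩ R ∈ 𝓝[R] y :=
    Filter.inter_mem (mem_nhdsWithin_of_mem_nhds (hopen.mem_nhds hmem)) self_mem_nhdsWithin
  exact lt_of_lt_of_le (hpos _ h2) (measure_mono (Set.inter_subset_inter_right _ hR))

private theorem Dich_int (μ : Measure S2) [IsProbabilityMeasure μ] (a b : E) :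
    Integrable (fun u : S2 => ip u a * ip u b) μ := by
  have hc : Continuous fun u : S2 => ip u a * ip u b := by fun_prop
  exact hc.integrable_of_hasCompactSupport (HasCompactSupport.of_compactSpace _)

private theorem Dich_pm (μ : Measure S2) [IsProbabilityMeasure μ] (y : S2) (a b : E) :
    ∫ u in pm y, ip u a * ip u b ∂μ = μ.real (pm y) * (ip a y * ip b y) := by
  have h1 : ∀ u ∈ pm y, ip u a * ip u b = ip a y * ip b y := by
    intro u hu
    rcases hu with hu | hu
    · subst hu
      simp only [ip]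
      rw [real_inner_comm, real_inner_comm b]
    · have hu' : u = -y := hu
      subst hu'
      have e1 : ((-y : S2) : E) = -(y : E) := rfl
      simp only [ip, e1]
      rw [inner_neg_left, inner_neg_left, real_inner_comm, real_inner_comm b]
      ring
  rw [setIntegral_congr_fun (isClosed_pm y).measurableSet h1, setIntegral_const, smul_eq_mul]

private theorem Dich_ae (μ : Measure S2) (v : S2) (S : Set S2) (hS : S ⊆ Pl v)
    (h : μ (Pl v \ S) = 0) (a b : E) :
    BL μ v a b = ∫ u in S, ip u a * ip u b ∂μ := by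
  unfold BL
  refine setIntegral_congr_set ?_
  have h1 : S ≤ᵐ[μ] Pl v := Filter.Eventually.of_forall (fun x hx => hS hx)
  have h2 : Pl v ≤ᵐ[μ] S := by
    have h3 : ∀ᵐ x ∂μ, x ∉ Pl v \ S := measure_eq_zero_iff_ae_notMem.1 h
    filter_upwards [h3] with x hx
    intro hxv
    by_contra hc
    exact hx ⟨hxv, hc⟩
  exact h2.antisymm h1

private theorem Dich_pm_sub (v y : S2) (hy : y ∈ Pl v) : pm y ⊆ Pl v := by
  intro u hu
  have hy' : ip y v = 0 := hy
  rcases hu with hu | hu
  · subst hu; exact hy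
  · have hu' : u = -y := hu
    subst hu'
    change ip ((-y : S2) : E) v = 0
    have e1 : ((-y : S2) : E) = -(y : E) := rfl
    rw [e1]
    simp only [ip] at hy' ⊢
    rw [inner_neg_left, hy', neg_zero]

private theorem Dich_disj (y z : S2) (h : z ∉ pm y) : Disjoint (pm y) (pm z) := by
  rw [Set.disjoint_left]
  intro u hu hu'
  apply h
  rcases hu' with hz | hz
  · have hz' : u = z := hz
    rw [← hz']; exact hu
  · have hz' : u = -z := hz
    have h1 : z = -u := by rw [hz', neg_neg]
    rcases hu with hy | hy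
    · have hy' : u = y := hy
      right
      change z = -y
      rw [h1, hy']
    · have hy' : u = -y := hy
      left
      change z = y
      rw [h1, hy', neg_neg]

private theorem Dich_lt (y z : S2) (h : z ∉ pm y) : |ip y z| < 1 := by
  by_contra hc
  push Not at hc
  apply h
  rcases eq_or_neg y z hc with h1 | h1
  · left; exact h1
  · right; exact h1

private theorem Dich_comm (x y : E) : ip x y = ip y x := by
  simp only [ip]; exact real_inner_comm y x

theorem dich (μ : Measure S2) [IsProbabilityMeasure μ] (v : S2) (hv : 0 < μ (Pl v))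
    (hS : Scal μ v) :
    (∃ y z : S2, y ∈ Pl v ∧ z ∈ Pl v ∧ ip y z = 0 ∧ μ.real (pm y) = μ.real (Pl v) / 2 ∧
      μ.real (pm z) = μ.real (Pl v) / 2) ∨ ∃ y : Fin 3 → S2, Three μ v y := by
  have hM : 0 < μ.real (Pl v) := ENNReal.toReal_pos hv.ne' (measure_ne_top _ _)
  obtain ⟨y1, hy1, hc1⟩ := Dich_charged μ v (Pl v) (subset_refl _) hv.ne'
  have hy1' : ip y1 v = 0 := hy1
  obtain ⟨f, hf1, hf2, hf3, hf4, -⟩ := exists_third (y1 : E) (v : E) (norm_sph y1) (norm_sph v) hy1'
  have hff : ip f f = 1 := by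
    simp only [ip]
    rw [real_inner_self_eq_norm_sq, hf1]; norm_num
  have hfv : ip f v = 0 := by rw [Dich_comm]; exact hf3
  have hfy : ip f y1 = 0 := by rw [Dich_comm]; exact hf2
  have hBff : BL μ v f f = μ.real (Pl v) / 2 := by rw [hS f f hfv, hff, mul_one]
  -- a second direction
  have h2 : μ (Pl v \ pm y1) ≠ 0 := by
    intro h0
    have h3 := Dich_ae μ v (pm y1) (Dich_pm_sub v y1 hy1) h0 f f
    rw [Dich_pm, hfy, hBff] at h3
    linarith
  obtain ⟨y2, hy2, hc2⟩ := Dich_charged μ v (Pl v \ pm y1) Set.sdiff_subset h2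
  have h12 : |ip y1 y2| < 1 := Dich_lt y1 y2 hy2.2
  by_cases h3 : μ (Pl v \ (pm y1 ∪ pm y2)) = 0
  · left
    have hsub : pm y1 ∪ pm y2 ⊆ Pl v :=
      Set.union_subset (Dich_pm_sub v y1 hy1) (Dich_pm_sub v y2 hy2.1)
    have hB : ∀ a b : E, BL μ v a b = μ.real (pm y1) * (ip a y1 * ip b y1) +
        μ.real (pm y2) * (ip a y2 * ip b y2) := by
      intro a b
      rw [Dich_ae μ v _ hsub h3 a b,
        setIntegral_union (Dich_disj y1 y2 hy2.2) (isClosed_pm y2).measurableSet
          (Dich_int μ a b).integrableOn (Dich_int μ a b).integrableOn, Dich_pm, Dich_pm]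
    have e1 := hB f f
    rw [hBff, hfy] at e1
    have e2 := hB f (y1 : E)
    rw [hS f y1 hfv, hfy] at e2
    have e3 := hB (y1 : E) (y1 : E)
    rw [hS y1 y1 hy1', ip_self_sph y1] at e3
    have hm2 : μ.real (pm y2) ≠ 0 := by
      intro h0; rw [h0] at e1; linarith
    have hf2' : ip f y2 ≠ 0 := by
      intro h0; rw [h0] at e1; linarith
    have h12' : ip y1 y2 = 0 := by
      have e4 : μ.real (pm y2) * (ip f y2 * ip y1 y2) = 0 := by linarith
      rcases mul_eq_zero.1 e4 with h | h
      · exact absurd h hm2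
      · rcases mul_eq_zero.1 h with h | h
        · exact absurd h hf2'
        · exact h
    have e5 := hf4 (y2 : E) (y2 : E)
    have hy2v : ip y2 v = 0 := hy2.1
    rw [ip_self_sph y2, hy2v, Dich_comm (y2 : E) (y1 : E), h12', Dich_comm (y2 : E) f] at e5
    rw [h12'] at e3
    have e6 : ip f y2 * ip f y2 = 1 := by linarith
    rw [e6] at e1
    exact ⟨y1, y2, hy1, hy2.1, h12', by linarith, by linarith⟩
  · right
    obtain ⟨y3, hy3, hc3⟩ := Dich_charged μ v _ Set.sdiff_subset h3
    have h13 : |ip y1 y3| < 1 := Dich_lt y1 y3 (fun h => hy3.2 (Or.inl h))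
    have h23 : |ip y2 y3| < 1 := Dich_lt y2 y3 (fun h => hy3.2 (Or.inr h))
    refine ⟨![y1, y2, y3], ?_, ?_, ?_⟩
    · intro a
      fin_cases a
      · exact hy1
      · exact hy2.1
      · exact hy3.1
    · intro a b hab
      fin_cases a <;> fin_cases b
      · exact absurd rfl hab
      · exact h12
      · exact h13
      · change |ip y2 y1| < 1
        rw [Dich_comm]; exact h12
      · exact absurd rfl hab
      · exact h23
      · change |ip y3 y1| < 1
        rw [Dich_comm]; exact h13
      · change |ip y3 y2| < 1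
        rw [Dich_comm]; exact h23
      · exact absurd rfl hab
    · intro a
      fin_cases a
      · exact hc1
      · exact hc2
      · exact hc3

end Pool.Agent.H23.DR
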