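import Pool.Agent.H23.DR.Geo

/-!
# Module Eig (about 130 lines): almost all points of a great circle are eigenvectors (3.1)

PROOF. Let `L = Pl v`, `M y = ∫ u in L, ip u y • u`, so `M` is continuous on the sphere and
`ip (M y) z = BL μ v y z`.
Apply `bal` to `V (p, ν) = cof (M p) p` if `p ∈ L` and `ν = v ∨ ν = -v`, and `0` otherwise (bounded,
measurable; `cof_perp`). For `PP`-almost every `x = (p, k, ν)`, `ν` is orthogonal to `p` and `k`
(`perp`), so: if `p ∈ L` and `ν = ± v` then `k ∈ L`; if `p, k ∈ L` and not `ν = ± v` then `|ip p k| = 1` by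
`Pl_pm`, `k = ± p` (`eq_or_neg`) and `ip (cof (M p) p) k = 0`. So almost everywhere
`ip p k * ip (V (p, ν)) k = 1_L(p) 1_L(k) ip p k * ip (cof (M p) p) k =: G (p, k)`. By `marg`
(`integral_map`) and Fubini (`integral_prod`)
`0 = ∫∫ G dμ dμ = ∫_{p ∈ L} BL μ v p (cof (M p) p) = ∫_{p ∈ L} ip (M p) (cof (M p) p)
 = ∫_{p ∈ L} ‖cof (M p) p‖ ^ 2`, so `cof (M p) p = 0` for almost all `p ∈ L`, and then
`BL μ v p w = ip (M p) w = ip (M p) p * ip p w = 0` if `ip p w = 0`.
-/

namespace Pool.Agent.H23.DR

open H47.DR MeasureTheory Filter Topology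

private noncomputable def eigM (μ : Measure S2) (v : S2) (y : S2) : E :=
  ∫ u in Pl v, ip (u : E) (y : E) • (u : E) ∂μ

private theorem eig_norm (u y : S2) : ‖ip (u : E) (y : E) • (u : E)‖ ≤ 1 := by
  rw [norm_smul, norm_sph, mul_one, Real.norm_eq_abs]
  exact abs_ip_le u y

private theorem eigM_int (μ : Measure S2) [IsFiniteMeasure μ] (y : S2) (s : Set S2) :
    Integrable (fun u : S2 => ip (u : E) (y : E) • (u : E)) (μ.restrict s) := by
  refine Integrable.mono' (integrable_const (1 : ℝ)) ?_ ?_
  · have : Continuous fun u : S2 => ip (u : E) (y : E) • (u : E) := by fun_prop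
    exact this.aestronglyMeasurable
  · exact Filter.Eventually.of_forall fun u => eig_norm u y

private theorem eigM_ip (μ : Measure S2) [IsFiniteMeasure μ] (v y : S2) (z : E) :
    ip (eigM μ v y) z = BL μ v y z := by
  have h := integral_inner (𝕜 := ℝ) (eigM_int μ y (Pl v)) z
  rw [ip, real_inner_comm, eigM, ← h, BL]
  refine integral_congr_ae (Filter.Eventually.of_forall fun u => ?_)
  simp only [ip]
  rw [real_inner_smul_right, real_inner_comm z (u : E)]

private theorem eigM_cont (μ : Measure S2) [IsFiniteMeasure μ] (v : S2) :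
    Continuous fun y : S2 => eigM μ v y := by
  unfold eigM
  refine continuous_of_dominated (bound := fun _ => (1 : ℝ)) ?_ ?_ (integrable_const _) ?_
  · intro y
    exact (eigM_int μ y (Pl v)).aestronglyMeasurable
  · intro y
    exact Filter.Eventually.of_forall fun u => eig_norm u y
  · refine Filter.Eventually.of_forall fun u => ?_
    fun_prop

private theorem eigM_norm (μ : Measure S2) [IsProbabilityMeasure μ] (v y : S2) :
    ‖eigM μ v y‖ ≤ 1 := by
  unfold eigM
  have h := norm_integral_le_of_norm_le_const (μ := μ.restrict (Pl v))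
    (f := fun u : S2 => ip (u : E) (y : E) • (u : E)) (C := 1)
    (Filter.Eventually.of_forall fun u => eig_norm u y)
  refine h.trans ?_
  rw [one_mul, Measure.real, Measure.restrict_apply MeasurableSet.univ, Set.univ_inter]
  have := prob_le_one (μ := μ) (s := Pl v)
  exact ENNReal.toReal_le_of_le_ofReal zero_le_one (by simpa using this)

theorem eig {s : SeqG} {μ : Measure S2} {PP : Measure (S2 × S2 × S2)} (h : LimD s μ PP) (v : S2) :
    ∀ᵐ p ∂μ, p ∈ Pl v → ∀ w : E, ip p w = 0 → BL μ v p w = 0 := by
  classical
  have := h.pr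
  have := h.prP
  set c : S2 → E := fun p => cof (eigM μ v p) (p : E) with hc
  have hcont : Continuous c := by
    have h1 := eigM_cont μ v
    simp only [hc, cof]
    fun_prop
  have hcb : ∀ p, ‖c p‖ ≤ 2 := fun p => by
    refine (cof_norm (eigM μ v p) p).trans ?_
    have := eigM_norm μ v p
    linarith
  have hcp : ∀ p : S2, ip (c p) (p : E) = 0 := fun p => cof_perp _ p
  have hLm : MeasurableSet (Pl v) := (isClosed_Pl v).measurableSet
  -- the test field
  set V : S2 × S2 → E := fun x => if x.1 ∈ Pl v ∧ (x.2 = v ∨ x.2 = -v) then c x.1 else 0 with hV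
  have hset : MeasurableSet {x : S2 × S2 | x.1 ∈ Pl v ∧ (x.2 = v ∨ x.2 = -v)} := by
    have a1 : MeasurableSet {x : S2 × S2 | x.1 ∈ Pl v} := measurable_fst hLm
    have a2 : MeasurableSet {x : S2 × S2 | x.2 = v ∨ x.2 = -v} :=
      measurable_snd (isClosed_pm v).measurableSet
    exact a1.inter a2
  have hVm : Measurable V :=
    Measurable.ite hset (hcont.measurable.comp measurable_fst) measurable_const
  have hbal := h.bal V hVm ⟨2, fun y => by
    simp only [hV]
    split_ifs
    · exact hcb _
    · simp⟩ (fun p ν => by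
    simp only [hV]
    split_ifs
    · exact hcp p
    · simp [ip])
  -- the kernel on pairs
  set G : S2 × S2 → ℝ := fun x =>
    if x.1 ∈ Pl v ∧ x.2 ∈ Pl v then ip (x.1 : E) (x.2 : E) * ip (c x.1) (x.2 : E) else 0 with hG
  have hae : (fun x : S2 × S2 × S2 => ip (x.1 : E) (x.2.1 : E) * ip (V (x.1, x.2.2)) (x.2.1 : E))
      =ᵐ[PP] fun x => G (x.1, x.2.1) := by
    filter_upwards [h.perp] with x hx
    obtain ⟨p, k, ν⟩ := x
    simp only at hx
    obtain ⟨hx1, hx2⟩ := hx
    simp only [hV, hG]
    by_cases hp : p ∈ Pl v
    · by_cases hν : ν = v ∨ ν = -v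
      · have hk : k ∈ Pl v := by
          change ip (k : E) (v : E) = 0
          rcases hν with hν | hν
          · rw [ip, real_inner_comm, ← hν]; exact hx2
          · have : ip (ν : E) (k : E) = - ip (k : E) (v : E) := by
              rw [hν]
              simp only [ip, coe_neg_sphere, inner_neg_left]
              rw [real_inner_comm]
            rw [this] at hx2
            linarith
        rw [if_pos ⟨hp, hν⟩, if_pos ⟨hp, hk⟩]
      · rw [if_neg (fun hh => hν hh.2)]
        by_cases hk : k ∈ Pl v
        · rw [if_pos ⟨hp, hk⟩]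
          have hp' : ip (v : E) (p : E) = 0 := by rw [ip, real_inner_comm]; exact hp
          have hk' : ip (v : E) (k : E) = 0 := by rw [ip, real_inner_comm]; exact hk
          have h1 : 1 ≤ |ip (p : E) (k : E)| := by
            by_contra hlt
            exact hν (Pl_pm p k v ν (not_le.mp hlt) hp' hk' hx1 hx2)
          have h2 : ip (c p) (k : E) = 0 := by
            rcases eq_or_neg p k h1 with h3 | h3
            · rw [h3]; exact hcp p
            · rw [h3]
              simp only [ip, coe_neg_sphere, inner_neg_right, neg_eq_zero]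
              exact hcp p
          rw [h2]
          simp [ip]
        · rw [if_neg (fun hh => hk hh.2)]
          simp [ip]
    · rw [if_neg (fun hh => hp hh.1), if_neg (fun hh => hp hh.1)]
      simp [ip]
  have hGset : MeasurableSet {x : S2 × S2 | x.1 ∈ Pl v ∧ x.2 ∈ Pl v} :=
    (measurable_fst hLm).inter (measurable_snd hLm)
  have hGm : Measurable G := by
    refine Measurable.ite hGset ?_ measurable_const
    have : Continuous fun x : S2 × S2 => ip (x.1 : E) (x.2 : E) * ip (c x.1) (x.2 : E) := by
      fun_prop
    exact this.measurable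
  have hGb : ∀ x, ‖G x‖ ≤ 2 := by
    intro x
    simp only [hG]
    split_ifs
    · rw [norm_mul, Real.norm_eq_abs, Real.norm_eq_abs]
      have a1 := abs_ip_le x.1 x.2
      have a2 : |ip (c x.1) (x.2 : E)| ≤ 2 := by
        refine (abs_real_inner_le_norm _ _).trans ?_
        rw [norm_sph, mul_one]
        exact hcb _
      calc |ip (x.1 : E) (x.2 : E)| * |ip (c x.1) (x.2 : E)| ≤ 1 * 2 :=
            mul_le_mul a1 a2 (abs_nonneg _) zero_le_one
        _ = 2 := by norm_num
    · simp
  have hGi : Integrable G (μ.prod μ) :=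
    Integrable.mono' (integrable_const (2 : ℝ)) hGm.aestronglyMeasurable
      (Filter.Eventually.of_forall hGb)
  have h0 : ∫ x, G x ∂(μ.prod μ) = 0 := by
    rw [← h.marg, integral_map (by fun_prop) hGm.aestronglyMeasurable, ← hbal]
    exact (integral_congr_ae hae).symm
  rw [integral_prod G hGi] at h0
  have hin : ∀ p : S2, ∫ k, G (p, k) ∂μ = (Pl v).indicator (fun p => ‖c p‖ ^ 2) p := by
    intro p
    by_cases hp : p ∈ Pl v
    · rw [Set.indicator_of_mem hp]
      have h1 : (fun k : S2 => G (p, k)) =
          (Pl v).indicator (fun k : S2 => ip (k : E) (p : E) * ip (k : E) (c p)) := by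
        funext k
        simp only [hG]
        by_cases hk : k ∈ Pl v
        · rw [if_pos ⟨hp, hk⟩, Set.indicator_of_mem hk]
          simp only [ip]
          rw [real_inner_comm (k : E) (p : E), real_inner_comm (k : E) (c p)]
        · rw [if_neg (fun hh => hk hh.2), Set.indicator_of_notMem hk]
      rw [h1, integral_indicator hLm]
      change BL μ v p (c p) = _
      rw [← eigM_ip]
      have h2 : eigM μ v p = c p + ip (eigM μ v p) (p : E) • (p : E) := by
        simp only [hc, cof]
        abel
      have h3 : ip (eigM μ v p) (c p) = ip (c p) (c p) := by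
        conv_lhs => rw [h2]
        simp only [ip]
        rw [inner_add_left, real_inner_smul_left]
        have := hcp p
        simp only [ip] at this
        rw [real_inner_comm, real_inner_comm (c p) (p : E), this]
        ring
      rw [h3, ip, real_inner_self_eq_norm_sq]
    · rw [Set.indicator_of_notMem hp]
      have : (fun k : S2 => G (p, k)) = fun _ => 0 := by
        funext k
        simp only [hG]
        rw [if_neg (fun hh => hp hh.1)]
      rw [this, integral_zero]
  simp_rw [hin] at h0
  have hnn : 0 ≤ (Pl v).indicator (fun p : S2 => ‖c p‖ ^ 2) :=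
    Set.indicator_nonneg (fun p _ => by positivity)
  have hi : Integrable ((Pl v).indicator (fun p : S2 => ‖c p‖ ^ 2)) μ := by
    refine Integrable.indicator ?_ hLm
    refine Integrable.mono' (integrable_const (4 : ℝ)) ?_ ?_
    · have : Continuous fun p : S2 => ‖c p‖ ^ 2 := by fun_prop
      exact this.aestronglyMeasurable
    · refine Filter.Eventually.of_forall fun p => ?_
      rw [Real.norm_eq_abs, abs_of_nonneg (by positivity)]
      have := hcb p
      have h5 := norm_nonneg (c p)
      nlinarith
  have hz := (integral_eq_zero_iff_of_nonneg hnn hi).mp h0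
  filter_upwards [hz] with p hp hpL w hw
  rw [Set.indicator_of_mem hpL] at hp
  have hc0 : c p = 0 := by
    simpa using hp
  rw [← eigM_ip]
  have h2 : eigM μ v p = ip (eigM μ v p) (p : E) • (p : E) := by
    have : c p = eigM μ v p - ip (eigM μ v p) (p : E) • (p : E) := rfl
    rw [hc0] at this
    exact (sub_eq_zero.mp this.symm)
  rw [h2]
  simp only [ip] at hw ⊢
  rw [real_inner_smul_left, hw, mul_zero]

end Pool.Agent.H23.DR
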