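import Mathlib

/-!
# Empirical measures and their ultralimits
-/

namespace Pool.Agent.H23.DR

open MeasureTheory Filter Topology
open scoped ENNReal

section
variable {ι X : Type*} [MeasurableSpace X]

/-- The empirical measure of a finite family. -/
noncomputable def empM (s : Finset ι) (f : ι → X) : Measure X :=
  (s.card : ℝ≥0∞)⁻¹ • ∑ i ∈ s, Measure.dirac (f i)

theorem empM_prob {s : Finset ι} (hs : s.Nonempty) (f : ι → X) :
    IsProbabilityMeasure (empM s f) := by
  constructor
  have h0 : (s.card : ℝ≥0∞) ≠ 0 := by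
    simp [hs.ne_empty]
  simp only [empM, Measure.smul_apply, Measure.finsetSum_apply, measure_univ, Finset.sum_const,
    nsmul_eq_mul, mul_one, smul_eq_mul]
  exact ENNReal.inv_mul_cancel h0 (ENNReal.natCast_ne_top _)

theorem integral_empM {s : Finset ι} (f : ι → X) {g : X → ℝ} (hg : Measurable g) :
    ∫ x, g x ∂(empM s f) = (s.card : ℝ)⁻¹ * ∑ i ∈ s, g (f i) := by
  rw [empM, integral_smul_measure, integral_finsetSum_measure]
  · congr 1
    · simp
    · refine Finset.sum_congr rfl fun i _ => ?_
      exact integral_dirac' g (f i) hg.stronglyMeasurable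
  · intro i _
    exact integrable_dirac' hg.stronglyMeasurable (by simp)

open Classical in
theorem empM_apply {s : Finset ι} (f : ι → X) {B : Set X} (hB : MeasurableSet B) :
    empM s f B = (s.card : ℝ≥0∞)⁻¹ * ((s.filter fun i => f i ∈ B).card : ℝ≥0∞) := by
  rw [empM, Measure.smul_apply, Measure.finsetSum_apply, smul_eq_mul]
  congr 1
  rw [Finset.card_filter]
  push_cast
  refine Finset.sum_congr rfl fun i _ => ?_
  rw [Measure.dirac_apply' _ hB, Set.indicator_apply]
  simp

theorem map_empM {Y : Type*} [MeasurableSpace Y] {s : Finset ι} (f : ι → X) {g : X → Y}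
    (hg : Measurable g) : (empM s f).map g = empM s (g ∘ f) := by
  ext B hB
  classical
  rw [Measure.map_apply hg hB, empM_apply _ (hg hB), empM_apply _ hB]
  rfl

theorem prod_empM {κ Y : Type*} [MeasurableSpace Y] {s : Finset ι} {t : Finset κ}
    (hs : s.Nonempty) (ht : t.Nonempty) (f : ι → X)
    (g : κ → Y) : (empM s f).prod (empM t g) =
      empM (s ×ˢ t) (fun i : ι × κ => ((f i.1, g i.2) : X × Y)) := by
  have := empM_prob hs f
  have := empM_prob ht g
  refine Measure.prod_eq fun B C hB hC => ?_
  classical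
  rw [empM_apply _ (hB.prod hC), empM_apply _ hB, empM_apply _ hC]
  have h1 : ∀ inst : DecidablePred fun i : ι × κ => (f i.1, g i.2) ∈ B ×ˢ C,
      (@Finset.filter _ _ inst (s ×ˢ t)) =
      (s.filter fun i => f i ∈ B) ×ˢ (t.filter fun i => g i ∈ C) := by
    intro inst
    ext i; simp only [Finset.mem_filter, Finset.mem_product, Set.mem_prod]; tauto
  rw [h1, Finset.card_product, Finset.card_product]
  push_cast
  rw [ENNReal.mul_inv (Or.inr (ENNReal.natCast_ne_top _)) (Or.inl (ENNReal.natCast_ne_top _))]
  ring

end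

/-- every sequence of probability measures on a compact metric space converges along the
hyperfilter -/
theorem exists_ulim {X : Type*} [TopologicalSpace X] [MeasurableSpace X] [BorelSpace X]
    [CompactSpace X] [T2Space X] [SecondCountableTopology X]
    (P : ℕ → ProbabilityMeasure X) :
    ∃ Q : ProbabilityMeasure X, Tendsto P (hyperfilter ℕ : Filter ℕ) (𝓝 Q) := by
  obtain ⟨Q, -, hQ⟩ := isCompact_univ.ultrafilter_le_nhds ((hyperfilter ℕ).map P) (by simp)
  exact ⟨Q, hQ⟩

end Pool.Agent.H23.DR
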