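import Pool.Agent.H23.DR.Prp
import Pool.Agent.H47.DR.TauSum

/-!
# Module Nrm (about 100 lines)

Normals of the lines, and the balance summed over all pairs.

PROOF. `exists_nrm`: for `l ∈ L` choose a unit normal `μ l` (`C.nu`), put `w i k = μ (C.ln i k)` for
`i ≠ k` and, for `i = k`, a unit vector orthogonal to `u i` (`perp_two`). `bal_sum`: the terms `i = k` are zero
(`ip V (u i) = 0`). By `LS.sum_pairs` (H47) with
`f i j l = ip (u i) (u j) * ip (V (us i, μ l)) (u j)` the sum is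
`∑_l ∑_{i ∈ l} ∑_{j ∈ l, j ≠ i} f i j l`, and the term `j = i` is zero, so each inner sum is at most
`B sqrt (T l)` (`abs_sum_perp`); `sum_card_sqrt` (H47, TauSum).
-/

namespace Pool.Agent.H23.DR

open H47.DR Finset

variable {n : ℕ}

/-- Unit normals of the lines through two points, with the balance summed over all pairs. -/
theorem exists_nrm (C : Cfg n) : ∃ w : Fin n → Fin n → S2,
    (∀ i k, ip (w i k) (C.u i) = 0 ∧ ip (w i k) (C.u k) = 0) ∧
    ∀ (ε : ℝ), 0 ≤ ε → Good C ε → ∀ (V : S2 × S2 → E) (B : ℝ), (∀ y, ‖V y‖ ≤ B) →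
      (∀ p ν : S2, ip (V (p, ν)) p = 0) →
      |∑ i, ∑ k, ip (C.u i) (C.u k) * ip (V (C.us i, w i k)) (C.u k)|
        ≤ B * (2 * Real.sqrt ε * (n : ℝ) ^ 2) := by
  classical
  have h1 : ∀ l : Finset (Fin n), ∃ ν : S2, l ∈ C.L → ∀ i, i ∈ l ↔ ip (C.u i) ν = 0 := by
    intro l
    by_cases hl : l ∈ C.L
    · obtain ⟨ν, hν, h⟩ := C.nu l hl
      exact ⟨⟨ν, by simp [hν]⟩, fun _ => h⟩
    · obtain ⟨ν, hν, _⟩ := perp_two 0 0
      exact ⟨⟨ν, by simp [hν]⟩, fun h => absurd h hl⟩
  choose μ hμ using h1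
  have h2 : ∀ i : Fin n, ∃ ν : S2, ip ν (C.u i) = 0 := by
    intro i
    obtain ⟨ν, hν, h, _⟩ := perp_two (C.u i) 0
    exact ⟨⟨ν, by simp [hν]⟩, h⟩
  choose ρ hρ using h2
  refine ⟨fun i k => if i = k then ρ i else μ (C.ln i k), ?_, ?_⟩
  · intro i k
    by_cases hik : i = k
    · subst hik
      simp [hρ i]
    · simp only [hik, if_false]
      have h3 := C.ln_mem hik
      constructor
      · have := (hμ _ h3 i).1 (C.left_mem hik)
        rw [← this]; exact real_inner_comm _ _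
      · have := (hμ _ h3 k).1 (C.right_mem hik)
        rw [← this]; exact real_inner_comm _ _
  · intro ε hε hG V B hB hV
    have hB0 : 0 ≤ B := by
      obtain ⟨ν, hν, _⟩ := perp_two 0 0
      let y : S2 := ⟨ν, by simp [hν]⟩
      exact (norm_nonneg _).trans (hB (y, y))
    have e1 : ∀ i, ∑ k, ip (C.u i) (C.u k) *
        ip (V (C.us i, if i = k then ρ i else μ (C.ln i k))) (C.u k) =
        ∑ k ∈ univ.filter (fun k => k ≠ i),
          ip (C.u i) (C.u k) * ip (V (C.us i, μ (C.ln i k))) (C.u k) := by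
      intro i
      rw [← Finset.sum_filter_of_ne (p := fun k => k ≠ i)]
      · refine Finset.sum_congr rfl fun k hk => ?_
        have hk' : i ≠ k := fun h => (Finset.mem_filter.1 hk).2 h.symm
        rw [if_neg hk']
      · intro k _ hne hki
        apply hne
        subst hki
        have := hV (C.us k) (if k = k then ρ k else μ (C.ln k k))
        have h5 : ip (V (C.us k, if k = k then ρ k else μ (C.ln k k))) (C.u k) = 0 := this
        rw [h5, mul_zero]
    rw [Finset.sum_congr rfl fun i _ => e1 i]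
    have e2 := C.sum_pairs fun i j l =>
      ip (C.u i) (C.u j) * ip (V (C.us i, μ l)) (C.u j)
    rw [e2]
    have e3 : ∀ l ∈ C.L, ∀ i ∈ l, |∑ j ∈ l.filter (fun j => j ≠ i),
        ip (C.u i) (C.u j) * ip (V (C.us i, μ l)) (C.u j)| ≤ B * Real.sqrt (C.T l) := by
      intro l hl i hi
      rw [Finset.sum_filter_of_ne]
      · refine (abs_sum_perp C hl hi (V (C.us i, μ l)) (hV (C.us i) (μ l))).trans ?_
        exact mul_le_mul_of_nonneg_right (hB _) (Real.sqrt_nonneg _)
      · intro k _ hne hki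
        apply hne
        subst hki
        have h5 : ip (V (C.us k, μ l)) (C.u k) = 0 := hV (C.us k) (μ l)
        rw [h5, mul_zero]
    calc |∑ l ∈ C.L, ∑ i ∈ l, ∑ j ∈ l.filter (fun j => j ≠ i),
          ip (C.u i) (C.u j) * ip (V (C.us i, μ l)) (C.u j)|
        ≤ ∑ l ∈ C.L, |∑ i ∈ l, ∑ j ∈ l.filter (fun j => j ≠ i),
          ip (C.u i) (C.u j) * ip (V (C.us i, μ l)) (C.u j)| := Finset.abs_sum_le_sum_abs _ _
      _ ≤ ∑ l ∈ C.L, B * ((l.card : ℝ) * Real.sqrt (C.T l)) := by
          refine Finset.sum_le_sum fun l hl => ?_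
          refine (Finset.abs_sum_le_sum_abs _ _).trans ?_
          refine (Finset.sum_le_sum fun i hi => e3 l hl i hi).trans ?_
          rw [Finset.sum_const, nsmul_eq_mul]
          exact le_of_eq (by ring)
      _ = B * ∑ l ∈ C.L, (l.card : ℝ) * Real.sqrt (C.T l) := by rw [Finset.mul_sum]
      _ ≤ B * (2 * Real.sqrt ε * (n : ℝ) ^ 2) :=
          mul_le_mul_of_nonneg_left (sum_card_sqrt C ε hε hG) hB0

end Pool.Agent.H23.DR
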