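import Pool.Agent.H23.DR.Lim
import Pool.Agent.H23.DR.Nrm

/-!
# Module LimEx (about 200 lines)

The limit object exists.

PROOF. `0 < N m` because `1 ≤ ε n` (`g6`). With `w` from `exists_nrm` let
`P m = empM univ (fun q : Fin n × Fin n => (us q.1, us q.2, w q.1 q.2))` and
`Q m = empM univ (fun i => us i)` (module Emp: `empM_prob`, `integral_empM`, `empM_apply`,
`map_empM`, `prod_empM`, `exists_ulim`). `PP = lim P`, `μ = lim Q` (`exists_ulim`).
* `marg`: the map `x ↦ (x.1, x.2.1)` is continuous, so `P m` mapped converges to `PP` mapped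
  (`ProbabilityMeasure.tendsto_map_of_tendsto_of_continuous`); it is `Q m ⊗ Q m`
  (`map_empM`, `prod_empM`) which converges to `μ ⊗ μ` (`ProbabilityMeasure.continuous_prod`);
  limits are unique (`UU` is an ultrafilter, so `NeBot`).
* `perp`: the set `K = {x | ip x.2.2 x.1 = 0 ∧ ip x.2.2 x.2.1 = 0}` is closed and `P m K = 1`, so
  `PP K = 1` (`ProbabilityMeasure.limsup_measure_closed_le_of_tendsto`).
* `bal`: `bal_ext` and `bal_cont` (module Lim); the integral for `P m` is
  `1/n^2 ∑_i ∑_k ip (u i) (u k) * ip (V (us i, w i k)) (u k)` (`integral_empM`), at most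
  `2 B sqrt (1/(m+1))` (`exists_nrm`), and this tends to 0 along `UU ≤ atTop`
  (`Filter.hyperfilter_le_atTop` or `Nat.hyperfilter_le_atTop`).
* `cl`, `op`, `cl2`: `limsup_measure_closed_le_of_tendsto`, `le_liminf_measure_open_of_tendsto`
  with `empM_apply`; an eventually statement from limsup: `Filter.eventually_lt_of_limsup_lt`.
* `ct`: `ProbabilityMeasure.tendsto_iff_forall_integral_tendsto` and `integral_empM`.
* `iso`: by `ct` for `f u = ip u y ^ 2` and `g5` the limit is `‖y‖^2/3`.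
-/

namespace Pool.Agent.H23.DR

open H47.DR MeasureTheory Filter Topology
open scoped ENNReal

theorem UU_neBot : UU.NeBot := by
  unfold UU; infer_instance

theorem UU_le : UU ≤ atTop := by
  unfold UU; exact Nat.hyperfilter_le_atTop

theorem N_pos (s : SeqG) (m : ℕ) : 0 < s.N m := by
  have h := (s.good m).g6
  rcases Nat.eq_zero_or_pos (s.N m) with h0 | h0
  · rw [h0] at h
    norm_num at h
  · exact h0

open Classical in
private theorem clG {X : Type*} [TopologicalSpace X] [MeasurableSpace X] [BorelSpace X]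
    [HasOuterApproxClosed X] {ι : ℕ → Type} (S : ∀ m, Finset (ι m)) (hS : ∀ m, (S m).Nonempty)
    (f : ∀ m, ι m → X) (R : ℕ → ProbabilityMeasure X)
    (hR : ∀ m, (R m : Measure X) = empM (S m) (f m)) (M : ProbabilityMeasure X)
    (h : Tendsto R UU (𝓝 M)) {F : Set X} (hF : IsClosed F) {ε : ℝ} (hε : 0 < ε) :
    ∀ᶠ m in UU, (((S m).filter fun i => f m i ∈ F).card : ℝ) ≤
      ((M : Measure X).real F + ε) * (S m).card := by
  have h1 := ProbabilityMeasure.limsup_measure_closed_le_of_tendsto h hF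
  have h2 : (M : Measure X) F < (M : Measure X) F + ENNReal.ofReal ε :=
    ENNReal.lt_add_right (measure_ne_top _ _) (by simpa using hε)
  have h3 := eventually_lt_of_limsup_lt (lt_of_le_of_lt h1 h2)
  filter_upwards [h3] with m hm
  rw [hR m, empM_apply _ hF.measurableSet] at hm
  have hc : (0 : ℝ) < (S m).card := by exact_mod_cast (hS m).card_pos
  have h4 := (ENNReal.toReal_lt_toReal (ne_top_of_lt hm)
    (ENNReal.add_ne_top.2 ⟨measure_ne_top _ _, ENNReal.ofReal_ne_top⟩)).2 hm
  rw [ENNReal.toReal_add (measure_ne_top _ _) ENNReal.ofReal_ne_top,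
    ENNReal.toReal_ofReal hε.le, ENNReal.toReal_mul, ENNReal.toReal_inv] at h4
  simp only [ENNReal.toReal_natCast] at h4
  have h5 : (((S m).filter fun i => f m i ∈ F).card : ℝ) =
      (S m).card * (((S m).card : ℝ)⁻¹ * ((S m).filter fun i => f m i ∈ F).card) := by
    field_simp
  rw [h5, mul_comm]
  exact mul_le_mul_of_nonneg_right h4.le hc.le

private theorem ctG {X : Type*} [TopologicalSpace X] [MeasurableSpace X] [BorelSpace X]
    [CompactSpace X] {ι : ℕ → Type} (S : ∀ m, Finset (ι m))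
    (f : ∀ m, ι m → X) (R : ℕ → ProbabilityMeasure X)
    (hR : ∀ m, (R m : Measure X) = empM (S m) (f m)) (M : ProbabilityMeasure X)
    (h : Tendsto R UU (𝓝 M)) {g : X → ℝ} (hg : Continuous g) :
    Tendsto (fun m => ((S m).card : ℝ)⁻¹ * ∑ i ∈ S m, g (f m i)) UU
      (𝓝 (∫ x, g x ∂(M : Measure X))) := by
  have h1 := (ProbabilityMeasure.tendsto_iff_forall_integral_tendsto.1 h)
    (BoundedContinuousFunction.mkOfCompact ⟨g, hg⟩)
  refine Tendsto.congr (fun m => ?_) h1
  rw [hR m]
  exact integral_empM (f m) hg.measurable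

private theorem tendsto_eps : Tendsto (fun m : ℕ => 1 / ((m : ℝ) + 1)) UU (𝓝 0) :=
  tendsto_one_div_add_atTop_nhds_zero_nat.mono_left UU_le

/-- Existence of the limit object. -/
theorem exists_limD (s : SeqG) : ∃ (μ : Measure S2) (PP : Measure (S2 × S2 × S2)), LimD s μ PP := by
  classical
  have hN := N_pos s
  choose w hw1 hw2 using fun m => exists_nrm (s.C m)
  have hne : ∀ m, (Finset.univ : Finset (Fin (s.N m))).Nonempty := fun m =>
    ⟨⟨0, hN m⟩, Finset.mem_univ _⟩
  have hne2 : ∀ m, (Finset.univ : Finset (Fin (s.N m) × Fin (s.N m))).Nonempty := fun m =>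
    ⟨(⟨0, hN m⟩, ⟨0, hN m⟩), Finset.mem_univ _⟩
  let F : ∀ m, Fin (s.N m) × Fin (s.N m) → S2 × S2 × S2 := fun m q =>
    ((s.C m).us q.1, (s.C m).us q.2, w m q.1 q.2)
  let P : ℕ → ProbabilityMeasure (S2 × S2 × S2) := fun m =>
    ⟨empM Finset.univ (F m), empM_prob (hne2 m) _⟩
  let Q : ℕ → ProbabilityMeasure S2 := fun m =>
    ⟨empM Finset.univ (s.C m).us, empM_prob (hne m) _⟩
  obtain ⟨PP, hPP⟩ := exists_ulim P
  obtain ⟨μ, hμ⟩ := exists_ulim Q
  have hUU := UU_neBot
  change Tendsto P UU (𝓝 PP) at hPP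
  change Tendsto Q UU (𝓝 μ) at hμ
  have hP : ∀ m, (P m : Measure (S2 × S2 × S2)) = empM Finset.univ (F m) := fun m => rfl
  have hQ : ∀ m, (Q m : Measure S2) = empM Finset.univ (s.C m).us := fun m => rfl
  have hcard : ∀ m, ((Finset.univ : Finset (Fin (s.N m))).card : ℝ) = s.N m := fun m => by simp
  have hcard2 : ∀ m, ((Finset.univ : Finset (Fin (s.N m) × Fin (s.N m))).card : ℝ) =
      (s.N m) ^ 2 := fun m => by simp [sq]
  -- product
  let Q2 : ℕ → ProbabilityMeasure (S2 × S2) := fun m => (Q m).prod (Q m)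
  have hQ2 : ∀ m, (Q2 m : Measure (S2 × S2)) =
      empM Finset.univ (fun q : Fin (s.N m) × Fin (s.N m) =>
        ((s.C m).us q.1, (s.C m).us q.2)) := by
    intro m
    have h1 : (Q2 m : Measure (S2 × S2)) = (Q m : Measure S2).prod (Q m : Measure S2) := rfl
    rw [h1, hQ, prod_empM (hne m) (hne m), Finset.univ_product_univ]
  have hQ2t : Tendsto Q2 UU (𝓝 (μ.prod μ)) := by
    have h1 : Continuous (fun (ρ : ProbabilityMeasure S2 × ProbabilityMeasure S2) =>
      ρ.1.prod ρ.2) := ProbabilityMeasure.continuous_prod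
    exact (h1.tendsto (μ, μ)).comp (hμ.prodMk_nhds hμ)
  have hcl := fun (G : Set S2) (hG : IsClosed G) (ε : ℝ) (hε : 0 < ε) =>
    clG (fun m => (Finset.univ : Finset (Fin (s.N m)))) hne (fun m => (s.C m).us) Q hQ μ hμ
      hG hε
  have hct := fun (f : S2 → ℝ) (hf : Continuous f) =>
    ctG (fun m => (Finset.univ : Finset (Fin (s.N m)))) (fun m => (s.C m).us) Q hQ μ hμ hf
  have hct' : ∀ f : S2 → ℝ, Continuous f →
      Tendsto (fun m => 1 / (s.N m : ℝ) * ∑ i, f ((s.C m).us i)) UU (𝓝 (∫ u, f u ∂(μ : Measure S2))) := by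
    intro f hf
    refine Tendsto.congr (fun m => ?_) (hct f hf)
    simp only [hcard, one_div]
  refine ⟨μ, PP, ⟨inferInstance, inferInstance, ?_, ?_, ?_, hct', ?_, ?_, ?_, ?_⟩⟩
  · intro G hG ε hε
    filter_upwards [hcl G hG ε hε] with m hm
    rw [hcard] at hm
    convert hm
  · intro G hG ε hε
    filter_upwards [hcl Gᶜ hG.isClosed_compl ε hε] with m hm
    rw [hcard] at hm
    have h1 : (μ : Measure S2).real Gᶜ = 1 - (μ : Measure S2).real G := by
      rw [measureReal_compl hG.measurableSet]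
      simp
    have h2 : ((Finset.univ.filter fun i => (s.C m).us i ∈ G).card : ℝ) +
        ((Finset.univ.filter fun i => (s.C m).us i ∈ Gᶜ).card : ℝ) = s.N m := by
      have := Finset.card_filter_add_card_filter_not (s := (Finset.univ : Finset (Fin (s.N m))))
        (fun i => (s.C m).us i ∈ G)
      rw [← hcard m, ← this]
      push_cast
      congr 1
    rw [h1] at hm
    have h3 : ((Finset.univ.filter fun i => (s.C m).us i ∈ Gᶜ).card : ℝ) ≤
      (1 - (μ : Measure S2).real G + ε) * s.N m := by convert hm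
    have h4 : (((μ : Measure S2).real G - ε) * s.N m : ℝ) ≤
      ((Finset.univ.filter fun i => (s.C m).us i ∈ G).card : ℝ) := by linarith
    convert h4
  · intro G hG ε hε
    have h1 := clG (fun m => (Finset.univ : Finset (Fin (s.N m) × Fin (s.N m)))) hne2
      (fun m q => ((s.C m).us q.1, (s.C m).us q.2)) Q2 hQ2 (μ.prod μ) hQ2t hG hε
    have h5 : ((μ : Measure S2).prod (μ : Measure S2)) =
      ((μ.prod μ : ProbabilityMeasure (S2 × S2)) : Measure (S2 × S2)) := rfl
    rw [h5]
    filter_upwards [h1] with m hm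
    rw [hcard2] at hm
    convert hm
  · intro y
    have hf : Continuous fun u : S2 => ip u y ^ 2 := by fun_prop
    have h1 := hct' _ hf
    have h2 : Tendsto (fun m => 1 / (s.N m : ℝ) * ∑ i, ip ((s.C m).us i) y ^ 2) UU
        (𝓝 (‖y‖ ^ 2 / 3)) := by
      have h3 : Tendsto (fun m : ℕ => 1 / ((m : ℝ) + 1) * ‖y‖ ^ 2) UU (𝓝 0) := by
        simpa using tendsto_eps.mul_const (‖y‖ ^ 2)
      rw [tendsto_iff_norm_sub_tendsto_zero]
      refine squeeze_zero (fun m => norm_nonneg _) (fun m => ?_) h3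
      have h4 := (s.good m).g5 y
      have hN' : (0 : ℝ) < s.N m := by exact_mod_cast hN m
      have h5 : 1 / (s.N m : ℝ) * ∑ i, ip ((s.C m).us i) y ^ 2 - ‖y‖ ^ 2 / 3 =
          1 / (s.N m : ℝ) * (∑ i, ip ((s.C m).u i) y ^ 2 - (s.N m) / 3 * ‖y‖ ^ 2) := by
        have h6 : ∑ i, ip ((s.C m).us i) y ^ 2 = ∑ i, ip ((s.C m).u i) y ^ 2 := rfl
        rw [h6]
        field_simp
      rw [h5, Real.norm_eq_abs, abs_mul, abs_of_pos (by positivity : 0 < 1 / (s.N m : ℝ))]
      calc 1 / (s.N m : ℝ) * |∑ i, ip ((s.C m).u i) y ^ 2 - (s.N m) / 3 * ‖y‖ ^ 2|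
          ≤ 1 / (s.N m : ℝ) * (1 / ((m : ℝ) + 1) * (s.N m) * ‖y‖ ^ 2) :=
            mul_le_mul_of_nonneg_left h4 (by positivity)
        _ = 1 / ((m : ℝ) + 1) * ‖y‖ ^ 2 := by field_simp
    exact tendsto_nhds_unique h1 h2
  · have hπ : Continuous fun x : S2 × S2 × S2 => (x.1, x.2.1) := by fun_prop
    have h1 := ProbabilityMeasure.tendsto_map_of_tendsto_of_continuous P PP hPP hπ
    have h2 : ∀ m, (P m).map hπ.measurable.aemeasurable = Q2 m := by
      intro m
      apply Subtype.ext
      have h3 : (((P m).map hπ.measurable.aemeasurable : ProbabilityMeasure (S2 × S2)) :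
        Measure (S2 × S2)) = (P m : Measure (S2 × S2 × S2)).map (fun x => (x.1, x.2.1)) := rfl
      change (((P m).map hπ.measurable.aemeasurable : ProbabilityMeasure (S2 × S2)) :
        Measure (S2 × S2)) = (Q2 m : Measure (S2 × S2))
      rw [h3, hP, map_empM _ hπ.measurable, hQ2]
      rfl
    have h4 : PP.map hπ.measurable.aemeasurable = μ.prod μ :=
      tendsto_nhds_unique (by simpa only [h2] using h1) hQ2t
    have h5 := congrArg (fun ρ : ProbabilityMeasure (S2 × S2) => (ρ : Measure (S2 × S2))) h4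
    exact h5
  · set K : Set (S2 × S2 × S2) := {x | ip x.2.2 x.1 = 0 ∧ ip x.2.2 x.2.1 = 0} with hK
    have hKc : IsClosed K := by
      have c1 : Continuous fun x : S2 × S2 × S2 => ip x.2.2 x.1 := by fun_prop
      have c2 : Continuous fun x : S2 × S2 × S2 => ip x.2.2 x.2.1 := by fun_prop
      exact (isClosed_singleton.preimage c1).inter (isClosed_singleton.preimage c2)
    have h1 := ProbabilityMeasure.limsup_measure_closed_le_of_tendsto hPP hKc
    have h2 : ∀ m, (P m : Measure (S2 × S2 × S2)) K = 1 := by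
      intro m
      have h7 : ∀ inst : DecidablePred fun q => F m q ∈ K,
          @Finset.filter _ (fun q => F m q ∈ K) inst Finset.univ = Finset.univ := fun inst =>
        Finset.filter_true_of_mem fun q _ => hw1 m q.1 q.2
      rw [hP, empM_apply _ hKc.measurableSet, h7]
      exact ENNReal.inv_mul_cancel (by simp [(hN m).ne']) (ENNReal.natCast_ne_top _)
    have h3 : (1 : ℝ≥0∞) ≤ (PP : Measure (S2 × S2 × S2)) K := by
      simpa only [h2, limsup_const] using h1
    have h4 : (PP : Measure (S2 × S2 × S2)) Kᶜ = 0 :=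
      (prob_compl_eq_zero_iff hKc.measurableSet).2 (le_antisymm prob_le_one h3)
    rw [ae_iff]
    exact h4
  · intro V hV hC hp
    refine bal_ext (PP := PP) (fun V hV hp => bal_cont hPP ?_ V hV hp) V hV hC hp
    intro V hV hp
    obtain ⟨B, hB⟩ := (isCompact_univ (X := S2 × S2)).exists_bound_of_continuousOn
      hV.continuousOn
    have hc : Continuous fun x : S2 × S2 × S2 =>
      inner ℝ (x.1 : E) (x.2.1 : E) * inner ℝ (V (x.1, x.2.2)) (x.2.1 : E) := by fun_prop
    have hb0 : Tendsto (fun m : ℕ => B * (2 * Real.sqrt (1 / ((m : ℝ) + 1)))) UU (𝓝 0) := by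
      have := (Real.continuous_sqrt.tendsto 0).comp tendsto_eps
      rw [Real.sqrt_zero] at this
      simpa using (this.const_mul 2).const_mul B
    rw [tendsto_zero_iff_norm_tendsto_zero]
    refine squeeze_zero (fun m => norm_nonneg _) (fun m => ?_) hb0
    have hN' : (0 : ℝ) < s.N m := by exact_mod_cast hN m
    have h1 := hw2 m (1 / ((m : ℝ) + 1)) (by positivity) (s.good m) V B (fun y => hB y trivial) hp
    rw [hP, integral_empM _ hc.measurable, hcard2]
    have h2 : ∑ q : Fin (s.N m) × Fin (s.N m), inner ℝ ((F m q).1 : E) ((F m q).2.1 : E) *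
        inner ℝ (V ((F m q).1, (F m q).2.2)) ((F m q).2.1 : E) =
        ∑ i, ∑ k, ip ((s.C m).u i) ((s.C m).u k) *
          ip (V ((s.C m).us i, w m i k)) ((s.C m).u k) := by
      rw [Fintype.sum_prod_type]
      rfl
    rw [h2, norm_mul, Real.norm_eq_abs, Real.norm_eq_abs,
      abs_of_pos (by positivity : 0 < ((s.N m : ℝ) ^ 2)⁻¹)]
    calc ((s.N m : ℝ) ^ 2)⁻¹ * |∑ i, ∑ k, ip ((s.C m).u i) ((s.C m).u k) *
          ip (V ((s.C m).us i, w m i k)) ((s.C m).u k)|
        ≤ ((s.N m : ℝ) ^ 2)⁻¹ * (B * (2 * Real.sqrt (1 / ((m : ℝ) + 1)) * (s.N m : ℝ) ^ 2)) :=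
          mul_le_mul_of_nonneg_left h1 (by positivity)
      _ = B * (2 * Real.sqrt (1 / ((m : ℝ) + 1))) := by field_simp

end Pool.Agent.H23.DR
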