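import Pool.Agent.H23.DR.Third

/-!
# Module NullIp (about 110 lines)

PROOF. (1) For `u, u' ∈ S2` with `|ip u u'| < 1` the set `{w | ip u w = a ∧ ip u' w = a}` has at most two
points: let `f` be a unit vector orthogonal to `u`, `u'` (`perp_two`); two elements `w, w'` differ by a vector
orthogonal to `u, u'`, so `w' - w = t f` (dimension 3: `exists_third` or `Pl_pm`), and `‖w'‖ = ‖w‖` gives
`t = 0` or `t = - 2 ip w f`. So it is `μ`-null (no atoms). (2) The closed set
`D = {((u, u'), w) | ip u w = a ∧ ip u' w = a}` of `(S2 × S2) × S2` has measure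
`∫ μ {w | ..} d(μ ⊗ μ) (u, u') = 0`, because `{(u, u') | u' = u ∨ u' = -u}` is `μ ⊗ μ` null (no atoms).
(3) By `Measure.measure_prod_null` in the other order (`prod_apply_symm`) for almost every `w` the section
`{u | ip u w = a} ×ˢ {u | ip u w = a}` is null, so `μ {u | ip u w = a} ^ 2 = 0`. Hence the claim
(`measure_prod_null` again).
-/

namespace Pool.Agent.H23.DR

open H47.DR MeasureTheory Filter Topology

/-- Two unit vectors with the same products with two independent vectors. -/
theorem two_sol (u u' w w0 : S2) (huu : |ip u u'| < 1) (f : E) (hf : ‖f‖ = 1)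
    (hfu : ip f u = 0) (hfu' : ip f u' = 0) (h1 : ip u w = ip u w0) (h2 : ip u' w = ip u' w0) :
    (w : E) = w0 ∨ (w : E) = (w0 : E) - (2 * ip w0 f) • f := by
  have huf : ip (u : E) f = 0 := by rw [ip, real_inner_comm]; exact hfu
  have huf' : ip (u' : E) f = 0 := by rw [ip, real_inner_comm]; exact hfu'
  obtain ⟨b, hb, -, -, hP, hX⟩ := exists_third (u : E) f (norm_sph u) hf huf
  have hdu : ip ((w : E) - w0) u = 0 := by
    rw [ip, real_inner_comm, inner_sub_right]
    simp only [ip] at h1
    rw [h1, sub_self]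
  have hdu' : ip ((w : E) - w0) u' = 0 := by
    rw [ip, real_inner_comm, inner_sub_right]
    simp only [ip] at h2
    rw [h2, sub_self]
  have hu'b : ip (u' : E) b ≠ 0 := by
    intro h3
    have e1 := hP u' u'
    rw [ip_self_sph, huf', h3] at e1
    have h4 : ip (u' : E) u = ip (u : E) u' := by rw [ip, real_inner_comm]
    rw [h4] at e1
    have h5 : |ip (u : E) u'| ^ 2 < 1 := by
      have := abs_nonneg (ip (u : E) u')
      nlinarith
    rw [sq_abs] at h5
    linarith
  have hdb : ip ((w : E) - w0) b = 0 := by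
    have e2 := hP ((w : E) - w0) u'
    rw [hdu', hdu, huf'] at e2
    have : ip ((w : E) - w0) b * ip (u' : E) b = 0 := by linarith
    exact (mul_eq_zero.1 this).resolve_right hu'b
  have hd := hX ((w : E) - w0)
  rw [hdu, hdb, zero_smul, zero_smul, zero_add, add_zero] at hd
  set t : ℝ := ip ((w : E) - w0) f with ht
  have hw : (w : E) = w0 + t • f := by
    rw [← hd]; abel
  have hn := norm_add_sq_real (w0 : E) (t • f)
  rw [← hw, norm_sph, norm_sph, norm_smul, hf, real_inner_smul_right, mul_one, Real.norm_eq_abs,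
    sq_abs] at hn
  have hn' : t * (t + 2 * ip w0 f) = 0 := by
    simp only [ip]
    linarith
  rcases mul_eq_zero.1 hn' with h3 | h3
  · left
    rw [hw, h3, zero_smul, add_zero]
  · right
    have h4 : t = - (2 * ip w0 f) := by linarith
    rw [hw, h4, neg_smul, sub_eq_add_neg]

theorem two_null (μ : Measure S2) (h0 : ∀ x, μ {x} = 0) (a : ℝ) (u u' : S2)
    (huu : |ip u u'| < 1) : μ {w : S2 | ip u w = a ∧ ip u' w = a} = 0 := by
  rcases Set.eq_empty_or_nonempty {w : S2 | ip u w = a ∧ ip u' w = a} with h | ⟨w0, h1, h2⟩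
  · rw [h, measure_empty]
  · obtain ⟨f, hf, hfu, hfu'⟩ := perp_two (u : E) (u' : E)
    have hsub : ∀ x : E, μ {w : S2 | (w : E) = x} = 0 := by
      intro x
      rcases Set.eq_empty_or_nonempty {w : S2 | (w : E) = x} with h | ⟨y, hy⟩
      · rw [h, measure_empty]
      · refine measure_mono_null ?_ (h0 y)
        intro w hw
        have hw' : (w : E) = x := hw
        have hy' : (y : E) = x := hy
        exact Subtype.ext (hw'.trans hy'.symm)
    refine measure_mono_null (t := {w : S2 | (w : E) = w0} ∪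
      {w : S2 | (w : E) = (w0 : E) - (2 * ip w0 f) • f}) ?_ ?_
    · rintro w ⟨hw1, hw2⟩
      exact two_sol u u' w w0 huu f hf hfu hfu' (hw1.trans h1.symm) (hw2.trans h2.symm)
    · exact measure_union_null (hsub _) (hsub _)

theorem pair_null (μ : Measure S2) [IsProbabilityMeasure μ] (h0 : ∀ x, μ {x} = 0) :
    (μ.prod μ) {p : S2 × S2 | 1 ≤ |ip p.1 p.2|} = 0 := by
  have hc : Continuous fun p : S2 × S2 => |ip p.1 p.2| := by
    simp only [ip]; fun_prop
  have hm : MeasurableSet {p : S2 × S2 | 1 ≤ |ip p.1 p.2|} :=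
    (isClosed_Ici.preimage hc).measurableSet
  rw [Measure.measure_prod_null hm]
  refine Filter.Eventually.of_forall fun u => ?_
  refine measure_mono_null (t := {u} ∪ {-u}) ?_ (measure_union_null (h0 _) (h0 _))
  intro u' hu'
  exact eq_or_neg u u' hu'

theorem null_ip (μ : Measure S2) [IsProbabilityMeasure μ] (h0 : ∀ x, μ {x} = 0) (a : ℝ) :
    (μ.prod μ) {p : S2 × S2 | ip p.1 p.2 = a} = 0 := by
  have hc0 : Continuous fun p : S2 × S2 => ip p.1 p.2 := by
    simp only [ip]; fun_prop
  have hm0 : MeasurableSet {p : S2 × S2 | ip p.1 p.2 = a} :=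
    (isClosed_singleton.preimage hc0).measurableSet
  have hc1 : Continuous fun q : (S2 × S2) × S2 => ip q.1.1 q.2 := by
    simp only [ip]; fun_prop
  have hc2 : Continuous fun q : (S2 × S2) × S2 => ip q.1.2 q.2 := by
    simp only [ip]; fun_prop
  have hm : MeasurableSet {q : (S2 × S2) × S2 | ip q.1.1 q.2 = a ∧ ip q.1.2 q.2 = a} :=
    ((isClosed_singleton.preimage hc1).inter (isClosed_singleton.preimage hc2)).measurableSet
  have hD : ((μ.prod μ).prod μ) {q : (S2 × S2) × S2 | ip q.1.1 q.2 = a ∧ ip q.1.2 q.2 = a} = 0 := by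
    rw [Measure.measure_prod_null hm]
    have h1 : ∀ᵐ p ∂(μ.prod μ), ¬ (1 ≤ |ip p.1 p.2|) := by
      rw [ae_iff]
      simpa using pair_null μ h0
    filter_upwards [h1] with p hp
    exact two_null μ h0 a p.1 p.2 (not_le.1 hp)
  have hae : ∀ᵐ (w : S2) ∂μ, μ {u : S2 | ip u w = a} = 0 := by
    rw [Measure.prod_apply_symm hm, lintegral_eq_zero_iff (measurable_measure_prodMk_right hm)] at hD
    filter_upwards [hD] with w hw
    have h3 : (fun x : S2 × S2 => (x, w)) ⁻¹'
        {q : (S2 × S2) × S2 | ip q.1.1 q.2 = a ∧ ip q.1.2 q.2 = a} =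
        {u : S2 | ip u w = a} ×ˢ {u : S2 | ip u w = a} := by
      ext ⟨x, y⟩
      simp
    have hw' : (μ.prod μ) ((fun x : S2 × S2 => (x, w)) ⁻¹'
        {q : (S2 × S2) × S2 | ip q.1.1 q.2 = a ∧ ip q.1.2 q.2 = a}) = 0 := hw
    rw [h3, Measure.prod_prod] at hw'
    exact mul_self_eq_zero.1 hw'
  rw [Measure.prod_apply_symm hm0, lintegral_eq_zero_iff (measurable_measure_prodMk_right hm0)]
  filter_upwards [hae] with w hw
  exact hw

end Pool.Agent.H23.DR
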