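import Pool.Agent.H23.DR.Fin4
import Pool.Agent.H23.DR.NullIp
import Pool.Agent.H23.DR.LimEx

/-!
# Module ExAt (about 90 lines): there is an atom (section 5)

PROOF. Otherwise all `μ {x} = 0` and by `null_ip` for `a = 0, 1/2, -1/2` the set `DD 0` is null for `μ ⊗ μ`. The closed
sets `DD (1/(k+2))` decrease to `DD 0`, so some `θ = 1/(k+2)` has `(μ ⊗ μ).real (DD θ) ≤ 1/1000`. By `cl2`
eventually at most `N^2/500` pairs are in `DD θ`, and eventually `1/(m+1)/θ^6 ≤ 1/1000`. `fin4`: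
`1/3 ≤ 1/4 + 1/1000 + 7/500` (divide by `N^2 > 0`), false.
-/

namespace Pool.Agent.H23.DR

open H47.DR MeasureTheory Filter Topology

theorem isClosed_DD (θ : ℝ) : IsClosed (DD θ) := by
  have hc1 : Continuous fun p : S2 × S2 => |ip p.1 p.2| := by
    simp only [ip]; fun_prop
  have hc2 : Continuous fun p : S2 × S2 => |ip p.1 p.2 ^ 2 - 1 / 4| := by
    simp only [ip]; fun_prop
  exact (isClosed_Iic.preimage hc1).union (isClosed_Iic.preimage hc2)

theorem DD_zero_null (μ : Measure S2) [IsProbabilityMeasure μ] (h0 : ∀ x, μ {x} = 0) :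
    (μ.prod μ) (DD 0) = 0 := by
  refine measure_mono_null (t := ({p : S2 × S2 | ip p.1 p.2 = 0} ∪
    {p : S2 × S2 | ip p.1 p.2 = 1 / 2}) ∪ {p : S2 × S2 | ip p.1 p.2 = -(1 / 2)}) ?_
    (measure_union_null (measure_union_null (null_ip μ h0 _) (null_ip μ h0 _)) (null_ip μ h0 _))
  intro p hp
  rcases hp with hp | hp
  · exact Or.inl (Or.inl (abs_nonpos_iff.1 hp))
  · have h1 : ip (p.1 : E) p.2 ^ 2 - 1 / 4 = 0 := abs_nonpos_iff.1 hp
    have h2 : (ip (p.1 : E) p.2 - 1 / 2) * (ip (p.1 : E) p.2 - (-(1 / 2))) = 0 := by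
      linarith [h1, sq (ip (p.1 : E) p.2)]
    rcases mul_eq_zero.1 h2 with h3 | h3
    · exact Or.inl (Or.inr (sub_eq_zero.1 h3))
    · exact Or.inr (sub_eq_zero.1 h3)

theorem exists_theta (μ : Measure S2) [IsProbabilityMeasure μ] (h0 : ∀ x, μ {x} = 0) :
    ∃ θ : ℝ, 0 < θ ∧ θ ≤ 1 / 2 ∧ (μ.prod μ).real (DD θ) ≤ 1 / 1000 := by
  have hanti : Antitone fun k : ℕ => DD (1 / ((k : ℝ) + 2)) := by
    intro k l hkl p hp
    have h1 : (1 : ℝ) / ((l : ℝ) + 2) ≤ 1 / ((k : ℝ) + 2) := by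
      have h2 : (k : ℝ) ≤ l := by exact_mod_cast hkl
      have h3 : (0 : ℝ) ≤ k := Nat.cast_nonneg k
      exact one_div_le_one_div_of_le (by linarith) (by linarith)
    rcases hp with hp | hp
    · exact Or.inl (le_trans hp h1)
    · exact Or.inr (le_trans hp h1)
  have hlim : Tendsto (fun k : ℕ => (1 : ℝ) / ((k : ℝ) + 2)) atTop (𝓝 0) := by
    have h1 : Tendsto (fun k : ℕ => (k : ℝ) + 2) atTop atTop :=
      tendsto_atTop_add_const_right _ _ tendsto_natCast_atTop_atTop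
    have h2 := h1.inv_tendsto_atTop
    refine h2.congr fun k => ?_
    simp
  have hint : (⋂ k : ℕ, DD (1 / ((k : ℝ) + 2))) ⊆ DD 0 := by
    intro p hp
    rw [Set.mem_iInter] at hp
    by_contra hcon
    have hcon1 : ¬ (|ip (p.1 : E) p.2| ≤ 0) := fun h => hcon (Or.inl h)
    have hcon2 : ¬ (|ip (p.1 : E) p.2 ^ 2 - 1 / 4| ≤ 0) := fun h => hcon (Or.inr h)
    rw [not_le] at hcon1 hcon2
    have e1 := (hlim.eventually (gt_mem_nhds hcon1)).and (hlim.eventually (gt_mem_nhds hcon2))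
    obtain ⟨k, hk1, hk2⟩ := e1.exists
    rcases hp k with h | h
    · exact absurd h (not_le.2 hk1)
    · exact absurd h (not_le.2 hk2)
  have hz : (μ.prod μ) (⋂ k : ℕ, DD (1 / ((k : ℝ) + 2))) = 0 :=
    measure_mono_null hint (DD_zero_null μ h0)
  have ht := tendsto_measure_iInter_atTop (μ := μ.prod μ)
    (s := fun k : ℕ => DD (1 / ((k : ℝ) + 2)))
    (fun k => (isClosed_DD _).measurableSet.nullMeasurableSet) hanti ⟨0, measure_ne_top _ _⟩
  rw [hz] at ht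
  have hpos : (0 : ENNReal) < ENNReal.ofReal (1 / 1000) := by
    rw [ENNReal.ofReal_pos]; norm_num
  obtain ⟨k, hk⟩ := (ht.eventually (gt_mem_nhds hpos)).exists
  refine ⟨1 / ((k : ℝ) + 2), by positivity, ?_, ?_⟩
  · have h3 : (0 : ℝ) ≤ k := Nat.cast_nonneg k
    exact one_div_le_one_div_of_le (by norm_num) (by linarith)
  · have h1 : (μ.prod μ) (DD (1 / ((k : ℝ) + 2))) < ENNReal.ofReal (1 / 1000) := hk
    exact ENNReal.toReal_le_of_le_ofReal (by norm_num) h1.le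

theorem exists_atom {s : SeqG} {μ : Measure S2} {PP : Measure (S2 × S2 × S2)}
    (h : LimD s μ PP) : ∃ x : S2, 0 < μ (pm x) := by
  by_contra hcon
  push Not at hcon
  have hpr := h.pr
  have h0 : ∀ x, μ {x} = 0 := by
    intro x
    refine measure_mono_null (t := pm x) ?_ (le_antisymm (hcon x) (zero_le))
    intro y hy
    exact Or.inl hy
  obtain ⟨θ, hθ0, hθ1, hθ⟩ := exists_theta μ h0
  have hUU := UU_neBot
  have e1 := h.cl2 (DD θ) (isClosed_DD θ) (1 / 1000) (by norm_num)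
  have e2 : ∀ᶠ (m : ℕ) in UU, 1 / ((m : ℝ) + 1) / θ ^ 6 < 1 / 1000 := by
    have h1 : Tendsto (fun m : ℕ => 1 / ((m : ℝ) + 1) / θ ^ 6) UU (𝓝 (0 / θ ^ 6)) :=
      (tendsto_one_div_add_atTop_nhds_zero_nat.mono_left UU_le).div_const _
    rw [zero_div] at h1
    have h1000 : (0 : ℝ) < 1 / 1000 := by norm_num
    exact h1.eventually (gt_mem_nhds h1000)
  obtain ⟨m, hm1, hm2⟩ := (e1.and e2).exists
  have hN : (0 : ℝ) < (s.N m : ℝ) ^ 2 := by
    have : (0 : ℝ) < s.N m := by exact_mod_cast N_pos s m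
    positivity
  have h4 := fin4 (s.C m) (1 / ((m : ℝ) + 1)) (s.good m) θ hθ0 hθ1
  have h5 : ((μ.prod μ).real (DD θ) + 1 / 1000) * (s.N m : ℝ) ^ 2 ≤
      (1 / 1000 + 1 / 1000) * (s.N m : ℝ) ^ 2 :=
    mul_le_mul_of_nonneg_right (by linarith) hN.le
  have h6 : 1 / ((m : ℝ) + 1) / θ ^ 6 * (s.N m : ℝ) ^ 2 ≤ 1 / 1000 * (s.N m : ℝ) ^ 2 :=
    mul_le_mul_of_nonneg_right hm2.le hN.le
  linarith

end Pool.Agent.H23.DR
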