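import Pool.Agent.H23.DR.Base
import Pool.Agent.H47.DR.LSb

/-!
# Module LemD (about 250 lines): the halving lemma (h89_dirac.md, Lemma D), pure finite geometry

Write `N_a = |P a|`, `n_a(l) = |l ∩ P a|`, `p_i = σ i • u i` for the signed vectors, `[x,y,z] = det3`.
PROOF. (1) Let `{a,b,c} = {0,1,2}`. Call `i ∈ P a` good if
`∑ over l ∈ L, i ∈ l, l meeting P b or P c, of |n_b(l)/N_b - n_c(l)/N_c| ≤ κ`. By `hb` (sum over
`i ∈ P a` of this sum = the left side of `hb`) at most `κ N_a` elements of `P a` are bad.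
(2) Two points of `P a`, `P b` (`a < b`) are different and not parallel. Coplanar points
`x ∈ P 0, y ∈ P 1, z ∈ P 2` (signed vectors, same line): `y = α x + γ z` with `α, γ > 0`
(`x, z` independent in the plane of the line; take `[x, ., v]` and `[., z, v]`).
If `x ∈ P a`, `y, y' ∈ P b`, same line, `a ≠ b`: `y' = s x + t y`, `t > 0` (take `[x, ., v]`).
(3) Let `l0 ∈ L` contain good `c_a ∈ P a` for all `a`, `w` a normal of `l0` with `ip w v > 0` (`ip w v ≠ 0` because
`[c_0, c_1, v] ≠ 0`). A signed vector `y` is above/below/on: sign of `ip y w`. Let `f_a^+, f_a^-` be the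
fractions of `P a` above/below. By (2), for a line `l ≠ l0` through `c_0` all points of
`l ∩ P 1` and `l ∩ P 2` are on the same side (`y = α c_0 + γ z`); through `c_1`: the points of `l ∩ P 0` are on one
side and those of `l ∩ P 2` on the other one (`0 = α ip x w + γ ip z w`); through `c_2`: `l ∩ P 0`, `l ∩ P 1` same
side. Summing over the lines through `c_0` (other than `l0`) below: `|f_1^- - f_2^-| ≤ κ`, same for `+`;
through `c_1`: `|f_0^- - f_2^+| ≤ κ`, `|f_0^+ - f_2^-| ≤ κ`; through `c_2`: `|f_0^- - f_1^-| ≤ κ`, `|f_0^+ - f_1^+| ≤ κ`.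
(Every point of `P b` not on `l0` is on exactly one line through `c_a`.) So `|f_1^- - f_1^+| ≤ 3 κ`.
(4) Fix a good `c_0 ∈ P 0`. For `y ∈ P 1` let `S y = ip y z / [c_0, y, v]`, `z = v - ip v c_0 c_0` (`c_0` signed unit
vector; `z ≠ 0`, `ip z v = ‖z‖^2 > 0`, `ip z c_0 = 0`). `S` is constant on the points of `P 1` on a line
through `c_0`. If `l0` is a line through `c_0` and `y0 ∈ P 1` with normal `w`, `ip w v > 0`, then
`w = α z + β (v × c_0)`, `α > 0`, so for `y ∈ P 1`: `ip y w < 0` iff `S y < S y0`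
(`ip y w / [c_0,y,v] = α S y + β`, and it is `0` for `y0`).
Let `Σ` = the `y ∈ P 1`, good, such that the line `c_0 y` contains a good point of `P 2`. Not in a line of `Σ`
are: bad `y` (`≤ κ N_1`), and the `y` on lines through `c_0` without good point of `P 2`: for these lines
`∑ n_1/N_1 ≤ ∑ n_2/N_2 + κ ≤ κ + κ` (each bad point of `P 2` is on one line through `c_0`). So at most `3 κ N_1`
points of `P 1` are not on a line `c_0 y`, `y ∈ Σ`; `Σ` is not empty. Take `y0 ∈ Σ` with `S y0` minimal and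
`l0 = ` line `c_0 y0`: `f_1^- ≤ 3 κ`, so by (3) `f_1^+ ≤ 6 κ`, and `n_1(l0) ≥ (1 - 9 κ) N_1`.
(5) For two good `c_0, c_0'` the lines from (4) share at least `(1 - 18 κ) N_1 ≥ 2` points: they are the
same line `g`. So `g` contains all good points of `P 0`: `n_0(g) ≥ (1 - κ) N_0`;
`n_1(g) ≥ (1 - 9 κ) N_1`, and with a good `c_0` on `g`: `n_2(g)/N_2 ≥ n_1(g)/N_1 - κ`.
-/

namespace Pool.Agent.H23.DR

open H47.DR Finset

variable {n : ℕ}

theorem lemD_coord (a b : E) : ip a b = a 0 * b 0 + a 1 * b 1 + a 2 * b 2 := by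
  simp [ip, PiLp.inner_apply, Fin.sum_univ_three, mul_comm]

theorem lemD_id1 (x y y0 v w : E) : det3 x y v * ip y0 w - det3 x y0 v * ip y w =
    ip w v * det3 x y y0 - ip x w * det3 y y0 v := by
  simp only [lemD_coord, det3]; ring

theorem lemD_det0 (ν x y z : E) (hν : ‖ν‖ = 1) (hx : ip x ν = 0) (hy : ip y ν = 0)
    (hz : ip z ν = 0) : det3 x y z = 0 := by
  have h1 : ip ν ν = 1 := by simp [ip, hν]
  simp only [lemD_coord] at h1 hx hy hz
  have e0 : det3 x y z * ν 0 = 0 := by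
    simp only [det3]
    linear_combination (y 1 * z 2 - y 2 * z 1) * hx + (z 1 * x 2 - z 2 * x 1) * hy +
      (x 1 * y 2 - x 2 * y 1) * hz
  have e1 : det3 x y z * ν 1 = 0 := by
    simp only [det3]
    linear_combination (y 2 * z 0 - y 0 * z 2) * hx + (z 2 * x 0 - z 0 * x 2) * hy +
      (x 2 * y 0 - x 0 * y 2) * hz
  have e2 : det3 x y z * ν 2 = 0 := by
    simp only [det3]
    linear_combination (y 0 * z 1 - y 1 * z 0) * hx + (z 0 * x 1 - z 1 * x 0) * hy +
      (x 0 * y 1 - x 1 * y 0) * hz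
  linear_combination (-det3 x y z) * h1 + ν 0 * e0 + ν 1 * e1 + ν 2 * e2

/-- the comparison of two normals orthogonal to `x` -/
theorem lemD_id2 (x y v w z : E) (hx : ‖x‖ = 1) (hw : ip x w = 0) (hz : ip x z = 0) :
    ip z v * ip y w - ip w v * ip y z = det3 x w z * det3 x y v := by
  have h1 : ip x x = 1 := by simp [ip, hx]
  have key : ip x x * (ip z v * ip y w - ip w v * ip y z) = det3 x w z * det3 x y v +
      ip x w * (ip y x * ip v z - ip y z * ip v x) -
      ip x z * (ip y x * ip v w - ip y w * ip v x) := by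
    simp only [lemD_coord, det3]; ring
  rw [h1, hw, hz] at key
  linarith

theorem lemD_anti (x y v : E) : det3 y x v = - det3 x y v := by
  simp only [det3]; ring

theorem lemD_self (x v : E) : det3 x x v = 0 := by
  simp only [det3]; ring

/-- the relation between the sides along a line -/
theorem lemD_rel (C : Cfg n) (σ : Fin n → ℝ) (v w : E) {l : Finset (Fin n)} (hl : l ∈ C.L)
    {i y z : Fin n} (hi : i ∈ l) (hy : y ∈ l) (hz : z ∈ l) (hw : ip (σ i • C.u i) w = 0) :
    det3 (σ i • C.u i) (σ y • C.u y) v * ip (σ z • C.u z) w =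
      det3 (σ i • C.u i) (σ z • C.u z) v * ip (σ y • C.u y) w := by
  obtain ⟨ν, hν, hν'⟩ := C.nu l hl
  have hs : ∀ k ∈ l, ip (σ k • C.u k) ν = 0 := by
    intro k hk
    have := (hν' k).1 hk
    simp only [ip] at this ⊢
    rw [real_inner_smul_left, this, mul_zero]
  have h1 := lemD_id1 (σ i • C.u i) (σ y • C.u y) (σ z • C.u z) v w
  rw [lemD_det0 ν _ _ _ hν (hs i hi) (hs y hy) (hs z hz), hw] at h1
  linarith

open Classical in
/-- the lines through `i` which meet `Q` or `R` -/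
noncomputable def lemD_thr (C : Cfg n) (i : Fin n) (Q R : Finset (Fin n)) :
    Finset (Finset (Fin n)) :=
  C.L.filter fun l => i ∈ l ∧ ∃ j ∈ l, j ∈ Q ∨ j ∈ R

theorem lemD_count (C : Cfg n) (i : Fin n) (Q R T : Finset (Fin n)) (hi : i ∉ T)
    (hT : ∀ j ∈ T, j ∈ Q ∨ j ∈ R) :
    (T.card : ℝ) = ∑ l ∈ lemD_thr C i Q R, ((l ∩ T).card : ℝ) := by
  classical
  rw [← Nat.cast_sum]
  congr 1
  have h1 : T = (lemD_thr C i Q R).biUnion fun l => l ∩ T := by
    ext j
    simp only [Finset.mem_biUnion, Finset.mem_inter]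
    constructor
    · intro hj
      have hij : i ≠ j := fun e => hi (e ▸ hj)
      refine ⟨C.ln i j, ?_, C.right_mem hij, hj⟩
      rw [lemD_thr, Finset.mem_filter]
      exact ⟨C.ln_mem hij, C.left_mem hij, j, C.right_mem hij, hT j hj⟩
    · rintro ⟨l, -, -, hj⟩
      exact hj
  conv_lhs => rw [h1]
  refine Finset.card_biUnion fun l hl l' hl' hne => ?_
  rw [Function.onFun, Finset.disjoint_left]
  intro j hj hj'
  have hl := Finset.mem_filter.1 (Finset.mem_coe.1 hl)
  have hl' := Finset.mem_filter.1 (Finset.mem_coe.1 hl')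
  rw [Finset.mem_inter] at hj hj'
  have hij : i ≠ j := fun e => hi (e ▸ hj.2)
  exact hne (C.uniq l hl.1 l' hl'.1 i j hij hl.2.1 hj.1 hl'.2.1 hj'.1)

/-- the balance of the two sides at a good point -/
theorem lemD_half (C : Cfg n) (σ : Fin n → ℝ) (v w : E) (i : Fin n) (Q R : Finset (Fin n))
    (eQ eR κ : ℝ) (hQ : ∀ j ∈ Q, 0 < eQ * det3 (σ i • C.u i) (σ j • C.u j) v)
    (hR : ∀ j ∈ R, 0 < eR * det3 (σ i • C.u i) (σ j • C.u j) v)
    (hw : ip (σ i • C.u i) w = 0)
    (hκ : ∑ l ∈ lemD_thr C i Q R, |((l ∩ Q).card : ℝ) / Q.card - ((l ∩ R).card : ℝ) / R.card| ≤ κ)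
    (s : ℝ) :
    |((Q.filter fun j => 0 < s * (eQ * ip (σ j • C.u j) w)).card : ℝ) / Q.card -
      ((R.filter fun j => 0 < s * (eR * ip (σ j • C.u j) w)).card : ℝ) / R.card| ≤ κ := by
  classical
  set TQ := Q.filter fun j => 0 < s * (eQ * ip (σ j • C.u j) w) with hTQ
  set TR := R.filter fun j => 0 < s * (eR * ip (σ j • C.u j) w) with hTR
  have hiQ : i ∉ Q := fun h => by
    have := hQ i h
    rw [lemD_self, mul_zero] at this
    exact lt_irrefl _ this
  have hiR : i ∉ R := fun h => by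
    have := hR i h
    rw [lemD_self, mul_zero] at this
    exact lt_irrefl _ this
  have c1 := lemD_count C i Q R TQ (fun h => hiQ (Finset.mem_filter.1 h).1)
    (fun j hj => Or.inl (Finset.mem_filter.1 hj).1)
  have c2 := lemD_count C i Q R TR (fun h => hiR (Finset.mem_filter.1 h).1)
    (fun j hj => Or.inr (Finset.mem_filter.1 hj).1)
  rw [c1, c2, Finset.sum_div, Finset.sum_div, ← Finset.sum_sub_distrib]
  refine (Finset.abs_sum_le_sum_abs _ _).trans (le_trans (Finset.sum_le_sum fun l hl => ?_) hκ)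
  rw [lemD_thr, Finset.mem_filter] at hl
  -- sign data of a point of the line
  have key : ∀ y ∈ l, ∀ z ∈ l, ∀ ey ez : ℝ, 0 < ey * det3 (σ i • C.u i) (σ y • C.u y) v →
      0 < ez * det3 (σ i • C.u i) (σ z • C.u z) v → 0 < s * (ey * ip (σ y • C.u y) w) →
      0 < s * (ez * ip (σ z • C.u z) w) := by
    intro y hy z hz ey ez h1 h2 h3
    have hr := lemD_rel C σ v w hl.1 hl.2.1 hy hz hw
    have h4 : (ey * det3 (σ i • C.u i) (σ y • C.u y) v) * (s * (ez * ip (σ z • C.u z) w)) =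
        (ez * det3 (σ i • C.u i) (σ z • C.u z) v) * (s * (ey * ip (σ y • C.u y) w)) := by
      linear_combination (ey * s * ez) * hr
    have h5 : 0 < (ey * det3 (σ i • C.u i) (σ y • C.u y) v) * (s * (ez * ip (σ z • C.u z) w)) := by
      rw [h4]; exact mul_pos h2 h3
    exact (mul_pos_iff_of_pos_left h1).1 h5
  by_cases hex : (∃ y ∈ l, y ∈ TQ) ∨ ∃ y ∈ l, y ∈ TR
  · -- all points of the line are on this side
    have hy : ∃ y ∈ l, ∃ ey : ℝ, 0 < ey * det3 (σ i • C.u i) (σ y • C.u y) v ∧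
        0 < s * (ey * ip (σ y • C.u y) w) := by
      rcases hex with ⟨y, hy, hy'⟩ | ⟨y, hy, hy'⟩
      · rw [hTQ, Finset.mem_filter] at hy'
        exact ⟨y, hy, eQ, hQ y hy'.1, hy'.2⟩
      · rw [hTR, Finset.mem_filter] at hy'
        exact ⟨y, hy, eR, hR y hy'.1, hy'.2⟩
    obtain ⟨y, hy, ey, h1, h2⟩ := hy
    have e1 : l ∩ TQ = l ∩ Q := by
      ext z
      simp only [hTQ, Finset.mem_inter, Finset.mem_filter]
      exact ⟨fun h => ⟨h.1, h.2.1⟩, fun h => ⟨h.1, h.2, key y hy z h.1 ey eQ h1 (hQ z h.2) h2⟩⟩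
    have e2 : l ∩ TR = l ∩ R := by
      ext z
      simp only [hTR, Finset.mem_inter, Finset.mem_filter]
      exact ⟨fun h => ⟨h.1, h.2.1⟩, fun h => ⟨h.1, h.2, key y hy z h.1 ey eR h1 (hR z h.2) h2⟩⟩
    rw [e1, e2]
  · push Not at hex
    have e1 : l ∩ TQ = ∅ := by
      ext z
      simp only [Finset.mem_inter, Finset.notMem_empty, iff_false, not_and]
      exact fun h => hex.1 z h
    have e2 : l ∩ TR = ∅ := by
      ext z
      simp only [Finset.mem_inter, Finset.notMem_empty, iff_false, not_and]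
      exact fun h => hex.2 z h
    rw [e1, e2]
    simp

/-- few bad points -/
theorem lemD_bad (C : Cfg n) (A Q R : Finset (Fin n)) (κ : ℝ) (h0 : 0 < κ)
    (hb : ∑ l ∈ C.L.filter (fun l => (∃ i ∈ l, i ∈ A) ∧ ∃ j ∈ l, j ∈ Q ∨ j ∈ R),
        ((l ∩ A).card : ℝ) * |((l ∩ Q).card : ℝ) / Q.card - ((l ∩ R).card : ℝ) / R.card|
        ≤ κ ^ 2 * A.card) :
    ((A.filter fun i => ¬ (∑ l ∈ lemD_thr C i Q R,
      |((l ∩ Q).card : ℝ) / Q.card - ((l ∩ R).card : ℝ) / R.card| ≤ κ)).card : ℝ) ≤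
      κ * A.card := by
  classical
  set g : Finset (Fin n) → ℝ := fun l =>
    |((l ∩ Q).card : ℝ) / Q.card - ((l ∩ R).card : ℝ) / R.card| with hg
  have hg0 : ∀ l, 0 ≤ g l := fun l => abs_nonneg _
  have e1 : ∑ i ∈ A, ∑ l ∈ lemD_thr C i Q R, g l =
      ∑ l ∈ C.L.filter (fun l => (∃ i ∈ l, i ∈ A) ∧ ∃ j ∈ l, j ∈ Q ∨ j ∈ R),
        ((l ∩ A).card : ℝ) * g l := by
    have h1 : ∀ l, ((l ∩ A).card : ℝ) * g l = ∑ i ∈ A, if i ∈ l then g l else 0 := by
      intro l
      rw [← Finset.sum_filter, Finset.sum_const, nsmul_eq_mul]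
      congr 2
      rw [Finset.inter_comm, Finset.filter_mem_eq_inter]
    simp only [h1]
    rw [Finset.sum_comm]
    refine Finset.sum_congr rfl fun i hi => ?_
    rw [← Finset.sum_filter]
    refine Finset.sum_congr ?_ fun _ _ => rfl
    ext l
    simp only [lemD_thr, Finset.mem_filter]
    constructor
    · rintro ⟨h1, h2, h3⟩
      exact ⟨⟨h1, ⟨i, h2, hi⟩, h3⟩, h2⟩
    · rintro ⟨⟨h1, _, h3⟩, h2⟩
      exact ⟨h1, h2, h3⟩
  set B := A.filter fun i => ¬ (∑ l ∈ lemD_thr C i Q R, g l ≤ κ) with hB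
  have e2 : κ * (B.card : ℝ) ≤ ∑ i ∈ A, ∑ l ∈ lemD_thr C i Q R, g l := by
    calc κ * (B.card : ℝ) = ∑ i ∈ B, κ := by rw [Finset.sum_const, nsmul_eq_mul, mul_comm]
      _ ≤ ∑ i ∈ B, ∑ l ∈ lemD_thr C i Q R, g l := by
          refine Finset.sum_le_sum fun i hi => ?_
          rw [hB, Finset.mem_filter] at hi
          exact (not_le.1 hi.2).le
      _ ≤ ∑ i ∈ A, ∑ l ∈ lemD_thr C i Q R, g l := by
          refine Finset.sum_le_sum_of_subset_of_nonneg (Finset.filter_subset _ _) fun i _ _ => ?_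
          exact Finset.sum_nonneg fun l _ => hg0 l
  rw [e1] at e2
  have e3 : κ * (B.card : ℝ) ≤ κ * (κ * A.card) := by
    calc κ * (B.card : ℝ) ≤ _ := e2
      _ ≤ κ ^ 2 * A.card := hb
      _ = κ * (κ * A.card) := by ring
  exact le_of_mul_le_mul_left e3 h0

/-- goodness of a point with respect to two classes -/
def lemD_good (C : Cfg n) (Q R : Finset (Fin n)) (κ : ℝ) (i : Fin n) : Prop :=
  ∑ l ∈ lemD_thr C i Q R, |((l ∩ Q).card : ℝ) / Q.card - ((l ∩ R).card : ℝ) / R.card| ≤ κ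

open Classical in
/-- step (3): halving -/
theorem lemD_halving (C : Cfg n) (σ : Fin n → ℝ) (v w : E) (P0 P1 P2 : Finset (Fin n)) (κ : ℝ)
    (o01 : ∀ i ∈ P0, ∀ j ∈ P1, 0 < det3 (σ i • C.u i) (σ j • C.u j) v)
    (o02 : ∀ i ∈ P0, ∀ j ∈ P2, 0 < det3 (σ i • C.u i) (σ j • C.u j) v)
    (o12 : ∀ i ∈ P1, ∀ j ∈ P2, 0 < det3 (σ i • C.u i) (σ j • C.u j) v)
    (c0 c1 c2 : Fin n) (m0 : c0 ∈ P0) (m1 : c1 ∈ P1) (m2 : c2 ∈ P2)
    (w0 : ip (σ c0 • C.u c0) w = 0) (w1 : ip (σ c1 • C.u c1) w = 0)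
    (w2 : ip (σ c2 • C.u c2) w = 0) (g0 : lemD_good C P1 P2 κ c0) (g1 : lemD_good C P0 P2 κ c1)
    (g2 : lemD_good C P0 P1 κ c2) :
    ((P1.filter fun j => 0 < ip (σ j • C.u j) w).card : ℝ) / P1.card ≤
      ((P1.filter fun j => ip (σ j • C.u j) w < 0).card : ℝ) / P1.card + 3 * κ := by
  have h1 := lemD_half C σ v w c0 P1 P2 1 1 κ (fun j hj => by rw [one_mul]; exact o01 _ m0 j hj)
    (fun j hj => by rw [one_mul]; exact o02 _ m0 j hj) w0 g0 1
  have h2 := lemD_half C σ v w c1 P0 P2 (-1) 1 κ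
    (fun j hj => by rw [lemD_anti]; have := o01 j hj _ m1; linarith)
    (fun j hj => by rw [one_mul]; exact o12 _ m1 j hj) w1 g1 1
  have h3 := lemD_half C σ v w c2 P0 P1 (-1) (-1) κ
    (fun j hj => by rw [lemD_anti]; have := o02 j hj _ m2; linarith)
    (fun j hj => by rw [lemD_anti]; have := o12 j hj _ m2; linarith) w2 g2 1
  simp only [one_mul] at h1 h2 h3
  have e : ∀ t : ℝ, (0 < -1 * t) ↔ t < 0 := fun t => by constructor <;> intro h <;> linarith
  simp only [e] at h2 h3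
  rw [abs_le] at h1 h2 h3
  linarith [h1.1, h1.2, h2.1, h2.2, h3.1, h3.2]

open Classical in
/-- steps (4): the rich line through a good point of the first class -/
theorem lemD_line (C : Cfg n) (σ : Fin n → ℝ) (hσ : ∀ i, σ i = 1 ∨ σ i = -1) (v : E)
    (P0 P1 P2 : Finset (Fin n)) (κ : ℝ) (hκ1 : κ ≤ 1 / 50)
    (n1 : 0 < P1.card) (n2 : 0 < P2.card)
    (o01 : ∀ i ∈ P0, ∀ j ∈ P1, 0 < det3 (σ i • C.u i) (σ j • C.u j) v)
    (o02 : ∀ i ∈ P0, ∀ j ∈ P2, 0 < det3 (σ i • C.u i) (σ j • C.u j) v)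
    (o12 : ∀ i ∈ P1, ∀ j ∈ P2, 0 < det3 (σ i • C.u i) (σ j • C.u j) v)
    (b1 : ((P1.filter fun i => ¬ lemD_good C P0 P2 κ i).card : ℝ) ≤ κ * P1.card)
    (b2 : ((P2.filter fun i => ¬ lemD_good C P0 P1 κ i).card : ℝ) ≤ κ * P2.card)
    (c0 : Fin n) (m0 : c0 ∈ P0) (g0 : lemD_good C P1 P2 κ c0) :
    ∃ g ∈ C.L, c0 ∈ g ∧ (1 - 9 * κ) * (P1.card : ℝ) ≤ ((g ∩ P1).card : ℝ) := by
  have n1' : (0 : ℝ) < P1.card := by exact_mod_cast n1
  have n2' : (0 : ℝ) < P2.card := by exact_mod_cast n2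
  set x : E := σ c0 • C.u c0 with hx
  have hx1 : ‖x‖ = 1 := by
    rw [hx, norm_smul, C.unit, mul_one]
    rcases hσ c0 with h | h <;> rw [h] <;> norm_num
  set z : E := v - ip v x • x with hz
  have hxz : ip x z = 0 := by
    have h1 : ip x x = 1 := by simp [ip, hx1]
    have h2 : ip x z = ip x v - ip v x * ip x x := by
      simp only [ip, hz]
      rw [inner_sub_right, real_inner_smul_right]
    rw [h2, h1]
    simp only [ip]
    rw [real_inner_comm]
    ring
  have c0P1 : ∀ j ∈ P1, c0 ≠ j := fun j hj e => by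
    have := o01 c0 m0 j hj
    rw [← e, lemD_self] at this
    exact lt_irrefl _ this
  have hzv : 0 < ip z v := by
    obtain ⟨j, hj⟩ := Finset.card_pos.1 n1
    have hd := o01 c0 m0 j hj
    have h1 : ip z v = ip z z := by
      have h3 : v = z + ip v x • x := by rw [hz]; abel
      have h4 : ip z v = ip z z + ip v x * ip z x := by
        conv_lhs => rw [h3]
        simp only [ip]
        rw [inner_add_right, real_inner_smul_right]
      have h5 : ip z x = 0 := by
        simp only [ip] at hxz ⊢; rw [real_inner_comm]; exact hxz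
      rw [h4, h5]; ring
    have h2 : z ≠ 0 := by
      intro h0
      have h3 : v = ip v x • x := by
        have := hz; rw [h0] at this
        exact (sub_eq_zero.1 this.symm)
      rw [h3] at hd
      have : det3 x (σ j • C.u j) (ip v x • x) = 0 := by
        simp only [det3, PiLp.smul_apply, smul_eq_mul]; ring
      rw [← hx, this] at hd
      exact lt_irrefl _ hd
    rw [h1]
    simp only [ip]
    exact real_inner_self_pos.2 h2
  set S : Fin n → ℝ := fun j => ip (σ j • C.u j) z / det3 x (σ j • C.u j) v with hS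
  -- S is constant on lines through c0
  have hSl : ∀ y ∈ P1, ∀ j ∈ P1, j ∈ C.ln c0 y → S j = S y := by
    intro y hy j hj hjy
    have hne := c0P1 y hy
    have hr := lemD_rel C σ v z (C.ln_mem hne) (C.left_mem hne) hjy (C.right_mem hne) hxz
    have d1 := o01 c0 m0 y hy
    have d2 := o01 c0 m0 j hj
    rw [hS]
    simp only
    rw [div_eq_div_iff d2.ne' d1.ne']
    rw [← hx] at hr
    linarith
  set Sg : Finset (Fin n) := P1.filter fun y => lemD_good C P0 P2 κ y ∧
    ∃ k ∈ C.ln c0 y, k ∈ P2 ∧ lemD_good C P0 P1 κ k with hSg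
  set Rest : Finset (Fin n) := P1.filter fun j => ∀ y ∈ Sg, j ∉ C.ln c0 y with hRest
  have hcard : (Rest.card : ℝ) ≤ 3 * κ * P1.card := by
    set T : Finset (Fin n) := P1.filter fun j => ∀ k ∈ C.ln c0 j, k ∈ P2 →
      ¬ lemD_good C P0 P1 κ k with hT
    set B1 := P1.filter fun i => ¬ lemD_good C P0 P2 κ i with hB1
    set B2 := P2.filter fun i => ¬ lemD_good C P0 P1 κ i with hB2
    have hsub : Rest ⊆ B1 ∪ T := by
      intro j hj
      rw [hRest, Finset.mem_filter] at hj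
      rw [Finset.mem_union]
      by_contra hcon
      push Not at hcon
      obtain ⟨q1, q2⟩ := hcon
      have q3 : lemD_good C P0 P2 κ j := by
        by_contra h; exact q1 (Finset.mem_filter.2 ⟨hj.1, h⟩)
      have q4 : ∃ k ∈ C.ln c0 j, k ∈ P2 ∧ lemD_good C P0 P1 κ k := by
        by_contra h
        push Not at h
        exact q2 (Finset.mem_filter.2 ⟨hj.1, h⟩)
      exact hj.2 j (Finset.mem_filter.2 ⟨hj.1, q3, q4⟩) (C.right_mem (c0P1 j hj.1))
    have hTc : (T.card : ℝ) ≤ 2 * κ * P1.card := by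
      have hcT : c0 ∉ T := fun h => c0P1 c0 (Finset.mem_filter.1 h).1 rfl
      have hcB : c0 ∉ B2 := fun h => by
        have := o02 c0 m0 c0 (Finset.mem_filter.1 h).1
        rw [lemD_self] at this
        exact lt_irrefl _ this
      have e1 := lemD_count C c0 P1 P2 T hcT (fun j hj => Or.inl (Finset.mem_filter.1 hj).1)
      have e2 := lemD_count C c0 P1 P2 B2 hcB (fun j hj => Or.inr (Finset.mem_filter.1 hj).1)
      have e3 : (T.card : ℝ) / P1.card ≤ κ + (B2.card : ℝ) / P2.card := by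
        rw [e1, e2, Finset.sum_div, Finset.sum_div]
        refine le_trans ?_ (add_le_add g0 le_rfl)
        rw [← Finset.sum_add_distrib]
        refine Finset.sum_le_sum fun l hl => ?_
        rw [lemD_thr, Finset.mem_filter] at hl
        by_cases hlT : (l ∩ T).Nonempty
        · obtain ⟨j, hj⟩ := hlT
          rw [Finset.mem_inter] at hj
          have hj2 := Finset.mem_filter.1 hj.2
          have hl2 : C.ln c0 j = l := C.ln_eq hl.1 (c0P1 j hj2.1) hl.2.1 hj.1
          have e4 : l ∩ P2 = l ∩ B2 := by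
            ext k
            simp only [hB2, Finset.mem_inter, Finset.mem_filter]
            refine ⟨fun h => ⟨h.1, h.2, hj2.2 k (hl2 ▸ h.1) h.2⟩, fun h => ⟨h.1, h.2.1⟩⟩
          have e5 : ((l ∩ T).card : ℝ) / P1.card ≤ ((l ∩ P1).card : ℝ) / P1.card := by
            refine div_le_div_of_nonneg_right ?_ n1'.le
            exact_mod_cast Finset.card_le_card
              (Finset.inter_subset_inter_left (Finset.filter_subset _ _))
          have e6 := le_abs_self (((l ∩ P1).card : ℝ) / P1.card - ((l ∩ P2).card : ℝ) / P2.card)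
          rw [← e4]
          linarith
        · rw [Finset.not_nonempty_iff_eq_empty] at hlT
          rw [hlT]
          simp only [Finset.card_empty, Nat.cast_zero, zero_div]
          positivity
      have e7 : (B2.card : ℝ) / P2.card ≤ κ := by
        rw [div_le_iff₀ n2']; exact b2
      rw [div_le_iff₀ n1'] at e3
      calc (T.card : ℝ) ≤ (κ + (B2.card : ℝ) / P2.card) * P1.card := e3
        _ ≤ (κ + κ) * P1.card := by gcongr
        _ = 2 * κ * P1.card := by ring
    calc (Rest.card : ℝ) ≤ ((B1 ∪ T).card : ℝ) := by exact_mod_cast Finset.card_le_card hsub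
      _ ≤ (B1.card : ℝ) + T.card := by exact_mod_cast Finset.card_union_le _ _
      _ ≤ κ * P1.card + 2 * κ * P1.card := add_le_add b1 hTc
      _ = 3 * κ * P1.card := by ring
  -- Sg is not empty
  have hSgne : Sg.Nonempty := by
    by_contra hne
    rw [Finset.not_nonempty_iff_eq_empty] at hne
    have : Rest = P1 := by
      rw [hRest, hne]; simp
    rw [this] at hcard
    nlinarith
  obtain ⟨y0, hy0, hmin⟩ := Finset.exists_min_image Sg S hSgne
  have hy0' := Finset.mem_filter.1 hy0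
  have hne0 := c0P1 y0 hy0'.1
  obtain ⟨ν, hν, hν'⟩ := C.nu _ (C.ln_mem hne0)
  have d0 := o01 c0 m0 y0 hy0'.1
  have hsig : ∀ k, ip (σ k • C.u k) ν = σ k * ip (C.u k) ν := fun k => by
    simp only [ip]; rw [real_inner_smul_left]
  have hxν : ip x ν = 0 := by
    rw [hx, hsig, (hν' c0).1 (C.left_mem hne0), mul_zero]
  have hyν : ip (σ y0 • C.u y0) ν = 0 := by
    rw [hsig, (hν' y0).1 (C.right_mem hne0), mul_zero]
  have hνv : ip ν v ≠ 0 := by
    intro h
    have h' : ip v ν = 0 := by simp only [ip] at h ⊢; rw [real_inner_comm]; exact h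
    have := lemD_det0 ν x (σ y0 • C.u y0) v hν hxν hyν h'
    rw [hx] at this
    rw [this] at d0
    exact lt_irrefl _ d0
  -- oriented normal
  obtain ⟨w, hwv, hwl⟩ : ∃ w : E, 0 < ip w v ∧ ∀ k, ip (σ k • C.u k) w = 0 ↔ k ∈ C.ln c0 y0 := by
    have hk : ∀ k, ip (σ k • C.u k) ν = 0 ↔ k ∈ C.ln c0 y0 := by
      intro k
      rw [hsig, hν']
      rcases hσ k with h | h <;> rw [h] <;> simp
    rcases lt_or_gt_of_ne hνv with h | h
    · refine ⟨-ν, ?_, fun k => ?_⟩
      · simp only [ip] at h ⊢; rw [inner_neg_left]; linarith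
      · rw [← hk k]; simp only [ip]; rw [inner_neg_right, neg_eq_zero]
    · exact ⟨ν, h, hk⟩
  have hxw : ip x w = 0 := (hwl c0).2 (C.left_mem hne0)
  have hyw : ip (σ y0 • C.u y0) w = 0 := (hwl y0).2 (C.right_mem hne0)
  have hbelow : (P1.filter fun j => ip (σ j • C.u j) w < 0) ⊆ Rest := by
    intro j hj
    rw [Finset.mem_filter] at hj
    rw [hRest, Finset.mem_filter]
    refine ⟨hj.1, fun y hy hjy => ?_⟩
    have hyP := (Finset.mem_filter.1 hy).1
    have hSj := hSl y hyP j hj.1 hjy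
    have hmy := hmin y hy
    have i1 := lemD_id2 x (σ j • C.u j) v w z hx1 hxw hxz
    have i2 := lemD_id2 x (σ y0 • C.u y0) v w z hx1 hxw hxz
    rw [hyw] at i2
    have dj := o01 c0 m0 j hj.1
    rw [← hx] at dj d0
    have e1 : ip (σ j • C.u j) z = S j * det3 x (σ j • C.u j) v := by
      rw [hS]; simp only; rw [div_mul_cancel₀ _ dj.ne']
    have e2 : ip (σ y0 • C.u y0) z = S y0 * det3 x (σ y0 • C.u y0) v := by
      rw [hS]; simp only; rw [div_mul_cancel₀ _ d0.ne']
    rw [e1] at i1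
    rw [e2] at i2
    have i3 : det3 x w z = - (ip w v * S y0) := by
      have : (det3 x w z + ip w v * S y0) * det3 x (σ y0 • C.u y0) v = 0 := by
        linear_combination -i2
      rcases mul_eq_zero.1 this with h | h
      · linarith
      · exact absurd h d0.ne'
    rw [i3] at i1
    have i4 : ip z v * ip (σ j • C.u j) w =
        ip w v * det3 x (σ j • C.u j) v * (S j - S y0) := by
      linear_combination i1
    have i5 : ip z v * ip (σ j • C.u j) w < 0 := mul_neg_of_pos_of_neg hzv hj.2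
    have i6 : 0 ≤ ip w v * det3 x (σ j • C.u j) v * (S j - S y0) := by
      have : 0 ≤ S j - S y0 := by rw [hSj]; linarith
      positivity
    linarith
  obtain ⟨k, hk1, hk2, hk3⟩ := hy0'.2.2
  have hhalf := lemD_halving C σ v w P0 P1 P2 κ o01 o02 o12 c0 y0 k m0 hy0'.1 hk2 hxw hyw
    ((hwl k).2 hk1) g0 hy0'.2.1 hk3
  refine ⟨C.ln c0 y0, C.ln_mem hne0, C.left_mem hne0, ?_⟩
  set Bl := P1.filter fun j => ip (σ j • C.u j) w < 0 with hBl
  set Ab := P1.filter fun j => 0 < ip (σ j • C.u j) w with hAb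
  have hB : (Bl.card : ℝ) ≤ 3 * κ * P1.card :=
    le_trans (by exact_mod_cast Finset.card_le_card hbelow) hcard
  have hA : (Ab.card : ℝ) ≤ 6 * κ * P1.card := by
    rw [div_add' _ _ _ n1'.ne', div_le_div_iff_of_pos_right n1'] at hhalf
    linarith
  have hcov : P1 ⊆ (C.ln c0 y0 ∩ P1) ∪ (Bl ∪ Ab) := by
    intro j hj
    simp only [hBl, hAb, Finset.mem_union, Finset.mem_inter, Finset.mem_filter]
    rcases lt_trichotomy (ip (σ j • C.u j) w) 0 with h | h | h
    · exact Or.inr (Or.inl ⟨hj, h⟩)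
    · exact Or.inl ⟨(hwl j).1 h, hj⟩
    · exact Or.inr (Or.inr ⟨hj, h⟩)
  have hcc : (P1.card : ℝ) ≤ ((C.ln c0 y0 ∩ P1).card : ℝ) + (Bl.card + Ab.card) := by
    have h1 := Finset.card_le_card hcov
    have h2 := Finset.card_union_le (C.ln c0 y0 ∩ P1) (Bl ∪ Ab)
    have h3 := Finset.card_union_le Bl Ab
    have : P1.card ≤ (C.ln c0 y0 ∩ P1).card + (Bl.card + Ab.card) := by omega
    exact_mod_cast this
  linarith

open Classical in
theorem lemD (C : Cfg n) (v : E) (hv : ‖v‖ = 1) (σ : Fin n → ℝ) (hσ : ∀ i, σ i = 1 ∨ σ i = -1)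
    (P : Fin 3 → Finset (Fin n))
    (hor : ∀ a b : Fin 3, a < b → ∀ i ∈ P a, ∀ j ∈ P b,
      0 < det3 (σ i • C.u i) (σ j • C.u j) v)
    (κ : ℝ) (h0 : 0 < κ) (h1 : κ ≤ 1 / 50) (hc : ∀ a, 50 ≤ (P a).card)
    (hb : ∀ a b c : Fin 3, a ≠ b → a ≠ c → b ≠ c →
      ∑ l ∈ C.L.filter (fun l => (∃ i ∈ l, i ∈ P a) ∧ ∃ j ∈ l, j ∈ P b ∨ j ∈ P c),
        ((l ∩ P a).card : ℝ) *
          |((l ∩ P b).card : ℝ) / (P b).card - ((l ∩ P c).card : ℝ) / (P c).card|
        ≤ κ ^ 2 * (P a).card) :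
    ∃ l ∈ C.L, ∀ a, (1 - 10 * κ) * ((P a).card : ℝ) ≤ ((l ∩ P a).card : ℝ) := by
  have o01 := hor 0 1 (by decide)
  have o02 := hor 0 2 (by decide)
  have o12 := hor 1 2 (by decide)
  have b0 := lemD_bad C (P 0) (P 1) (P 2) κ h0 (hb 0 1 2 (by decide) (by decide) (by decide))
  have b1 := lemD_bad C (P 1) (P 0) (P 2) κ h0 (hb 1 0 2 (by decide) (by decide) (by decide))
  have b2 := lemD_bad C (P 2) (P 0) (P 1) κ h0 (hb 2 0 1 (by decide) (by decide) (by decide))
  have np : ∀ a, 0 < (P a).card := fun a => by have := hc a; omega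
  have np' : ∀ a, (50 : ℝ) ≤ (P a).card := fun a => by exact_mod_cast hc a
  have line := fun (c : Fin n) (m : c ∈ P 0) (g : lemD_good C (P 1) (P 2) κ c) =>
    lemD_line C σ hσ v (P 0) (P 1) (P 2) κ h1 (np 1) (np 2) o01 o02 o12 b1 b2 c m g
  -- a good point of the first class
  have hex : ∃ c ∈ P 0, lemD_good C (P 1) (P 2) κ c := by
    by_contra hcon
    push Not at hcon
    have e : (P 0).filter (fun i => ¬ (∑ l ∈ lemD_thr C i (P 1) (P 2),
        |((l ∩ P 1).card : ℝ) / (P 1).card - ((l ∩ P 2).card : ℝ) / (P 2).card| ≤ κ)) = P 0 := by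
      rw [Finset.filter_eq_self]
      exact fun i hi => hcon i hi
    rw [e] at b0
    have := np' 0
    nlinarith
  obtain ⟨c, mc, gc⟩ := hex
  obtain ⟨g, hg, hcg, hg1⟩ := line c mc gc
  -- all good points of the first class are on g
  have hall : ∀ c' ∈ P 0, lemD_good C (P 1) (P 2) κ c' → c' ∈ g := by
    intro c' mc' gc'
    obtain ⟨g', hg', hcg', hg1'⟩ := line c' mc' gc'
    have h3 : (2 : ℝ) ≤ (((g ∩ P 1) ∩ (g' ∩ P 1)).card : ℝ) := by
      have h4 : ((g ∩ P 1) ∪ (g' ∩ P 1)).card ≤ (P 1).card := by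
        refine Finset.card_le_card (Finset.union_subset ?_ ?_) <;> exact Finset.inter_subset_right
      have h5 := Finset.card_union_add_card_inter (g ∩ P 1) (g' ∩ P 1)
      have h6 : ((g ∩ P 1).card : ℝ) + (g' ∩ P 1).card ≤
          (P 1).card + ((g ∩ P 1) ∩ (g' ∩ P 1)).card := by
        exact_mod_cast (by omega : (g ∩ P 1).card + (g' ∩ P 1).card ≤
          (P 1).card + ((g ∩ P 1) ∩ (g' ∩ P 1)).card)
      have := np' 1
      nlinarith
    have h3' : 1 < ((g ∩ P 1) ∩ (g' ∩ P 1)).card := by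
      have : (1 : ℝ) < (((g ∩ P 1) ∩ (g' ∩ P 1)).card : ℝ) := by linarith
      exact_mod_cast this
    obtain ⟨a, ha, b, hb', hab⟩ := Finset.one_lt_card.1 h3'
    simp only [Finset.mem_inter] at ha hb'
    have : g = g' := C.uniq g hg g' hg' a b hab ha.1.1 hb'.1.1 ha.2.1 hb'.2.1
    rw [this]; exact hcg'
  have hg0 : (1 - κ) * ((P 0).card : ℝ) ≤ ((g ∩ P 0).card : ℝ) := by
    have hcov : P 0 ⊆ (g ∩ P 0) ∪ (P 0).filter (fun i => ¬ (∑ l ∈ lemD_thr C i (P 1) (P 2),
        |((l ∩ P 1).card : ℝ) / (P 1).card - ((l ∩ P 2).card : ℝ) / (P 2).card| ≤ κ)) := by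
      intro i hi
      rw [Finset.mem_union, Finset.mem_inter, Finset.mem_filter]
      by_cases hgd : lemD_good C (P 1) (P 2) κ i
      · exact Or.inl ⟨hall i hi hgd, hi⟩
      · exact Or.inr ⟨hi, hgd⟩
    have h3 := (Finset.card_le_card hcov).trans (Finset.card_union_le _ _)
    have h4 : ((P 0).card : ℝ) ≤ ((g ∩ P 0).card : ℝ) + (((P 0).filter (fun i =>
        ¬ (∑ l ∈ lemD_thr C i (P 1) (P 2),
        |((l ∩ P 1).card : ℝ) / (P 1).card - ((l ∩ P 2).card : ℝ) / (P 2).card| ≤ κ))).card : ℝ) := by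
      exact_mod_cast h3
    linarith
  have hg2 : (1 - 10 * κ) * ((P 2).card : ℝ) ≤ ((g ∩ P 2).card : ℝ) := by
    have hne : ∃ j ∈ g, j ∈ P 1 ∨ j ∈ P 2 := by
      have : (0 : ℝ) < ((g ∩ P 1).card : ℝ) := by
        have := np' 1
        nlinarith
      obtain ⟨j, hj⟩ := Finset.card_pos.1 (by exact_mod_cast this)
      exact ⟨j, (Finset.mem_inter.1 hj).1, Or.inl (Finset.mem_inter.1 hj).2⟩
    have hmem : g ∈ lemD_thr C c (P 1) (P 2) := by
      rw [lemD_thr, Finset.mem_filter]; exact ⟨hg, hcg, hne⟩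
    have h3 := Finset.single_le_sum (f := fun l : Finset (Fin n) =>
      |((l ∩ P 1).card : ℝ) / (P 1).card - ((l ∩ P 2).card : ℝ) / (P 2).card|)
      (fun l _ => abs_nonneg _) hmem
    have h4 := h3.trans gc
    have h5 := (abs_le.1 h4).2
    have p1 : (0 : ℝ) < (P 1).card := by have := np' 1; linarith
    have p2 : (0 : ℝ) < (P 2).card := by have := np' 2; linarith
    have h6 : 1 - 9 * κ ≤ ((g ∩ P 1).card : ℝ) / (P 1).card := by
      rw [le_div_iff₀ p1]; exact hg1
    have h7 : 1 - 10 * κ ≤ ((g ∩ P 2).card : ℝ) / (P 2).card := by linarith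
    rwa [le_div_iff₀ p2] at h7
  refine ⟨g, hg, fun a => ?_⟩
  have h8 : ∀ a : Fin 3, a = 0 ∨ a = 1 ∨ a = 2 := by decide
  rcases h8 a with rfl | rfl | rfl
  · have := np' 0
    nlinarith
  · have := np' 1
    nlinarith
  · exact hg2

end Pool.Agent.H23.DR
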