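import Pool.Agent.H23.DR.TwoC
import Pool.Agent.H23.DR.LemD

/-!
# Module FS (about 130 lines): the finite form of the solid plane theorem

PROOF. `0 < n` (`hn`), `b ≤ 1` (`b n ≤ |P 0| ≤ n`). By `twoC` for `A = P a`, `B = P c` (the exceptional set of `e5` is the
union of two sets of size `≤ η n^2`), and for `A = P 0`, `B = NN` (for `p ∈ NN × NN` the second alternative is
impossible; `|NN| ≥ |P 0| ≥ b n`):
(1) `∑_{l ∈ Us} (n_a/N_a - n_c/N_c)^2 ≤ 36 η/b^2`, (2) the same for `P 0` and `NN`.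
Hypothesis `hb` of `lemD`: a line which meets `P a` and `P b'` (`b' ≠ a`) is in `Us`: it is `C.ln i j` with
`i ∈ P a`, `j ∈ P b'` (`ln_eq`; `i ≠ j` by `hsep`), `near_line` and `2 r/ρ ≤ s/2`. By Cauchy-Schwarz, `∑ n_a^2 ≤ ∑ |l|^2 ≤ 2 n^2`
(`sum_card_sq`) and (1): the sum is at most `sqrt 2 n * 6 sqrt η / b ≤ κ^2 b n ≤ κ^2 N_a`
(`72 η ≤ b^4 κ^4`). So `lemD` gives a line `l` with `n_a(l) ≥ (1 - 10 κ) N_a > 0`, `l ∈ Us`, so all its
points are within `s`. By (2) `|n_0(l)/N_0 - |l ∩ NN|/|NN|| ≤ 6 sqrt η / b ≤ κ`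
(`6 sqrt η ≤ b^2 κ^2`, `b, κ ≤ 1`), so `|l| ≥ |l ∩ NN| ≥ (1 - 11 κ) |NN|`.
-/

namespace Pool.Agent.H23.DR

open H47.DR Finset

variable {n : ℕ}

/-- A line containing `i`, `j` near the plane, not almost parallel, is in `Us`. -/
private theorem FS_Us (C : Cfg n) (v : E) (r s ρ : ℝ) (hs : 0 < s) (hρ : 0 < ρ)
    (h4 : 4 * r ≤ s * ρ) {l : Finset (Fin n)} (hl : l ∈ C.L) {i j : Fin n} (hij : i ≠ j)
    (hi : i ∈ l) (hj : j ∈ l) (hir : |ip (C.u i) v| ≤ r) (hjr : |ip (C.u j) v| ≤ r)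
    (hp : ip (C.u i) (C.u j) ^ 2 ≤ 1 - ρ ^ 2) : l ∈ Us C v s := by
  unfold Us
  rw [Finset.mem_filter]
  refine ⟨hl, fun k hk => ?_⟩
  have e := C.ln_eq hl hij hi hj
  rw [← e] at hk
  refine (near_line C v r ρ hρ hij hir hjr hp hk).trans ?_
  rw [div_le_iff₀ hρ]
  nlinarith [mul_pos hs hρ]

/-- Cauchy-Schwarz for a subset of the lines. -/
private theorem FS_cs (C : Cfg n) (v : E) (s η b κ : ℝ) (hb : 0 < b)
    (hκη : 72 * η ≤ b ^ 4 * κ ^ 4) (S : Finset (Finset (Fin n)))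
    (hS : S ⊆ Us C v s) (f g : Finset (Fin n) → ℝ)
    (hf : ∀ l ∈ S, |f l| ≤ (l.card : ℝ))
    (hg : ∑ l ∈ Us C v s, g l ^ 2 ≤ 36 * η / b ^ 2) :
    ∑ l ∈ S, f l * |g l| ≤ κ ^ 2 * (b * n) := by
  have h1 : (∑ l ∈ S, f l * |g l|) ^ 2 ≤ (∑ l ∈ S, f l ^ 2) * ∑ l ∈ S, |g l| ^ 2 :=
    Finset.sum_mul_sq_le_sq_mul_sq S f (fun l => |g l|)
  have hSL : S ⊆ C.L := fun l hl => by
    have := hS hl
    unfold Us at this
    exact (Finset.mem_filter.1 this).1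
  have h2 : ∑ l ∈ S, f l ^ 2 ≤ 2 * (n : ℝ) ^ 2 := by
    refine le_trans ?_ C.sum_card_sq
    refine le_trans (Finset.sum_le_sum fun l hl => ?_)
      (Finset.sum_le_sum_of_subset_of_nonneg hSL fun l _ _ => sq_nonneg _)
    rw [← sq_abs]
    exact pow_le_pow_left₀ (abs_nonneg _) (hf l hl) 2
  have h3 : ∑ l ∈ S, |g l| ^ 2 ≤ 36 * η / b ^ 2 := by
    refine le_trans ?_ hg
    simp only [sq_abs]
    exact Finset.sum_le_sum_of_subset_of_nonneg hS fun l _ _ => sq_nonneg _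
  have h4 : 0 ≤ ∑ l ∈ S, |g l| ^ 2 := Finset.sum_nonneg fun l _ => sq_nonneg _
  have h5 : (∑ l ∈ S, f l * |g l|) ^ 2 ≤ (κ ^ 2 * (b * n)) ^ 2 := by
    refine h1.trans ((mul_le_mul h2 h3 h4 (by positivity)).trans ?_)
    have e : (κ ^ 2 * (b * n)) ^ 2 = 2 * (n : ℝ) ^ 2 * ((b ^ 4 * κ ^ 4 / 2) / b ^ 2) := by
      field_simp
    rw [e]
    refine mul_le_mul_of_nonneg_left ?_ (by positivity)
    refine div_le_div_of_nonneg_right ?_ (by positivity)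
    linarith
  exact abs_le_of_sq_le_sq' h5 (by positivity) |>.2

open Classical in
theorem finSolid (C : Cfg n) (v : E) (hv : ‖v‖ = 1) (r s ρ η b κ : ℝ) (hr : 0 < r) (hs : 0 < s)
    (hρ : 0 < ρ) (hρ1 : ρ ≤ 1) (h4 : 4 * r ≤ s * ρ) (hη : 0 ≤ η) (hb : 0 < b) (hκ : 0 < κ)
    (hκ1 : κ ≤ 1 / 50) (hκη : 72 * η ≤ b ^ 4 * κ ^ 4) (hn : 50 ≤ b * n)
    (σ : Fin n → ℝ) (hσ : ∀ i, σ i = 1 ∨ σ i = -1) (P : Fin 3 → Finset (Fin n))
    (hor : ∀ a b : Fin 3, a < b → ∀ i ∈ P a, ∀ j ∈ P b,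
      0 < det3 (σ i • C.u i) (σ j • C.u j) v)
    (hP : ∀ a, P a ⊆ NN C v r) (hcard : ∀ a, b * n ≤ ((P a).card : ℝ))
    (hsep : ∀ a b : Fin 3, a ≠ b → ∀ i ∈ P a, ∀ j ∈ P b,
      ip (C.u i) (C.u j) ^ 2 ≤ 1 - ρ ^ 2)
    (e1 : ∑ l ∈ C.L, (l.card : ℝ) * Real.sqrt (C.T l) ≤ η * (n : ℝ) ^ 2)
    (e2 : ((univ.filter fun j => r < |ip (C.u j) v| ∧ |ip (C.u j) v| ≤ s).card : ℝ) ≤ η * n)
    (e3 : ρ ^ 2 ≤ η)
    (e4 : ∀ i ∈ NN C v r, |∑ j ∈ NN C v r, (1 - 2 * ip (C.u i) (C.u j) ^ 2)| ≤ η * n)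
    (e5 : ∀ a, (((NN C v r ×ˢ NN C v r).filter fun p =>
      1 - ρ ^ 2 ≤ ip (C.u p.1) (C.u p.2) ^ 2 ∧ ¬(p.1 ∈ P a ↔ p.2 ∈ P a)).card : ℝ)
      ≤ η * (n : ℝ) ^ 2) :
    ∃ l ∈ C.L, (1 - 11 * κ) * ((NN C v r).card : ℝ) ≤ (l.card : ℝ) ∧
      ∀ i ∈ l, |ip (C.u i) v| ≤ s := by
  have hnn : (0 : ℝ) ≤ n := Nat.cast_nonneg n
  have hn0 : 0 < n := by
    rcases Nat.eq_zero_or_pos n with h | h
    · subst h; norm_num at hn
    · exact h
  have hn0' : (0 : ℝ) < n := by exact_mod_cast hn0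
  have hbn : 0 < b * n := by positivity
  have hcpos : ∀ a, (0 : ℝ) < ((P a).card : ℝ) := fun a => lt_of_lt_of_le hbn (hcard a)
  have hb1 : b ≤ 1 := by
    have h1 := hcard 0
    have h2 : ((P 0).card : ℝ) ≤ n := by
      have := Finset.card_le_univ (P 0)
      rw [Fintype.card_fin] at this
      exact_mod_cast this
    by_contra hcon
    push Not at hcon
    nlinarith
  have hκ1' : κ ≤ 1 := by linarith
  have hNN : b * n ≤ ((NN C v r).card : ℝ) := (hcard 0).trans (by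
    exact_mod_cast Finset.card_le_card (hP 0))
  have hNN0 : (0 : ℝ) < ((NN C v r).card : ℝ) := lt_of_lt_of_le hbn hNN
  -- the points of the parts are near the plane
  have hnear : ∀ a, ∀ i ∈ P a, |ip (C.u i) v| ≤ r := by
    intro a i hi
    have := hP a hi
    unfold NN at this
    exact (Finset.mem_filter.1 this).2
  have hne : ∀ a b' : Fin 3, a ≠ b' → ∀ i ∈ P a, ∀ j ∈ P b', i ≠ j := by
    rintro a b' hab i hi j hj rfl
    have h1 := hsep a b' hab i hi i hj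
    have h2 : ip (C.u i) (C.u i) = 1 := by
      simp only [ip]; rw [real_inner_self_eq_norm_sq, C.unit i]; norm_num
    rw [h2] at h1
    nlinarith [sq_nonneg ρ, mul_pos hρ hρ]
  -- (1) two classes
  have step1 : ∀ a c : Fin 3, ∑ l ∈ Us C v s, (((l ∩ P a).card : ℝ) / (P a).card -
      ((l ∩ P c).card : ℝ) / (P c).card) ^ 2 ≤ 36 * η / b ^ 2 := by
    intro a c
    refine twoC C v r s ρ η b hr hs hρ hρ1 h4 hη hb hn0 (P a) (P c) (hP a) (hP c) (hcard a)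
      (hcard c) e1 e2 e3 e4 ?_
    have ha := e5 a
    have hc := e5 c
    refine le_trans ?_ (le_of_le_of_eq (add_le_add ha hc) (by ring :
      η * (n : ℝ) ^ 2 + η * (n : ℝ) ^ 2 = 2 * η * (n : ℝ) ^ 2))
    norm_cast
    refine le_trans (Finset.card_le_card ?_) (Finset.card_union_le _ _)
    intro p hp
    rw [Finset.mem_filter] at hp
    rw [Finset.mem_union, Finset.mem_filter, Finset.mem_filter]
    rcases hp.2.2 with h | h
    · exact Or.inl ⟨hp.1, hp.2.1, h⟩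
    · exact Or.inr ⟨hp.1, hp.2.1, h⟩
  -- (2) the class of `0` and all points near the plane
  have step2 : ∑ l ∈ Us C v s, (((l ∩ P 0).card : ℝ) / (P 0).card -
      ((l ∩ NN C v r).card : ℝ) / (NN C v r).card) ^ 2 ≤ 36 * η / b ^ 2 := by
    refine twoC C v r s ρ η b hr hs hρ hρ1 h4 hη hb hn0 (P 0) (NN C v r) (hP 0)
      (Finset.Subset.refl _) (hcard 0) hNN e1 e2 e3 e4 ?_
    have ha := e5 0
    have hpos : 0 ≤ η * (n : ℝ) ^ 2 := by positivity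
    refine le_trans ?_ (le_trans ha (by linarith))
    norm_cast
    refine Finset.card_le_card ?_
    intro p hp
    rw [Finset.mem_filter] at hp
    rw [Finset.mem_filter]
    rcases hp.2.2 with h | h
    · exact ⟨hp.1, hp.2.1, h⟩
    · exfalso
      rw [Finset.mem_product] at hp
      exact h ⟨fun _ => hp.1.2, fun _ => hp.1.1⟩
  -- the line
  have hc50 : ∀ a, 50 ≤ (P a).card := fun a => by
    have := hn.trans (hcard a)
    exact_mod_cast this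
  obtain ⟨l, hl, hla⟩ := lemD C v hv σ hσ P hor κ hκ hκ1 hc50 (by
    intro a b' c hab hac hbc
    refine le_trans (FS_cs C v s η b κ hb hκη _ ?_ (fun l => ((l ∩ P a).card : ℝ))
      (fun l => ((l ∩ P b').card : ℝ) / (P b').card - ((l ∩ P c).card : ℝ) / (P c).card) ?_
      (step1 b' c)) (mul_le_mul_of_nonneg_left (hcard a) (by positivity))
    · intro l hl
      rw [Finset.mem_filter] at hl
      obtain ⟨hlL, ⟨i, hil, hia⟩, j, hjl, hj⟩ := hl
      rcases hj with hj | hj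
      · exact FS_Us C v r s ρ hs hρ h4 hlL (hne a b' hab i hia j hj) hil hjl (hnear a i hia)
          (hnear b' j hj) (hsep a b' hab i hia j hj)
      · exact FS_Us C v r s ρ hs hρ h4 hlL (hne a c hac i hia j hj) hil hjl (hnear a i hia)
          (hnear c j hj) (hsep a c hac i hia j hj)
    · intro l _
      rw [abs_of_nonneg (Nat.cast_nonneg _)]
      exact_mod_cast Finset.card_le_card Finset.inter_subset_left)
  have hpos : ∀ a, ∃ i ∈ l, i ∈ P a := by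
    intro a
    have h1 := hla a
    have h2 : 0 < (1 - 10 * κ) * ((P a).card : ℝ) := mul_pos (by linarith) (hcpos a)
    have h3 : 0 < (l ∩ P a).card := by
      have := lt_of_lt_of_le h2 h1
      exact_mod_cast this
    obtain ⟨i, hi⟩ := Finset.card_pos.1 h3
    rw [Finset.mem_inter] at hi
    exact ⟨i, hi.1, hi.2⟩
  obtain ⟨i, hil, hi0⟩ := hpos 0
  obtain ⟨j, hjl, hj1⟩ := hpos 1
  have h01 : (0 : Fin 3) ≠ 1 := by decide
  have hUs : l ∈ Us C v s := FS_Us C v r s ρ hs hρ h4 hl (hne 0 1 h01 i hi0 j hj1) hil hjl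
    (hnear 0 i hi0) (hnear 1 j hj1) (hsep 0 1 h01 i hi0 j hj1)
  refine ⟨l, hl, ?_, ?_⟩
  · have h1 := Finset.single_le_sum (f := fun l => (((l ∩ P 0).card : ℝ) / (P 0).card -
      ((l ∩ NN C v r).card : ℝ) / (NN C v r).card) ^ 2) (fun l _ => sq_nonneg _) hUs
    have h2 := h1.trans step2
    have h3 : 36 * η / b ^ 2 ≤ κ ^ 2 := by
      rw [div_le_iff₀ (by positivity)]
      have h5 : b ^ 4 * κ ^ 4 ≤ b ^ 2 * κ ^ 2 := by
        have e : b ^ 4 * κ ^ 4 = (b ^ 2 * κ ^ 2) * (b * κ) ^ 2 := by ring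
        rw [e]
        have h6 : (b * κ) ^ 2 ≤ 1 := by
          have h7 : b * κ ≤ 1 := by nlinarith
          have h8 : 0 ≤ b * κ := by positivity
          nlinarith
        have h9 : 0 ≤ b ^ 2 * κ ^ 2 := by positivity
        nlinarith
      nlinarith [mul_pos (pow_pos hb 2) (pow_pos hκ 2)]
    have h4' : ((l ∩ P 0).card : ℝ) / (P 0).card - ((l ∩ NN C v r).card : ℝ) / (NN C v r).card ≤ κ :=
      abs_le_of_sq_le_sq' (h2.trans h3) hκ.le |>.2
    have h5 : 1 - 10 * κ ≤ ((l ∩ P 0).card : ℝ) / (P 0).card := by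
      rw [le_div_iff₀ (hcpos 0)]; exact hla 0
    have h6 : 1 - 11 * κ ≤ ((l ∩ NN C v r).card : ℝ) / (NN C v r).card := by linarith
    rw [le_div_iff₀ hNN0] at h6
    refine h6.trans ?_
    exact_mod_cast Finset.card_le_card Finset.inter_subset_left
  · unfold Us at hUs
    exact (Finset.mem_filter.1 hUs).2

end Pool.Agent.H23.DR
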