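import Pool.Agent.H23.DR.Base
import Pool.Agent.H47.DR.Ang
import Pool.Agent.H47.DR.LSb

/-!
# Module Fin4 (about 200 lines): lines with at most four points

PROOF. `∑_i deg i = ∑_{i ≠ j} 1/(r i j - 1)` (`LS.deg_eq`), `1/(r - 1) ≤ 1/4` if `r ≥ 5`, `≤ 1` always; so with `g2`
`n^2/3 ≤ n^2/4 + #{(i,j) : i ≠ j, r i j ≤ 4}`. Let `τ = 4 θ^3 ≤ θ ≤ 1/2` and `l = C.ln i j`, `|l| = r i j ≤ 4`.
(1) `T l > τ^2`: there are at most `ε n^2/τ^2` such lines (`g3`, `T_nonneg`), each has at most 12 ordered pairs: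
at most `12 ε n^2/(16 θ^6) ≤ ε n^2/θ^6` pairs. (2) `T l ≤ τ^2`. Unit complex numbers `ζ` of the
double angles (`ang` for the normal of `l`): `T l = |∑ ζ|^2`, `2 ip^2 - 1 = Re (ζ conj ζ')`, so
`|ζ + ζ'| = 2 |ip|`. `|l| = 2`: `|ζ1 + ζ2| ≤ τ`, `|ip| ≤ τ/2 ≤ θ`. `|l| = 3`: `|ζ1 + ζ2|` is within `τ` of
`|ζ3| = 1`, so `|4 ip^2 - 1| ≤ 2 τ + τ^2 ≤ 3 τ`, `|ip^2 - 1/4| ≤ θ`. So for `|l| ≤ 3` the pair is in `D`.
`|l| = 4`: identity for unit numbers, `S = ζ0 + ζ1 + ζ2 + ζ3`: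
`(ζ0 + ζ1)(ζ0 + ζ2)(ζ0 + ζ3) = ζ0^2 S + ζ0 ζ1 ζ2 ζ3 conj S - ...`: precisely, with
`e2 = ζ1 ζ2 + ζ1 ζ3 + ζ2 ζ3`, `e3 = ζ1 ζ2 ζ3`: product `= ζ0^3 + ζ0^2 e1 + ζ0 e2 + e3 = ζ0^2 S + ζ0 e3 conj(S)`
because `e2 = e3 conj(e1)` and `e3 = ζ0 e3 conj(ζ0)`. So the product of the three `2 |ip|` is at most
`2 |S| ≤ 2 τ = 8 θ^3`: one of the three `|ip|` is at most `θ`. So each such line has an ordered pair in `D` and its
mirror image: the 12 ordered pairs are at most 6 times the number of its ordered pairs in `D`; sum over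
the lines (different lines have different pairs). Total at most `(1 + 6) #D`.
-/

namespace Pool.Agent.H23.DR

open H47.DR Finset

variable {n : ℕ}

/-- pairs of points with angle near 90 or 60 degrees -/
def DD (θ : ℝ) : Set (S2 × S2) := {p | |ip p.1 p.2| ≤ θ ∨ |ip p.1 p.2 ^ 2 - 1 / 4| ≤ θ}

private theorem fin4_conj {z : ℂ} (h : ‖z‖ = 1) : z * (starRingEnd ℂ) z = 1 := by
  rw [Complex.mul_conj, Complex.normSq_eq_norm_sq, h]
  norm_num

private theorem fin4_four {z0 z1 z2 z3 : ℂ} (h0 : ‖z0‖ = 1) (h1 : ‖z1‖ = 1) (h2 : ‖z2‖ = 1)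
    (h3 : ‖z3‖ = 1) :
    ‖z0 + z1‖ * ‖z0 + z2‖ * ‖z0 + z3‖ ≤ 2 * ‖z0 + z1 + z2 + z3‖ := by
  have e : (z0 + z1) * (z0 + z2) * (z0 + z3) = z0 ^ 2 * (z0 + z1 + z2 + z3) +
      z0 * z1 * z2 * z3 * (starRingEnd ℂ) (z0 + z1 + z2 + z3) := by
    have c0 := fin4_conj h0
    have c1 := fin4_conj h1
    have c2 := fin4_conj h2
    have c3 := fin4_conj h3
    simp only [map_add]
    linear_combination (-(z1 * z2 * z3)) * c0 - (z0 * z2 * z3) * c1 - (z0 * z1 * z3) * c2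
      - (z0 * z1 * z2) * c3
  rw [← norm_mul, ← norm_mul, e]
  refine (norm_add_le _ _).trans ?_
  rw [norm_mul, norm_mul, norm_pow, h0, norm_mul, norm_mul, norm_mul, h0, h1, h2, h3,
    Complex.norm_conj]
  linarith

private theorem fin4_two {z w : ℂ} {c : ℝ} (hz : ‖z‖ = 1) (hw : ‖w‖ = 1)
    (h : 2 * c ^ 2 - 1 = (z * (starRingEnd ℂ) w).re) : ‖z + w‖ = 2 * |c| := by
  have h1 : ‖z + w‖ ^ 2 = (2 * |c|) ^ 2 := by
    rw [← Complex.normSq_eq_norm_sq, Complex.normSq_add, Complex.normSq_eq_norm_sq,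
      Complex.normSq_eq_norm_sq, hz, hw, ← h, mul_pow, sq_abs]
    ring
  exact (sq_eq_sq₀ (norm_nonneg _) (by positivity)).1 h1

private theorem fin4_line (C : Cfg n) {l : Finset (Fin n)} (hl : l ∈ C.L) (h4 : l.card ≤ 4)
    {θ : ℝ} (h0 : 0 < θ) (h1 : θ ≤ 1 / 2) (hT : C.T l ≤ (4 * θ ^ 3) ^ 2) {i : Fin n}
    (hi : i ∈ l) : ∃ j ∈ l, j ≠ i ∧ (C.us i, C.us j) ∈ DD θ := by
  obtain ⟨ν, hν, hn⟩ := C.nu l hl
  obtain ⟨ζ, hz1, hz2⟩ := ang ν hν
  obtain ⟨z, hz⟩ : ∃ z : Fin n → ℂ, z = fun j => ζ (C.u j) := ⟨_, rfl⟩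
  have hzn : ∀ j ∈ l, ‖z j‖ = 1 := by
    intro j hj
    rw [hz]
    exact hz1 _ ((hn j).1 hj) (C.unit j)
  have hip : ∀ j ∈ l, ∀ k ∈ l, 2 * ip (C.u j) (C.u k) ^ 2 - 1
      = (z j * (starRingEnd ℂ) (z k)).re := by
    intro j hj k hk
    rw [hz]
    exact hz2 _ _ ((hn j).1 hj) ((hn k).1 hk) (C.unit j) (C.unit k)
  have hTS : C.T l = ‖∑ j ∈ l, z j‖ ^ 2 := by
    have h2 : ‖∑ j ∈ l, z j‖ ^ 2 = ((∑ j ∈ l, z j) * (starRingEnd ℂ) (∑ j ∈ l, z j)).re := by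
      rw [Complex.mul_conj, Complex.ofReal_re, Complex.normSq_eq_norm_sq]
    rw [h2, map_sum, Finset.sum_mul_sum, Complex.re_sum]
    unfold Cfg.T
    refine Finset.sum_congr rfl fun j hj => ?_
    rw [Complex.re_sum]
    exact Finset.sum_congr rfl fun k hk => hip j hj k hk
  obtain ⟨τ, hτ⟩ : ∃ τ, τ = 4 * θ ^ 3 := ⟨_, rfl⟩
  have hτ0 : 0 < τ := by rw [hτ]; positivity
  have hθ2 : θ ^ 2 ≤ 1 / 4 := by nlinarith
  have hτθ : τ ≤ θ := by
    rw [hτ]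
    have : θ ^ 3 = θ ^ 2 * θ := by ring
    nlinarith
  have hS : ‖∑ j ∈ l, z j‖ ≤ τ := by
    rw [hTS, ← hτ] at hT
    exact (sq_le_sq₀ (norm_nonneg _) hτ0.le).1 hT
  have h2c := C.two l hl
  have hsum : ∑ j ∈ l, z j = z i + ∑ j ∈ l.erase i, z j := (Finset.add_sum_erase l z hi).symm
  have hpair : ∀ j ∈ l, ‖z i + z j‖ = 2 * |ip (C.u i) (C.u j)| := fun j hj =>
    fin4_two (hzn i hi) (hzn j hj) (hip i hi j hj)
  have hcard : (l.erase i).card = l.card - 1 := Finset.card_erase_of_mem hi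
  have hcases : (l.erase i).card = 1 ∨ (l.erase i).card = 2 ∨ (l.erase i).card = 3 := by omega
  rcases hcases with hc | hc | hc
  · obtain ⟨j, hj⟩ := Finset.card_eq_one.1 hc
    have hjl : j ∈ l.erase i := by rw [hj]; exact Finset.mem_singleton_self j
    obtain ⟨hji, hjl⟩ := Finset.mem_erase.1 hjl
    refine ⟨j, hjl, hji, Or.inl ?_⟩
    rw [hsum, hj, Finset.sum_singleton, hpair j hjl] at hS
    show |ip (C.u i) (C.u j)| ≤ θ
    linarith [abs_nonneg (ip (C.u i) (C.u j))]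
  · obtain ⟨j, k, hjk, hjk'⟩ := Finset.card_eq_two.1 hc
    have hjl : j ∈ l.erase i := by rw [hjk']; simp
    have hkl : k ∈ l.erase i := by rw [hjk']; simp
    obtain ⟨hji, hjl⟩ := Finset.mem_erase.1 hjl
    obtain ⟨hki, hkl⟩ := Finset.mem_erase.1 hkl
    refine ⟨j, hjl, hji, Or.inr ?_⟩
    rw [hsum, hjk', Finset.sum_pair hjk] at hS
    have e1 : ‖z i + z j‖ ≤ τ + 1 := by
      have : z i + z j = (z i + (z j + z k)) - z k := by ring
      rw [this]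
      refine (norm_sub_le _ _).trans ?_
      rw [hzn k hkl]
      linarith
    have e2 : 1 - τ ≤ ‖z i + z j‖ := by
      have : z k = (z i + (z j + z k)) - (z i + z j) := by ring
      have e3 : ‖z k‖ ≤ ‖z i + (z j + z k)‖ + ‖z i + z j‖ := by
        conv_lhs => rw [this]
        exact norm_sub_le _ _
      rw [hzn k hkl] at e3
      linarith
    rw [hpair j hjl] at e1 e2
    show |ip (C.u i) (C.u j) ^ 2 - 1 / 4| ≤ θ
    rw [← sq_abs (ip (C.u i) (C.u j))]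
    have e4 := abs_nonneg (ip (C.u i) (C.u j))
    rw [abs_le]
    constructor
    · nlinarith
    · nlinarith
  · obtain ⟨j, k, m, hjk, hjm, hkm, hjkm⟩ := Finset.card_eq_three.1 hc
    have hjl : j ∈ l.erase i := by rw [hjkm]; simp
    have hkl : k ∈ l.erase i := by rw [hjkm]; simp
    have hml : m ∈ l.erase i := by rw [hjkm]; simp
    obtain ⟨hji, hjl⟩ := Finset.mem_erase.1 hjl
    obtain ⟨hki, hkl⟩ := Finset.mem_erase.1 hkl
    obtain ⟨hmi, hml⟩ := Finset.mem_erase.1 hml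
    have hs3 : ∑ x ∈ l.erase i, z x = z j + z k + z m := by
      rw [hjkm, Finset.sum_insert (by simp [hjk, hjm]), Finset.sum_pair hkm]
      ring
    rw [hsum, hs3] at hS
    have e1 := fin4_four (hzn i hi) (hzn j hjl) (hzn k hkl) (hzn m hml)
    have e2 : z i + z j + z k + z m = z i + (z j + z k + z m) := by ring
    rw [e2, hpair j hjl, hpair k hkl, hpair m hml] at e1
    have e3 : 2 * |ip (C.u i) (C.u j)| * (2 * |ip (C.u i) (C.u k)|) *
        (2 * |ip (C.u i) (C.u m)|) ≤ 8 * θ ^ 3 := by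
      rw [hτ] at hS
      linarith
    by_contra hcon
    push Not at hcon
    have f1 : θ < |ip (C.u i) (C.u j)| := by
      by_contra hx
      exact hcon j hjl hji (Or.inl (not_lt.1 hx))
    have f2 : θ < |ip (C.u i) (C.u k)| := by
      by_contra hx
      exact hcon k hkl hki (Or.inl (not_lt.1 hx))
    have f3 : θ < |ip (C.u i) (C.u m)| := by
      by_contra hx
      exact hcon m hml hmi (Or.inl (not_lt.1 hx))
    have f4 : θ * θ < |ip (C.u i) (C.u j)| * |ip (C.u i) (C.u k)| :=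
      mul_lt_mul'' f1 f2 h0.le h0.le
    have f5 : θ * θ * θ < |ip (C.u i) (C.u j)| * |ip (C.u i) (C.u k)| * |ip (C.u i) (C.u m)| :=
      mul_lt_mul'' f4 f3 (by positivity) h0.le
    nlinarith

open Classical in
theorem fin4 (C : Cfg n) (ε : ℝ) (hC : Good C ε) (θ : ℝ) (h0 : 0 < θ) (h1 : θ ≤ 1 / 2) :
    (n : ℝ) ^ 2 / 3 ≤ (n : ℝ) ^ 2 / 4 + ε / θ ^ 6 * (n : ℝ) ^ 2 +
      7 * ((univ.filter fun p : Fin n × Fin n => (C.us p.1, C.us p.2) ∈ DD θ).card : ℝ) := by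
  obtain ⟨D, hD⟩ : ∃ D : Fin n → Fin n → ℝ,
      D = fun i j => if (C.us i, C.us j) ∈ DD θ then 1 else 0 := ⟨_, rfl⟩
  have hD0 : ∀ i j, 0 ≤ D i j := by
    intro i j
    rw [hD]
    dsimp only
    split_ifs <;> norm_num
  have hDsum : ∑ i, ∑ j, D i j =
      ((univ.filter fun p : Fin n × Fin n => (C.us p.1, C.us p.2) ∈ DD θ).card : ℝ) := by
    rw [Finset.card_filter, Nat.cast_sum, ← Finset.univ_product_univ, Finset.sum_product]
    refine Finset.sum_congr rfl fun i _ => Finset.sum_congr rfl fun j _ => ?_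
    rw [hD]
    simp
  -- one line, one point
  have hterm : ∀ l ∈ C.L, ∀ i ∈ l, (1 : ℝ) ≤ (∑ j ∈ l.filter (fun j => j ≠ i), (1 / 4 + D i j)) +
      (if l.card ≤ 4 ∧ (4 * θ ^ 3) ^ 2 < C.T l then 1 else 0) := by
    intro l hl i hi
    have hnn : 0 ≤ ∑ j ∈ l.filter (fun j => j ≠ i), (1 / 4 + D i j) :=
      Finset.sum_nonneg fun j _ => by
        have := hD0 i j
        linarith
    by_cases hc : l.card ≤ 4
    · by_cases hT : (4 * θ ^ 3) ^ 2 < C.T l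
      · rw [if_pos ⟨hc, hT⟩]
        linarith
      · obtain ⟨j, hj, hji, hDD⟩ := fin4_line C hl hc h0 h1 (not_lt.1 hT) hi
        have h2 : (1 / 4 + D i j) ≤ ∑ j ∈ l.filter (fun j => j ≠ i), (1 / 4 + D i j) :=
          Finset.single_le_sum (f := fun j => 1 / 4 + D i j) (fun j _ => by
            have := hD0 i j
            positivity) (mem_filter.2 ⟨hj, hji⟩)
        have h3 : D i j = 1 := by
          rw [hD]
          exact if_pos hDD
        rw [h3] at h2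
        rw [if_neg (fun h => hT h.2)]
        linarith
    · rw [if_neg (fun h => hc h.1)]
      have h2 : ∑ j ∈ l.filter (fun j => j ≠ i), (1 / 4 : ℝ) ≤
          ∑ j ∈ l.filter (fun j => j ≠ i), (1 / 4 + D i j) :=
        Finset.sum_le_sum fun j _ => by
          have := hD0 i j
          linarith
      have h3 : ((l.filter (fun j => j ≠ i)).card : ℝ) = (l.card : ℝ) - 1 := by
        have : l.filter (fun j => j ≠ i) = l.erase i := by
          ext j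
          simp [and_comm]
        rw [this, Finset.card_erase_of_mem hi, Nat.cast_sub (by omega)]
        simp
      rw [Finset.sum_const, nsmul_eq_mul, h3] at h2
      have h4 : (5 : ℝ) ≤ l.card := by exact_mod_cast (by omega : 5 ≤ l.card)
      linarith
  have hdeg : ∑ i, (C.deg i : ℝ) = ∑ l ∈ C.L, ∑ _i ∈ l, (1 : ℝ) := by
    have := C.toLS.sum_deg fun _ => 1
    simpa using this
  have hmain : ∑ i, (C.deg i : ℝ) ≤
      ∑ l ∈ C.L, ∑ i ∈ l, ∑ j ∈ l.filter (fun j => j ≠ i), (1 / 4 + D i j) +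
      ∑ l ∈ C.L, ∑ _i ∈ l, (if l.card ≤ 4 ∧ (4 * θ ^ 3) ^ 2 < C.T l then (1 : ℝ) else 0) := by
    rw [hdeg, ← Finset.sum_add_distrib]
    refine Finset.sum_le_sum fun l hl => ?_
    rw [← Finset.sum_add_distrib]
    exact Finset.sum_le_sum fun i hi => hterm l hl i hi
  have hfirst : ∑ l ∈ C.L, ∑ i ∈ l, ∑ j ∈ l.filter (fun j => j ≠ i), (1 / 4 + D i j) ≤
      (n : ℝ) ^ 2 / 4 + ∑ i, ∑ j, D i j := by
    rw [← C.toLS.sum_pairs fun i j _ => 1 / 4 + D i j]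
    calc ∑ i, ∑ j ∈ univ.filter (fun j => j ≠ i), (1 / 4 + D i j)
        ≤ ∑ i, ∑ j, (1 / 4 + D i j) := by
          refine Finset.sum_le_sum fun i _ => ?_
          refine Finset.sum_le_sum_of_subset_of_nonneg (Finset.filter_subset _ _) ?_
          intro j _ _
          have := hD0 i j
          linarith
      _ = (n : ℝ) ^ 2 / 4 + ∑ i, ∑ j, D i j := by
          simp only [Finset.sum_add_distrib, Finset.sum_const, card_univ, Fintype.card_fin,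
            nsmul_eq_mul]
          ring
  have hτ : 0 < (4 * θ ^ 3) ^ 2 := by positivity
  have hsecond : ∑ l ∈ C.L, ∑ _i ∈ l, (if l.card ≤ 4 ∧ (4 * θ ^ 3) ^ 2 < C.T l then (1 : ℝ)
      else 0) ≤ ε / θ ^ 6 * (n : ℝ) ^ 2 := by
    have h2 : ∑ l ∈ C.L, ∑ _i ∈ l, (if l.card ≤ 4 ∧ (4 * θ ^ 3) ^ 2 < C.T l then (1 : ℝ)
        else 0) ≤ ∑ l ∈ C.L, 4 * (C.T l / (4 * θ ^ 3) ^ 2) := by
      refine Finset.sum_le_sum fun l hl => ?_
      rw [Finset.sum_const, nsmul_eq_mul]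
      have hT0 := C.T_nonneg hl
      by_cases hc : l.card ≤ 4 ∧ (4 * θ ^ 3) ^ 2 < C.T l
      · rw [if_pos hc]
        have h3 : (l.card : ℝ) ≤ 4 := by exact_mod_cast hc.1
        have h4 : 1 ≤ C.T l / (4 * θ ^ 3) ^ 2 := by
          rw [le_div_iff₀ hτ]
          linarith [hc.2]
        linarith
      · rw [if_neg hc, mul_zero]
        positivity
    refine h2.trans ?_
    rw [← Finset.mul_sum, ← Finset.sum_div]
    have h3 := hC.g3
    have h4 : (∑ l ∈ C.L, C.T l) / (4 * θ ^ 3) ^ 2 ≤ ε * (n : ℝ) ^ 2 / (4 * θ ^ 3) ^ 2 :=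
      div_le_div_of_nonneg_right h3 hτ.le
    have h5 : ε * (n : ℝ) ^ 2 / (4 * θ ^ 3) ^ 2 = 1 / 16 * (ε / θ ^ 6 * (n : ℝ) ^ 2) := by
      field_simp
      ring
    rw [h5] at h4
    have h6 : 0 ≤ ε / θ ^ 6 * (n : ℝ) ^ 2 := by
      have h7 : 0 ≤ ε * (n : ℝ) ^ 2 := le_trans (Finset.sum_nonneg fun l hl => C.T_nonneg hl) h3
      have h8 : ε / θ ^ 6 * (n : ℝ) ^ 2 = ε * (n : ℝ) ^ 2 / θ ^ 6 := by ring
      rw [h8]
      positivity
    linarith
  have hg2 := hC.g2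
  rw [hDsum] at hfirst
  have hDn : (0 : ℝ) ≤
      ((univ.filter fun p : Fin n × Fin n => (C.us p.1, C.us p.2) ∈ DD θ).card : ℝ) :=
    Nat.cast_nonneg _
  linarith

end Pool.Agent.H23.DR
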