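import Pool.Agent.H23.DR.Wz
import Pool.Agent.H23.DR.ExAt

/-!
# Module Fr (about 130 lines): the limit measure is the frame measure (4.4)

PROOF. `x` from `exists_atom`; `wz`: `μ (WW x) = 0`. `S2` is the disjoint union of `pm x`, `WW x`, `Pl x`
(`eq_or_neg`, `abs_ip_le`), so `1/3 = ∫ ip u x ^2 dμ = μ (pm x)` and `μ (Pl x) = 2/3`. For `a` orthogonal to `x` and
any `b`: `∫ ip u a * ip u b dμ = ip a b / 3` (polarisation of `iso`), the part over `pm x` is zero
(`ip u a = 0`), so `BL μ x a b = ip a b / 3 = μ(Pl x)/2 * ip a b`: `Scal μ x`. `dich`: the second alternative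
gives `Solid` (`solid_of_three`) and `2/3 ≤ 1/3` (`solid_le`). First alternative: `e = ![x, y, z]`.
-/

namespace Pool.Agent.H23.DR

open H47.DR MeasureTheory Filter Topology

private theorem Fr_comm (a b : E) : ip a b = ip b a := by
  simp only [ip]; exact real_inner_comm _ _

private theorem Fr_int (μ : Measure S2) [IsProbabilityMeasure μ] (a b : E) :
    Integrable (fun u : S2 => ip u a * ip u b) μ := by
  have hc : Continuous fun u : S2 => ip u a * ip u b := by fun_prop
  exact hc.integrable_of_hasCompactSupport (HasCompactSupport.of_compactSpace _)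

private theorem Fr_pm (μ : Measure S2) [IsProbabilityMeasure μ] (y : S2) (a b : E) :
    ∫ u in pm y, ip u a * ip u b ∂μ = μ.real (pm y) * (ip a y * ip b y) := by
  have h1 : ∀ u ∈ pm y, ip u a * ip u b = ip a y * ip b y := by
    intro u hu
    rcases hu with hu | hu
    · subst hu
      rw [Fr_comm u a, Fr_comm u b]
    · have hu' : u = -y := hu
      subst hu'
      have e1 : ((-y : S2) : E) = -(y : E) := rfl
      have e2 : ∀ c : E, ip ((-y : S2) : E) c = -ip c y := by
        intro c
        rw [e1, Fr_comm c y]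
        simp only [ip]
        exact inner_neg_left _ _
      rw [e2, e2]
      ring
  rw [setIntegral_congr_fun (isClosed_pm y).measurableSet h1, setIntegral_const, smul_eq_mul]

private theorem Fr_disj (x : S2) : Disjoint (pm x) (Pl x) := by
  rw [Set.disjoint_left]
  intro u hu hu'
  have h1 : ip (u : E) (x : E) = 0 := hu'
  have h2 := ip_self_sph x
  rcases hu with hu | hu
  · subst hu
    rw [h1] at h2
    exact zero_ne_one h2
  · have hu2 : u = -x := hu
    subst hu2
    have e1 : ip ((-x : S2) : E) (x : E) = -ip (x : E) (x : E) := by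
      have e2 : ((-x : S2) : E) = -(x : E) := rfl
      rw [e2]
      simp only [ip]
      exact inner_neg_left _ _
    rw [e1, h2] at h1
    norm_num at h1

private theorem Fr_restrict (μ : Measure S2) (x : S2) (hW : μ (WW x) = 0) :
    μ.restrict (pm x ∪ Pl x) = μ := by
  refine Measure.restrict_eq_self_of_ae_mem ?_
  have h1 : ∀ᵐ u ∂μ, u ∉ WW x := measure_eq_zero_iff_ae_notMem.1 hW
  filter_upwards [h1] with u hu
  by_contra hc
  rw [Set.mem_union, not_or] at hc
  apply hu
  constructor
  · refine abs_pos.mpr fun h0 => hc.2 ?_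
    have : ip (u : E) (x : E) = 0 := by rw [Fr_comm]; exact h0
    exact this
  · by_contra h2
    exact hc.1 (eq_or_neg x u (not_lt.mp h2))

private theorem Fr_split (μ : Measure S2) [IsProbabilityMeasure μ] (x : S2) (hW : μ (WW x) = 0)
    (a b : E) : ∫ u : S2, ip u a * ip u b ∂μ =
      μ.real (pm x) * (ip a x * ip b x) + BL μ x a b := by
  have h1 := Fr_int μ a b
  have h2 : ∫ u : S2, ip u a * ip u b ∂μ =
      ∫ u in pm x ∪ Pl x, ip u a * ip u b ∂μ := by
    rw [Fr_restrict μ x hW]
  rw [h2, setIntegral_union (Fr_disj x) (isClosed_Pl x).measurableSet h1.integrableOn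
    h1.integrableOn, Fr_pm]
  rfl

private theorem Fr_polar {s : SeqG} {μ : Measure S2} {PP : Measure (S2 × S2 × S2)}
    (h : LimD s μ PP) (a b : E) : ∫ u : S2, ip u a * ip u b ∂μ = ip a b / 3 := by
  have := h.pr
  have h1 := h.iso (a + b)
  have h2 := h.iso a
  have h3 := h.iso b
  have e1 : ∀ u : S2, ip (u : E) (a + b) ^ 2 =
      ip (u : E) a ^ 2 + ip (u : E) b ^ 2 + 2 * (ip (u : E) a * ip (u : E) b) := by
    intro u
    have : ip (u : E) (a + b) = ip (u : E) a + ip (u : E) b := by
      simp only [ip]; exact inner_add_right _ _ _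
    rw [this]
    ring
  have i2 : ∀ c : E, Integrable (fun u : S2 => ip (u : E) c ^ 2) μ := by
    intro c
    have := Fr_int μ c c
    refine this.congr (Filter.Eventually.of_forall fun u => ?_)
    exact (sq _).symm
  have i3 := Fr_int μ a b
  have i4 : Integrable (fun u : S2 => ip (u : E) a ^ 2 + ip (u : E) b ^ 2) μ :=
    (i2 a).add (i2 b)
  rw [integral_congr_ae (Filter.Eventually.of_forall e1),
    integral_add i4 (i3.const_mul 2), integral_add (i2 a) (i2 b),
    integral_const_mul, h2, h3] at h1
  have e4 : ‖a + b‖ ^ 2 = ‖a‖ ^ 2 + 2 * ip a b + ‖b‖ ^ 2 := norm_add_sq_real a b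
  rw [e4] at h1
  linarith

theorem frame_mu {s : SeqG} {μ : Measure S2} {PP : Measure (S2 × S2 × S2)}
    (h : LimD s μ PP) : ∃ e : Fin 3 → S2, (∀ a b, a ≠ b → ip (e a) (e b) = 0) ∧
      ∀ a, μ.real (pm (e a)) = 1 / 3 := by
  have := h.pr
  obtain ⟨x, hx⟩ := exists_atom h
  have hW := wz h x hx
  have hxx := ip_self_sph x
  -- masses
  have m1 : μ.real (pm x) = 1 / 3 := by
    have h1 := Fr_split μ x hW x x
    rw [Fr_polar h, hxx, BL_v] at h1
    linarith
  have m2 : μ.real (Pl x) = 2 / 3 := by
    have h1 : μ.real (pm x ∪ Pl x) = μ.real (pm x) + μ.real (Pl x) :=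
      measureReal_union (Fr_disj x) (isClosed_Pl x).measurableSet
    have h2 : μ.real (pm x ∪ Pl x) = 1 := by
      have h3 : μ (pm x ∪ Pl x) = 1 := by
        have h4 : μ.restrict (pm x ∪ Pl x) Set.univ = 1 := by
          rw [Fr_restrict μ x hW]
          exact measure_univ
        rwa [Measure.restrict_apply_univ] at h4
      rw [Measure.real, h3, ENNReal.toReal_one]
    linarith
  have hS : Scal μ x := by
    intro a b hab
    have h1 := Fr_split μ x hW a b
    rw [Fr_polar h, hab] at h1
    rw [m2]
    linarith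
  have hpos : 0 < μ (Pl x) := by
    refine pos_iff_ne_zero.mpr fun h0 => ?_
    rw [Measure.real, h0, ENNReal.toReal_zero] at m2
    norm_num at m2
  rcases dich μ x hpos hS with ⟨y, z, hy, hz, hyz, my, mz⟩ | ⟨y, hT⟩
  · have hy' : ip (y : E) (x : E) = 0 := hy
    have hz' : ip (z : E) (x : E) = 0 := hz
    have hxy : ip (x : E) (y : E) = 0 := by rw [Fr_comm]; exact hy'
    have hxz : ip (x : E) (z : E) = 0 := by rw [Fr_comm]; exact hz'
    have hzy : ip (z : E) (y : E) = 0 := by rw [Fr_comm]; exact hyz
    refine ⟨![x, y, z], ?_, ?_⟩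
    · intro a b hab
      fin_cases a <;> fin_cases b
      · exact absurd rfl hab
      · exact hxy
      · exact hxz
      · exact hy'
      · exact absurd rfl hab
      · exact hyz
      · exact hz'
      · exact hzy
      · exact absurd rfl hab
    · intro a
      fin_cases a
      · exact m1
      · change μ.real (pm y) = 1 / 3
        rw [my, m2]
        norm_num
      · change μ.real (pm z) = 1 / 3
        rw [mz, m2]
        norm_num
  · have h1 := solid_le h x (solid_of_three h x hS y hT)
    rw [m2] at h1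
    norm_num at h1

end Pool.Agent.H23.DR
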