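import Pool.Agent.H23.DR.Third

/-!
# Module Geo (about 80 lines)

PROOF. `isClosed_cop`: the set is the projection along the compact factor of the compact set
`{(x, ν) | ip ν x.1 = 0 ∧ ip ν x.2.1 = 0 ∧ ip ν x.2.2 = 0}` of `(S2 × S2 × S2) × S2`
(`IsCompact.image`). `cop_iff`: a unit normal `ν` of `x`, `q` is `± v` by `Pl_pm`. `Pl_inter`: if `u`
is orthogonal to `v` and `v'`, both orthogonal to `x`, and `|ip u x| < 1`, then `Pl_pm` (for the independent
pair `x, u`) gives `v' = ± v`.
-/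

namespace Pool.Agent.H23.DR

open H47.DR

private theorem Geo_neg_mem (v u : S2) : ip (u : E) ((-v : S2) : E) = 0 ↔ ip (u : E) (v : E) = 0 := by
  simp only [ip, coe_neg_sphere, inner_neg_right, neg_eq_zero]

theorem isClosed_cop : IsClosed {x : S2 × S2 × S2 | Cop x.1 x.2.1 x.2.2} := by
  have hK : IsClosed {y : (S2 × S2 × S2) × S2 | ip (y.2 : E) (y.1.1 : E) = 0 ∧
      ip (y.2 : E) (y.1.2.1 : E) = 0 ∧ ip (y.2 : E) (y.1.2.2 : E) = 0} := by
    have c1 : Continuous fun y : (S2 × S2 × S2) × S2 => ip (y.2 : E) (y.1.1 : E) := by fun_prop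
    have c2 : Continuous fun y : (S2 × S2 × S2) × S2 => ip (y.2 : E) (y.1.2.1 : E) := by fun_prop
    have c3 : Continuous fun y : (S2 × S2 × S2) × S2 => ip (y.2 : E) (y.1.2.2 : E) := by fun_prop
    exact (isClosed_eq c1 continuous_const).inter
      ((isClosed_eq c2 continuous_const).inter (isClosed_eq c3 continuous_const))
  have h1 := (hK.isCompact.image continuous_fst).isClosed
  convert h1 using 1
  ext x
  constructor
  · rintro ⟨ν, hν, h2, h3, h4⟩
    exact ⟨(x, ⟨ν, by simpa using hν⟩), ⟨h2, h3, h4⟩, rfl⟩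
  · rintro ⟨y, ⟨h2, h3, h4⟩, rfl⟩
    exact ⟨y.2, norm_sph y.2, h2, h3, h4⟩

/-- the plane of two independent points -/
theorem cop_iff (x q v : S2) (h : |ip x q| < 1) (h1 : ip x v = 0) (h2 : ip q v = 0) (u : S2) :
    Cop x q u ↔ u ∈ Pl v := by
  have h1' : ip (v : E) (x : E) = 0 := by rw [ip, real_inner_comm]; exact h1
  have h2' : ip (v : E) (q : E) = 0 := by rw [ip, real_inner_comm]; exact h2
  constructor
  · rintro ⟨ν, hν, h3, h4, h5⟩
    have h5' : ip (u : E) ν = 0 := by rw [ip, real_inner_comm]; exact h5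
    have h6 := Pl_pm x q v ⟨ν, by simpa using hν⟩ h h1' h2' h3 h4
    change ip (u : E) (v : E) = 0
    rcases h6 with h6 | h6
    · rw [← h6]
      exact h5'
    · rw [← Geo_neg_mem v u, ← h6]
      exact h5'
  · intro hu
    refine ⟨v, norm_sph v, h1', h2', ?_⟩
    rw [ip, real_inner_comm]
    exact hu

private theorem Geo_Pl_neg (v : S2) : Pl (-v) = Pl v := by
  ext u
  exact Geo_neg_mem v u

/-- Two different great circles through `x` meet only in `x, -x`. -/
theorem Pl_inter (x v v' u : S2) (h1 : ip x v = 0) (h2 : ip x v' = 0) (h3 : Pl v ≠ Pl v')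
    (h4 : u ∈ Pl v) (h5 : u ∈ Pl v') : u ∈ pm x := by
  by_contra hu
  have h6 : |ip (x : E) (u : E)| < 1 := by
    by_contra h7
    exact hu (eq_or_neg x u (not_lt.mp h7))
  have a1 : ip (v : E) (x : E) = 0 := by rw [ip, real_inner_comm]; exact h1
  have a2 : ip (v : E) (u : E) = 0 := by rw [ip, real_inner_comm]; exact h4
  have a3 : ip (v' : E) (x : E) = 0 := by rw [ip, real_inner_comm]; exact h2
  have a4 : ip (v' : E) (u : E) = 0 := by rw [ip, real_inner_comm]; exact h5
  rcases Pl_pm x u v v' h6 a1 a2 a3 a4 with h8 | h8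
  · exact h3 (by rw [h8])
  · exact h3 (by rw [h8, Geo_Pl_neg])

theorem Pl_eq_iff (v v' : S2) : Pl v = Pl v' ↔ v' = v ∨ v' = -v := by
  constructor
  · intro h
    obtain ⟨p, hp, hp1, -⟩ := perp_two (v : E) (v : E)
    obtain ⟨b, hb, hb1, hb2, -, -⟩ := exists_third p (v : E) hp (norm_sph v) hp1
    have hb2' : ip b (v : E) = 0 := by rw [ip, real_inner_comm]; exact hb2
    have m1 : (⟨p, by simpa using hp⟩ : S2) ∈ Pl v' := by rw [← h]; exact hp1
    have m2 : (⟨b, by simpa using hb⟩ : S2) ∈ Pl v' := by rw [← h]; exact hb2'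
    have m1' : ip (v' : E) p = 0 := by rw [ip, real_inner_comm]; exact m1
    have m2' : ip (v' : E) b = 0 := by rw [ip, real_inner_comm]; exact m2
    have hp1' : ip (v : E) p = 0 := by rw [ip, real_inner_comm]; exact hp1
    exact Pl_pm ⟨p, by simpa using hp⟩ ⟨b, by simpa using hb⟩ v v'
      (by
        change |ip p b| < 1
        rw [hb1, abs_zero]
        exact one_pos) hp1' hb2 m1' m2'
  · rintro (h | h)
    · rw [h]
    · rw [h, Geo_Pl_neg]

end Pool.Agent.H23.DR
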