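import Pool.Agent.H23.DR.Emp
import Pool.Agent.H23.DR.Base

/-!
# Module Lim (proved): the exact balance of the limit measure, for measurable test fields
-/

namespace Pool.Agent.H23.DR

open H47.DR MeasureTheory Filter Topology
open scoped ENNReal RealInnerProductSpace

/-- balance for continuous test functions -/
theorem bal_cont {P : ℕ → ProbabilityMeasure (S2 × S2 × S2)} {U : Filter ℕ} [U.NeBot]
    {PP : ProbabilityMeasure (S2 × S2 × S2)} (hP : Tendsto P U (𝓝 PP))
    (hb : ∀ V : S2 × S2 → E, Continuous V → (∀ p ν : S2, ⟪V (p, ν), (p : E)⟫ = 0) →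
      Tendsto (fun j => ∫ x, ⟪(x.1 : E), (x.2.1 : E)⟫ * ⟪V (x.1, x.2.2), (x.2.1 : E)⟫
        ∂(P j : Measure (S2 × S2 × S2))) U (𝓝 0))
    (V : S2 × S2 → E) (hV : Continuous V) (hp : ∀ p ν : S2, ⟪V (p, ν), (p : E)⟫ = 0) :
    ∫ x, ⟪(x.1 : E), (x.2.1 : E)⟫ * ⟪V (x.1, x.2.2), (x.2.1 : E)⟫
      ∂(PP : Measure (S2 × S2 × S2)) = 0 := by
  have hc : Continuous fun x : S2 × S2 × S2 =>
      ⟪(x.1 : E), (x.2.1 : E)⟫ * ⟪V (x.1, x.2.2), (x.2.1 : E)⟫ := by fun_prop
  have h1 := (ProbabilityMeasure.tendsto_iff_forall_integral_tendsto.1 hP)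
    (BoundedContinuousFunction.mkOfCompact ⟨_, hc⟩)
  exact tendsto_nhds_unique h1 (hb V hV hp)

/-- the scalar form of the balance, for measurable test functions -/
theorem bal_scalar {PP : ProbabilityMeasure (S2 × S2 × S2)}
    (hb : ∀ V : S2 × S2 → E, Continuous V → (∀ p ν : S2, ⟪V (p, ν), (p : E)⟫ = 0) →
      ∫ x, ⟪(x.1 : E), (x.2.1 : E)⟫ * ⟪V (x.1, x.2.2), (x.2.1 : E)⟫
        ∂(PP : Measure (S2 × S2 × S2)) = 0)
    (c : E) (a : S2 × S2 → ℝ) (ha : Measurable a) (hC : ∃ C, ∀ y, |a y| ≤ C) :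
    ∫ x, a (x.1, x.2.2) * (⟪(x.1 : E), (x.2.1 : E)⟫ * ⟪cof c (x.1 : E), (x.2.1 : E)⟫)
      ∂(PP : Measure (S2 × S2 × S2)) = 0 := by
  obtain ⟨C, hC⟩ := hC
  set h : S2 × S2 × S2 → ℝ := fun x =>
    ⟪(x.1 : E), (x.2.1 : E)⟫ * ⟪cof c (x.1 : E), (x.2.1 : E)⟫ with hh
  have hhc : Continuous h := by
    rw [hh]; unfold cof; fun_prop
  set K : ℝ := 2 * ‖c‖ with hK
  have hK0 : 0 ≤ K := by positivity
  have hbd : ∀ x, |h x| ≤ K := by
    intro x
    have h1 : |⟪(x.1 : E), (x.2.1 : E)⟫| ≤ 1 := by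
      have := abs_real_inner_le_norm (x.1 : E) (x.2.1 : E)
      rwa [norm_sph, norm_sph, mul_one] at this
    have h2 : |⟪cof c (x.1 : E), (x.2.1 : E)⟫| ≤ 2 * ‖c‖ := by
      have := abs_real_inner_le_norm (cof c (x.1 : E)) (x.2.1 : E)
      rw [norm_sph, mul_one] at this
      exact this.trans (cof_norm c x.1)
    rw [hh]
    simp only [abs_mul]
    calc _ ≤ 1 * (2 * ‖c‖) := mul_le_mul h1 h2 (abs_nonneg _) zero_le_one
      _ = K := by rw [hK, one_mul]
  set pi : S2 × S2 × S2 → S2 × S2 := fun x => (x.1, x.2.2) with hpi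
  have hpic : Continuous pi := by rw [hpi]; fun_prop
  set P : Measure (S2 × S2 × S2) := (PP : Measure (S2 × S2 × S2)) with hP
  have hnn : ∀ x, 0 ≤ h x + K := fun x => by have := (abs_le.1 (hbd x)).1; linarith
  -- integrals of test functions
  have key : ∀ g : S2 × S2 → ℝ, Measurable g → (∃ C, ∀ y, |g y| ≤ C) →
      Integrable (fun x => g (pi x) * h x) P ∧ Integrable (fun x => g (pi x)) P := by
    rintro g hg ⟨C, hC⟩
    have i1 : Integrable (fun x => g (pi x)) P :=
      Integrable.of_bound ((hg.comp hpic.measurable).aestronglyMeasurable) C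
        (Eventually.of_forall fun x => by simpa using hC (pi x))
    refine ⟨?_, i1⟩
    refine i1.mul_bdd (c := K) hhc.aestronglyMeasurable (Eventually.of_forall fun x => ?_)
    simpa using hbd x
  set m1 : Measure (S2 × S2) := (P.withDensity fun x => ENNReal.ofReal (h x + K)).map pi with hm1
  set m2 : Measure (S2 × S2) := (P.withDensity fun _ => ENNReal.ofReal K).map pi with hm2
  have mh : Measurable fun x => ENNReal.ofReal (h x + K) := by fun_prop
  have f1 : IsFiniteMeasure (P.withDensity fun x => ENNReal.ofReal (h x + K)) := by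
    refine isFiniteMeasure_withDensity_ofReal (Integrable.hasFiniteIntegral ?_)
    refine Integrable.of_bound (hhc.add continuous_const).aestronglyMeasurable (K + K)
      (Eventually.of_forall fun x => ?_)
    rw [Real.norm_eq_abs]
    calc |h x + K| ≤ |h x| + |K| := abs_add_le _ _
      _ ≤ K + K := by rw [abs_of_nonneg hK0]; linarith [hbd x]
  have f2 : IsFiniteMeasure (P.withDensity fun _ => ENNReal.ofReal K) :=
    isFiniteMeasure_withDensity_ofReal (integrable_const _).hasFiniteIntegral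
  have e1 : ∀ g : S2 × S2 → ℝ, Measurable g →
      ∫ y, g y ∂m1 = ∫ x, (h x + K) * g (pi x) ∂P := by
    intro g hg
    rw [hm1, integral_map hpic.aemeasurable hg.aestronglyMeasurable,
      integral_withDensity_eq_integral_toReal_smul mh (Eventually.of_forall fun x => by simp)]
    refine integral_congr_ae (Eventually.of_forall fun x => ?_)
    simp only [smul_eq_mul]
    rw [ENNReal.toReal_ofReal (hnn x)]
  have e2 : ∀ g : S2 × S2 → ℝ, Measurable g →
      ∫ y, g y ∂m2 = ∫ x, K * g (pi x) ∂P := by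
    intro g hg
    rw [hm2, integral_map hpic.aemeasurable hg.aestronglyMeasurable,
      integral_withDensity_eq_integral_toReal_smul measurable_const
        (Eventually.of_forall fun x => by simp)]
    refine integral_congr_ae (Eventually.of_forall fun x => ?_)
    simp only [smul_eq_mul]
    rw [ENNReal.toReal_ofReal hK0]
  have e3 : ∀ g : S2 × S2 → ℝ, Measurable g → (∃ C, ∀ y, |g y| ≤ C) →
      ∫ x, (h x + K) * g (pi x) ∂P = (∫ x, g (pi x) * h x ∂P) + ∫ x, K * g (pi x) ∂P := by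
    intro g hg hgC
    obtain ⟨i1, i2⟩ := key g hg hgC
    rw [← integral_add i1 (i2.const_mul K)]
    refine integral_congr_ae (Eventually.of_forall fun x => ?_)
    simp only
    ring
  have hm : m1 = m2 := by
    refine ext_of_forall_integral_eq_of_IsFiniteMeasure fun g => ?_
    have hgC : ∃ C, ∀ y, |g y| ≤ C := ⟨‖g‖, fun y => by
      simpa using g.norm_coe_le_norm y⟩
    rw [e1 _ g.continuous.measurable, e2 _ g.continuous.measurable,
      e3 _ g.continuous.measurable hgC]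
    have h0 : ∫ x, g (pi x) * h x ∂P = 0 := by
      have := hb (fun y => g y • cof c (y.1 : E)) (by unfold cof; fun_prop)
        (fun p ν => by
          have h3 := cof_perp c p
          simp only [ip] at h3
          rw [real_inner_smul_left, h3, mul_zero])
      rw [← this]
      refine integral_congr_ae (Eventually.of_forall fun x => ?_)
      simp only [hh, hpi, real_inner_smul_left]
      ring
    rw [h0, zero_add]
  have h1 := e1 a ha
  rw [hm, e2 a ha, e3 a ha ⟨C, hC⟩] at h1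
  have : ∫ x, a (pi x) * h x ∂P = 0 := by linarith
  exact this

/-- from continuous to measurable test functions -/
theorem bal_ext {PP : ProbabilityMeasure (S2 × S2 × S2)}
    (hb : ∀ V : S2 × S2 → E, Continuous V → (∀ p ν : S2, ⟪V (p, ν), (p : E)⟫ = 0) →
      ∫ x, ⟪(x.1 : E), (x.2.1 : E)⟫ * ⟪V (x.1, x.2.2), (x.2.1 : E)⟫
        ∂(PP : Measure (S2 × S2 × S2)) = 0)
    (V : S2 × S2 → E) (hV : Measurable V) (hC : ∃ C, ∀ y, ‖V y‖ ≤ C)
    (hp : ∀ p ν : S2, ⟪V (p, ν), (p : E)⟫ = 0) :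
    ∫ x, ⟪(x.1 : E), (x.2.1 : E)⟫ * ⟪V (x.1, x.2.2), (x.2.1 : E)⟫
      ∂(PP : Measure (S2 × S2 × S2)) = 0 := by
  obtain ⟨C, hC⟩ := hC
  have hVi : ∀ i : Fin 3, Measurable fun y => V y i := fun i => by fun_prop
  have hVC : ∀ (i : Fin 3) y, |V y i| ≤ C := fun i y => by
    have := PiLp.norm_apply_le (V y) i
    rw [Real.norm_eq_abs] at this
    exact this.trans (hC y)
  have h0 := fun i : Fin 3 => bal_scalar hb (EuclideanSpace.single i (1 : ℝ))
    (fun y => V y i) (hVi i) ⟨C, hVC i⟩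
  have hint : ∀ i : Fin 3, Integrable (fun x : S2 × S2 × S2 => V (x.1, x.2.2) i *
      (⟪(x.1 : E), (x.2.1 : E)⟫ * ⟪cof (EuclideanSpace.single i (1 : ℝ)) (x.1 : E), (x.2.1 : E)⟫))
      (PP : Measure (S2 × S2 × S2)) := by
    intro i
    have hc : Continuous fun x : S2 × S2 × S2 =>
      ⟪(x.1 : E), (x.2.1 : E)⟫ * ⟪cof (EuclideanSpace.single i (1 : ℝ)) (x.1 : E), (x.2.1 : E)⟫ := by
      unfold cof; fun_prop
    obtain ⟨D, hD⟩ := (isCompact_univ (X := S2 × S2 × S2)).exists_bound_of_continuousOn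
      hc.continuousOn
    refine Integrable.bdd_mul (c := C) ?_ ?_ (Eventually.of_forall fun x => hVC i _)
    · exact Integrable.of_bound hc.aestronglyMeasurable D
        (Eventually.of_forall fun x => hD x trivial)
    · exact Measurable.aestronglyMeasurable (by fun_prop)
  have hsum : ∀ x : S2 × S2 × S2, ⟪(x.1 : E), (x.2.1 : E)⟫ * ⟪V (x.1, x.2.2), (x.2.1 : E)⟫ =
      ∑ i : Fin 3, V (x.1, x.2.2) i *
      (⟪(x.1 : E), (x.2.1 : E)⟫ * ⟪cof (EuclideanSpace.single i (1 : ℝ)) (x.1 : E), (x.2.1 : E)⟫) := by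
    intro x
    have h1 := hp x.1 x.2.2
    have h2 : ⟪V (x.1, x.2.2), (x.2.1 : E)⟫ = ∑ i : Fin 3, V (x.1, x.2.2) i * (x.2.1 : E) i := by
      simp [PiLp.inner_apply, mul_comm]
    have h3 : (∑ i : Fin 3, V (x.1, x.2.2) i * (x.1 : E) i) = 0 := by
      rw [← h1]; simp [PiLp.inner_apply, mul_comm]
    have h4 : ∀ i : Fin 3, ⟪cof (EuclideanSpace.single i (1 : ℝ)) (x.1 : E), (x.2.1 : E)⟫ =
        (x.2.1 : E) i - (x.1 : E) i * ⟪(x.1 : E), (x.2.1 : E)⟫ := by
      intro i
      simp only [cof, ip]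
      rw [inner_sub_left, real_inner_smul_left, EuclideanSpace.inner_single_left,
        EuclideanSpace.inner_single_left]
      simp
    simp only [h4, h2]
    have h5 : ∀ i : Fin 3, V (x.1, x.2.2) i * (⟪(x.1 : E), (x.2.1 : E)⟫ *
        ((x.2.1 : E) i - (x.1 : E) i * ⟪(x.1 : E), (x.2.1 : E)⟫)) =
        ⟪(x.1 : E), (x.2.1 : E)⟫ * (V (x.1, x.2.2) i * (x.2.1 : E) i) -
        ⟪(x.1 : E), (x.2.1 : E)⟫ ^ 2 * (V (x.1, x.2.2) i * (x.1 : E) i) := fun i => by ring
    simp only [h5, Finset.sum_sub_distrib, ← Finset.mul_sum, h3]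
    ring
  simp only [hsum]
  rw [integral_finsetSum _ fun i _ => hint i]
  exact Finset.sum_eq_zero fun i _ => h0 i

end Pool.Agent.H23.DR
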