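import Pool.Agent.H23.DR.Third
import Pool.Agent.H47.DR.LSb

/-!
# Module Near (about 60 lines): formula (2.0)

PROOF. The line has a unit normal `ν` (`C.nu` for the line `C.ln i j ∈ L`). The vectors `u i`, `u j` are
orthogonal to `ν` and independent (`c = ip (u i) (u j)`, `c^2 ≤ 1 - ρ^2 < 1`), so `u k = α u i + β u j`
(`exists_third (u i) ν` gives a frame `u i, ν, b`; `u j = c u i + d b`, `d^2 = 1 - c^2 > 0`).
`1 = ‖u k‖^2 = (β + α c)^2 + α^2 (1 - c^2)`, so `|α| ≤ 1/ρ`, and `|β| ≤ 1/ρ` the same. So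
`|ip (u k) v| ≤ |α| r + |β| r ≤ 2 r / ρ`.
-/

namespace Pool.Agent.H23.DR

open H47.DR Finset

variable {n : ℕ}

theorem near_line (C : Cfg n) (v : E) (r ρ : ℝ) (hρ : 0 < ρ) {i j k : Fin n} (hij : i ≠ j)
    (hi : |ip (C.u i) v| ≤ r) (hj : |ip (C.u j) v| ≤ r)
    (hp : ip (C.u i) (C.u j) ^ 2 ≤ 1 - ρ ^ 2) (hk : k ∈ C.ln i j) :
    |ip (C.u k) v| ≤ 2 * r / ρ := by
  obtain ⟨ν, hν, hl⟩ := C.nu _ (C.ln_mem hij)
  have h1 : ip (C.u i) ν = 0 := (hl i).1 (C.left_mem hij)
  have h2 : ip (C.u j) ν = 0 := (hl j).1 (C.right_mem hij)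
  have h3 : ip (C.u k) ν = 0 := (hl k).1 hk
  obtain ⟨b, hb, hab, hνb, hP, -⟩ := exists_third (C.u i) ν (C.unit i) hν h1
  have hui : ip (C.u i) (C.u i) = 1 := by
    simp only [ip]; rw [real_inner_self_eq_norm_sq, C.unit i]; norm_num
  have huj : ip (C.u j) (C.u j) = 1 := by
    simp only [ip]; rw [real_inner_self_eq_norm_sq, C.unit j]; norm_num
  have huk : ip (C.u k) (C.u k) = 1 := by
    simp only [ip]; rw [real_inner_self_eq_norm_sq, C.unit k]; norm_num
  have hbb : ip b b = 1 := by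
    simp only [ip]; rw [real_inner_self_eq_norm_sq, hb]; norm_num
  have hcomm : ∀ x y : E, ip x y = ip y x := fun x y => (real_inner_comm y x)
  set c := ip (C.u i) (C.u j) with hc
  set d := ip (C.u j) b with hd
  set p := ip (C.u k) (C.u i) with hp'
  set q := ip (C.u k) b with hq
  set x := ip (C.u i) v with hx
  set y := ip (C.u j) v with hy
  set t := ip v b with ht
  -- u j = c u i + d b, u k = p u i + q b
  have e1 : c ^ 2 + d ^ 2 = 1 := by
    have := hP (C.u j) (C.u j)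
    rw [huj, h2, hcomm (C.u j) (C.u i), ← hc, ← hd] at this
    linarith
  have e2 : p ^ 2 + q ^ 2 = 1 := by
    have := hP (C.u k) (C.u k)
    rw [huk, h3, ← hp', ← hq] at this
    linarith
  have e3 : y = c * x + d * t := by
    have := hP (C.u j) v
    rw [h2, hcomm (C.u j) (C.u i), ← hc, ← hd, ← hy, hcomm v (C.u i), ← hx, ← ht] at this
    linarith
  have e4 : ip (C.u k) v = p * x + q * t := by
    have := hP (C.u k) v
    rw [h3, ← hp', ← hq, hcomm v (C.u i), ← hx, ← ht] at this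
    linarith
  have hd2 : ρ ^ 2 ≤ d ^ 2 := by linarith
  have hdρ : ρ ≤ |d| := by
    rw [← sq_abs d] at hd2
    exact (pow_le_pow_iff_left₀ hρ.le (abs_nonneg _) two_ne_zero).1 hd2
  have hd0 : 0 < |d| := lt_of_lt_of_le hρ hdρ
  -- d * ip (u k) v = (p d - q c) x + q y
  have e5 : d * ip (C.u k) v = (p * d - q * c) * x + q * y := by
    rw [e4, e3]; ring
  have e6 : |p * d - q * c| ≤ 1 := by
    rw [← sq_le_one_iff_abs_le_one]
    nlinarith [sq_nonneg (p * c + q * d)]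
  have e7 : |q| ≤ 1 := by
    rw [← sq_le_one_iff_abs_le_one]
    nlinarith [sq_nonneg p]
  have hr : 0 ≤ r := (abs_nonneg _).trans hi
  have e8 : |d| * |ip (C.u k) v| ≤ 2 * r := by
    rw [← abs_mul, e5]
    calc |(p * d - q * c) * x + q * y| ≤ |(p * d - q * c) * x| + |q * y| := abs_add_le _ _
      _ = |p * d - q * c| * |x| + |q| * |y| := by rw [abs_mul, abs_mul]
      _ ≤ 1 * r + 1 * r := add_le_add (mul_le_mul e6 hi (abs_nonneg _) zero_le_one)
          (mul_le_mul e7 hj (abs_nonneg _) zero_le_one)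
      _ = 2 * r := by ring
  rw [le_div_iff₀ hρ]
  have e9 : |ip (C.u k) v| * ρ ≤ |ip (C.u k) v| * |d| :=
    mul_le_mul_of_nonneg_left hdρ (abs_nonneg _)
  linarith

end Pool.Agent.H23.DR
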