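import Pool.Agent.H23.DR.Fr

/-!
# Module Out (about 90 lines): the limit block, interface

PROOF. `exists_limD`, `frame_mu`. Let `δ' = min (δ/2) (1/4)` and `P a = {i | 1 - δ' < |ip (u i) (e a)|}`. Disjoint: two of
the three `|ip u (e a)|` cannot both be `> 3/4` (Bessel: `∑_a ip u (e a) ^2 ≤ 1`). The set
`{u | 1 - δ' < |ip u (e a)|}` is open and contains `pm (e a)`, so by `op` with error `δ/2` eventually
`|P a| ≥ (1/3 - δ/2) N`, and `|P a| ≤ N - |P b| - |P c| ≤ (1/3 + δ) N`. Eventually `1/(m+1) ≤ δ`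
(`UU ≤ atTop`). An eventually true statement is true for some `m` (`NeBot`).
-/

namespace Pool.Agent.H23.DR

open H47.DR MeasureTheory Filter Topology

private theorem Out_bessel (x a b : S2) (hab : ip a b = 0) (ha : 3 / 4 < |ip x a|)
    (hb : 3 / 4 < |ip x b|) : False := by
  obtain ⟨c, _, _, _, h4, -⟩ := exists_third (a : E) (b : E) (norm_sph a) (norm_sph b) hab
  have h5 := h4 (x : E) (x : E)
  rw [ip_self_sph x] at h5
  have h6 : (3 / 4 : ℝ) ^ 2 < ip x a * ip x a := by
    rw [← abs_mul_abs_self (ip (x : E) (a : E))]; nlinarith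
  have h7 : (3 / 4 : ℝ) ^ 2 < ip x b * ip x b := by
    rw [← abs_mul_abs_self (ip (x : E) (b : E))]; nlinarith
  nlinarith [mul_self_nonneg (ip (x : E) c)]

private theorem Out_mass {μ : Measure S2} [IsProbabilityMeasure μ] (y : S2) (η : ℝ) (hη : 0 < η)
    (hy : μ.real (pm y) = 1 / 3) : 1 / 3 ≤ μ.real {u : S2 | 1 - η < |ip u y|} := by
  rw [← hy]
  refine measureReal_mono ?_ (measure_ne_top _ _)
  intro u hu
  have h1 : |ip u y| = 1 := by
    rcases hu with hu | hu
    · have hu' : u = y := hu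
      rw [hu', ip_self_sph y, abs_one]
    · have hu' : u = -y := hu
      rw [hu']
      have e1 : ((-y : S2) : E) = -(y : E) := rfl
      rw [e1]
      have h2 := ip_self_sph y
      simp only [ip] at h2 ⊢
      rw [inner_neg_left, h2]
      norm_num
  change 1 - η < |ip u y|
  rw [h1]
  linarith

/-- **Interface of the limit block.** -/
theorem frame_limit (s : SeqG) (δ : ℝ) (hδ : 0 < δ) :
    ∃ m : ℕ, 1 / ((m : ℝ) + 1) ≤ δ ∧ ∃ (e : Fin 3 → E) (P : Fin 3 → Finset (Fin (s.N m))),
      Clu (s.C m) e P δ := by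
  classical
  obtain ⟨μ, PP, h⟩ := exists_limD s
  have := h.pr
  obtain ⟨e, he1, he2⟩ := frame_mu h
  set η : ℝ := min (δ / 2) (1 / 4) with hη
  have hη0 : 0 < η := lt_min (half_pos hδ) (by norm_num)
  have hη1 : η ≤ δ / 2 := min_le_left _ _
  have hη2 : η ≤ 1 / 4 := min_le_right _ _
  have hop : ∀ a : Fin 3, ∀ᶠ m in UU, (1 / 3 - δ / 2) * (s.N m : ℝ) ≤
      ((Finset.univ.filter fun i => (s.C m).us i ∈ {u : S2 | 1 - η < |ip u (e a)|}).card : ℝ) := by
    intro a
    have hcont : Continuous fun u : S2 => |ip u (e a)| := by fun_prop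
    have hopen : IsOpen {u : S2 | 1 - η < |ip u (e a)|} := isOpen_lt continuous_const hcont
    have h1 := h.op _ hopen (δ / 2) (half_pos hδ)
    have h2 := Out_mass (e a) η hη0 (he2 a)
    filter_upwards [h1] with m hm
    refine le_trans ?_ hm
    exact mul_le_mul_of_nonneg_right (by linarith) (Nat.cast_nonneg _)
  have hlim : ∀ᶠ m : ℕ in UU, 1 / ((m : ℝ) + 1) ≤ δ := by
    have h1 : Tendsto (fun m : ℕ => 1 / ((m : ℝ) + 1)) UU (𝓝 0) :=
      tendsto_one_div_add_atTop_nhds_zero_nat.mono_left Nat.hyperfilter_le_atTop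
    filter_upwards [h1.eventually (ge_mem_nhds hδ)] with m hm
    exact hm
  have hall : ∀ᶠ m : ℕ in UU, 1 / ((m : ℝ) + 1) ≤ δ ∧ ∀ a : Fin 3,
      (1 / 3 - δ / 2) * (s.N m : ℝ) ≤
      ((Finset.univ.filter fun i => (s.C m).us i ∈ {u : S2 | 1 - η < |ip u (e a)|}).card : ℝ) :=
    hlim.and (Filter.eventually_all.2 hop)
  have : Filter.NeBot UU := by unfold UU; infer_instance
  obtain ⟨m, hm1, hm2⟩ := hall.exists
  refine ⟨m, hm1, fun a => (e a : E),
    fun a => Finset.univ.filter fun i => (s.C m).us i ∈ {u : S2 | 1 - η < |ip u (e a)|}, ?_⟩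
  have hmem : ∀ a i, i ∈ (Finset.univ.filter fun i =>
      (s.C m).us i ∈ {u : S2 | 1 - η < |ip u (e a)|}) ↔ 1 - η < |ip ((s.C m).u i) (e a)| := by
    intro a i
    rw [Finset.mem_filter]
    exact ⟨fun h => h.2, fun h => ⟨Finset.mem_univ _, h⟩⟩
  have hdisj : ∀ a b, a ≠ b → Disjoint
      (Finset.univ.filter fun i => (s.C m).us i ∈ {u : S2 | 1 - η < |ip u (e a)|})
      (Finset.univ.filter fun i => (s.C m).us i ∈ {u : S2 | 1 - η < |ip u (e b)|}) := by
    intro a b hab
    rw [Finset.disjoint_left]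
    intro i hi hi'
    rw [hmem] at hi hi'
    exact Out_bessel ((s.C m).us i) (e a) (e b) (he1 a b hab)
      (lt_of_le_of_lt (by linarith) hi) (lt_of_le_of_lt (by linarith) hi')
  refine ⟨?_, ?_, ?_, hdisj⟩
  · intro a b
    by_cases hab : a = b
    · subst hab
      rw [if_pos rfl]
      exact ip_self_sph (e a)
    · rw [if_neg hab]
      exact he1 a b hab
  · intro a i hi
    rw [hmem] at hi
    linarith
  · have hsum : ∀ a b c : Fin 3, a ≠ b → a ≠ c → b ≠ c →
        ((Finset.univ.filter fun i => (s.C m).us i ∈ {u : S2 | 1 - η < |ip u (e a)|}).card : ℝ) +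
        ((Finset.univ.filter fun i => (s.C m).us i ∈ {u : S2 | 1 - η < |ip u (e b)|}).card : ℝ) +
        ((Finset.univ.filter fun i => (s.C m).us i ∈ {u : S2 | 1 - η < |ip u (e c)|}).card : ℝ)
          ≤ s.N m := by
      intro a b c hab hac hbc
      have h1 := Finset.card_union_of_disjoint (hdisj a b hab)
      have h2 := Finset.card_union_of_disjoint
        (Finset.disjoint_union_left.2 ⟨hdisj a c hac, hdisj b c hbc⟩)
      have h3 := Finset.card_le_univ
        (((Finset.univ.filter fun i => (s.C m).us i ∈ {u : S2 | 1 - η < |ip u (e a)|}) ∪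
        (Finset.univ.filter fun i => (s.C m).us i ∈ {u : S2 | 1 - η < |ip u (e b)|})) ∪
        (Finset.univ.filter fun i => (s.C m).us i ∈ {u : S2 | 1 - η < |ip u (e c)|}))
      rw [h2, h1, Fintype.card_fin] at h3
      exact_mod_cast h3
    have hN : (0 : ℝ) ≤ s.N m := Nat.cast_nonneg _
    have hup : ∀ a b c : Fin 3, a ≠ b → a ≠ c → b ≠ c →
        |((Finset.univ.filter fun i =>
          (s.C m).us i ∈ {u : S2 | 1 - η < |ip u (e a)|}).card : ℝ) - s.N m / 3| ≤
          δ * s.N m := by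
      intro a b c hab hac hbc
      have h1 := hsum a b c hab hac hbc
      have h2 := hm2 a
      have h3 := hm2 b
      have h4 := hm2 c
      rw [abs_le]
      constructor
      · nlinarith
      · nlinarith
    intro a
    fin_cases a
    · exact hup 0 1 2 (by decide) (by decide) (by decide)
    · exact hup 1 0 2 (by decide) (by decide) (by decide)
    · exact hup 2 0 1 (by decide) (by decide) (by decide)

end Pool.Agent.H23.DR
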