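import Pool.Agent.H23.DR.Third
import Pool.Agent.H47.DR.LSb

/-!
# Module Prp (about 70 lines)

PROOF. Let `ν` be the unit normal of `l` (`C.nu`), `a = u i`, `b` from `exists_third a ν`. For `j` in
`l` put `c j = ip (u j) a`, `d j = ip (u j) b`: `c^2 + d^2 = 1` and `ip (u j) (u k) = c j c k + d j d k`.
With `x j = c^2 - d^2`, `y j = 2 c d`: `2 ip (u j) (u k) ^ 2 - 1 = x j x k + y j y k`, so
`T l = (∑ x)^2 + (∑ y)^2` and `|∑ y| ≤ sqrt (T l)`. Since `ip V a = 0`: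
`ip V (u j) = d j ip V b`, so the sum is `(1/2) ip V b ∑ y`, and `|ip V b| ≤ ‖V‖`.
-/

namespace Pool.Agent.H23.DR

open H47.DR Finset

variable {n : ℕ}

/-- The perpendicular balance of a line at one of its points. -/
theorem abs_sum_perp (C : Cfg n) {l : Finset (Fin n)} (hl : l ∈ C.L) {i : Fin n} (hi : i ∈ l)
    (V : E) (hV : ip V (C.u i) = 0) :
    |∑ j ∈ l, ip (C.u i) (C.u j) * ip V (C.u j)| ≤ ‖V‖ * Real.sqrt (C.T l) := by
  obtain ⟨ν, hν, hνl⟩ := C.nu l hl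
  obtain ⟨b, hb, -, -, hP, -⟩ := exists_third (C.u i) ν (C.unit i) hν ((hνl i).1 hi)
  have hself : ∀ j, ip (C.u j) (C.u j) = 1 := by
    intro j
    simp only [ip]
    rw [real_inner_self_eq_norm_sq, C.unit]; norm_num
  have hcd : ∀ j ∈ l, ip (C.u j) (C.u i) ^ 2 + ip (C.u j) b ^ 2 = 1 := by
    intro j hj
    have := hP (C.u j) (C.u j)
    rw [hself, (hνl j).1 hj] at this
    linarith
  have hin : ∀ j ∈ l, ∀ k ∈ l, ip (C.u j) (C.u k) = ip (C.u j) (C.u i) * ip (C.u k) (C.u i) +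
      ip (C.u j) b * ip (C.u k) b := by
    intro j hj k hk
    have := hP (C.u j) (C.u k)
    rw [(hνl j).1 hj] at this
    linarith
  have hT : C.T l = (∑ j ∈ l, (ip (C.u j) (C.u i) ^ 2 - ip (C.u j) b ^ 2)) ^ 2 +
      (∑ j ∈ l, 2 * ip (C.u j) (C.u i) * ip (C.u j) b) ^ 2 := by
    rw [Cfg.T, sq (∑ j ∈ l, (ip (C.u j) (C.u i) ^ 2 - ip (C.u j) b ^ 2)),
      sq (∑ j ∈ l, 2 * ip (C.u j) (C.u i) * ip (C.u j) b), Finset.sum_mul_sum, Finset.sum_mul_sum,
      ← Finset.sum_add_distrib]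
    refine Finset.sum_congr rfl fun j hj => ?_
    rw [← Finset.sum_add_distrib]
    refine Finset.sum_congr rfl fun k hk => ?_
    rw [hin j hj k hk]
    have h1 := hcd j hj
    have h2 := hcd k hk
    have h3 : (ip (C.u j) (C.u i) ^ 2 + ip (C.u j) b ^ 2) * (ip (C.u k) (C.u i) ^ 2 + ip (C.u k) b ^ 2) = 1 := by
      rw [h1, h2, one_mul]
    linear_combination h3
  have hy : |∑ j ∈ l, 2 * ip (C.u j) (C.u i) * ip (C.u j) b| ≤ Real.sqrt (C.T l) := by
    apply Real.abs_le_sqrt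
    rw [hT]
    have := sq_nonneg (∑ j ∈ l, (ip (C.u j) (C.u i) ^ 2 - ip (C.u j) b ^ 2))
    linarith
  have hsum : ∑ j ∈ l, ip (C.u i) (C.u j) * ip V (C.u j) =
      1 / 2 * ip V b * ∑ j ∈ l, 2 * ip (C.u j) (C.u i) * ip (C.u j) b := by
    rw [Finset.mul_sum]
    refine Finset.sum_congr rfl fun j hj => ?_
    have h1 := hP V (C.u j)
    rw [hV, (hνl j).1 hj] at h1
    have h2 : ip (C.u i) (C.u j) = ip (C.u j) (C.u i) := by rw [ip, real_inner_comm]
    rw [h1, h2]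
    ring
  have hVb : |ip V b| ≤ ‖V‖ := by
    have := abs_real_inner_le_norm V b
    rwa [hb, mul_one] at this
  rw [hsum, abs_mul, abs_mul, abs_of_pos (by norm_num : (0 : ℝ) < 1 / 2)]
  have h0 := norm_nonneg V
  have h1 := abs_nonneg (∑ j ∈ l, 2 * ip (C.u j) (C.u i) * ip (C.u j) b)
  have h2 := abs_nonneg (ip V b)
  calc 1 / 2 * |ip V b| * |∑ j ∈ l, 2 * ip (C.u j) (C.u i) * ip (C.u j) b|
      ≤ 1 * ‖V‖ * Real.sqrt (C.T l) := by
        refine mul_le_mul ?_ hy h1 (by positivity)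
        exact mul_le_mul (by norm_num) hVb h2 (by norm_num)
    _ = ‖V‖ * Real.sqrt (C.T l) := by ring

end Pool.Agent.H23.DR
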