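import Pool.Agent.H23.DR.Sc2
import Pool.Agent.H23.DR.LimEx

/-!
# Module QS (about 150 lines)

PROOF. Let `χ u = 1` if `|ip u v| ≤ r`, `0` if `|ip u v| ≥ s1`, linear in `|ip u v|` between
(`max 0 (min 1 ((s1 - |ip u v|)/(s1 - r)))`), continuous. `a` = number of `i` with `r < |ip (u i) v| ≤ s1`.
(1) `{r ≤ |ip u v| ≤ s1}` is closed and contained in the set of `hμ`, so `a ≤ 2 ε N` eventually (`cl`).
(2) `{|ip u v| < r}` is open and contains `Pl v`: third claim by `op`.
(3) `|∑_{j ∈ NN} (1 - 2 ip (u j) y ^2) - ∑_j χ(u j) (1 - 2 ip (u j) y ^2)| ≤ a`. Uniform convergence: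
`∑_j χ (1 - 2 ip (u j) y ^2) = ∑_j χ - 2 ∑_{a,b} y_a y_b ∑_j χ (u j)_a (u j)_b`, `|y_a y_b| ≤ 1`, and by `ct` each of
the ten sums divided by `N` is within `ε/20` of its integral. So it is within `ε N` of
`N ∫ χ (1 - 2 ip u y ^2) dμ`, and this integral is within `ε` of `∫_{Pl v} (1 - 2 ip u y ^2) dμ`
(`χ = 1` on `Pl v`, `χ = 0` for `|ip u v| > s1`, `hμ`). The latter is `μ(Pl v) - 2 BL μ v y y`; with
`y = y' + ip y v v`, `BL y y = BL y' y' = μ(Pl v)/2 ‖y'‖^2 = μ(Pl v)/2 (1 - ip y v ^2)` (`Scal`, `BL_v`), so it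
is `μ(Pl v) ip y v ^2 ≤ r^2 ≤ ε`. Total `2 ε + ε + ε + ε`.
-/

namespace Pool.Agent.H23.DR

open H47.DR MeasureTheory Filter Topology

private theorem qs_int (μ : Measure S2) [IsFiniteMeasure μ] {f : S2 → ℝ} (hf : Continuous f) :
    Integrable f μ := by
  obtain ⟨B, hB⟩ := (isCompact_univ (X := S2)).exists_bound_of_continuousOn hf.continuousOn
  exact Integrable.of_bound hf.aestronglyMeasurable B
    (Eventually.of_forall fun x => hB x trivial)

private theorem qs_ip (u y : E) : ip u y = ∑ a, u a * y a := by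
  simp [ip, PiLp.inner_apply, mul_comm]

private theorem qs_sq (u y : E) : ip u y ^ 2 = ∑ a, ∑ b, y a * y b * (u a * u b) := by
  rw [qs_ip, sq, Finset.sum_mul_sum]
  refine Finset.sum_congr rfl fun a _ => Finset.sum_congr rfl fun b _ => ?_
  ring

private theorem qs_coord {y : E} (hy : ‖y‖ = 1) (a : Fin 3) : |y a| ≤ 1 := by
  have := PiLp.norm_apply_le y a
  rwa [Real.norm_eq_abs, hy] at this

private theorem qs_ip_le (u : S2) {y : E} (hy : ‖y‖ = 1) : ip (u : E) y ^ 2 ≤ 1 := by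
  have h1 := abs_real_inner_le_norm (u : E) y
  rw [norm_sph, hy, one_mul] at h1
  have h2 : |ip (u : E) y| ≤ 1 := h1
  rw [← sq_abs]
  nlinarith [abs_nonneg (ip (u : E) y)]

private theorem qs_BL {μ : Measure S2} [IsProbabilityMeasure μ] {v : S2} (hS : Scal μ v) {y : E}
    (hy : ‖y‖ = 1) : BL μ v y y = μ.real (Pl v) / 2 * (1 - ip y v ^ 2) := by
  set t : ℝ := ip y (v : E) with ht
  set y' : E := y - t • (v : E) with hy'
  have e : y = y' + t • (v : E) := by rw [hy']; abel
  have hyv : ip y' (v : E) = 0 := by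
    have h1 := ip_self_sph v
    rw [hy']
    simp only [ip] at h1 ⊢
    rw [inner_sub_left, real_inner_smul_left, h1, mul_one, ht]
    simp [ip]
  have hyy : ip y' y = 1 - t ^ 2 := by
    rw [hy']
    simp only [ip]
    rw [inner_sub_left, real_inner_smul_left, real_inner_self_eq_norm_sq, hy,
      real_inner_comm]
    rw [ht]
    simp only [ip]
    ring
  have h1 : BL μ v y y = BL μ v y' y + t * BL μ v (v : E) y := by
    have h2 : BL μ v (y' + t • (v : E)) y = BL μ v y' y + t * BL μ v (v : E) y := by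
      rw [BL_add, BL_smul]
    rwa [← e] at h2
  rw [h1, BL_symm μ v (v : E) y, BL_v, hS y' y hyv, hyy]
  ring

/-- the integral over the great circle -/
private theorem qs_pl {μ : Measure S2} [IsProbabilityMeasure μ] {v : S2} (hS : Scal μ v) {y : E}
    (hy : ‖y‖ = 1) :
    ∫ u in Pl v, (1 - 2 * ip u y ^ 2) ∂μ = μ.real (Pl v) * ip y v ^ 2 := by
  have c1 : Continuous fun u : S2 => ip u y * ip u y := by fun_prop
  have e : ∀ u : S2, 1 - 2 * ip u y ^ 2 = 1 - 2 * (ip u y * ip u y) := fun u => by ring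
  simp only [e]
  rw [integral_sub (integrable_const _) ((qs_int _ c1).const_mul 2), integral_const_mul]
  have h1 : ∫ u in Pl v, ip u y * ip u y ∂μ = BL μ v y y := rfl
  rw [h1, qs_BL hS hy]
  simp [Measure.real]
  ring

/-- comparison of the smooth cut off and the great circle -/
private theorem qs_cmp {μ : Measure S2} [IsProbabilityMeasure μ] {v : S2} {ε s1 : ℝ}
    (hμ : μ.real {u : S2 | 0 < |ip u v| ∧ |ip u v| ≤ s1} ≤ ε) {χ g : S2 → ℝ}
    (hχ : Continuous χ) (hg : Continuous g) (hχ0 : ∀ u, 0 ≤ χ u) (hχ1 : ∀ u, χ u ≤ 1)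
    (hχv : ∀ u : S2, ip u v = 0 → χ u = 1) (hχs : ∀ u : S2, s1 < |ip u v| → χ u = 0)
    (hgb : ∀ u, |g u| ≤ 1) :
    |∫ u, χ u * g u ∂μ - ∫ u in Pl v, g u ∂μ| ≤ ε := by
  have mP : MeasurableSet (Pl v) := (isClosed_Pl v).measurableSet
  set A : Set S2 := {u : S2 | 0 < |ip u v| ∧ |ip u v| ≤ s1} with hA
  have mA : MeasurableSet A := by
    have c : Continuous fun u : S2 => |ip u v| := by fun_prop
    exact (measurableSet_lt measurable_const c.measurable).inter
      (measurableSet_le c.measurable measurable_const)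
  have i1 : Integrable (fun u => χ u * g u) μ := qs_int μ (hχ.mul hg)
  have i2 : Integrable ((Pl v).indicator g) μ := (qs_int μ hg).indicator mP
  have i3 : Integrable (A.indicator fun _ => (1 : ℝ)) μ := (integrable_const _).indicator mA
  rw [← integral_indicator mP, ← integral_sub i1 i2]
  have hle : ∀ u, |χ u * g u - (Pl v).indicator g u| ≤ A.indicator (fun _ => (1 : ℝ)) u := by
    intro u
    by_cases h0 : ip (u : E) (v : E) = 0
    · have hu : u ∈ Pl v := h0
      have hA' : u ∉ A := by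
        intro hu'
        have := hu'.1
        rw [h0, abs_zero] at this
        exact lt_irrefl _ this
      rw [Set.indicator_of_mem hu, Set.indicator_of_notMem hA', hχv u h0]
      simp
    · have hu : u ∉ Pl v := h0
      rw [Set.indicator_of_notMem hu, sub_zero]
      by_cases h1 : |ip (u : E) (v : E)| ≤ s1
      · have hA' : u ∈ A := ⟨abs_pos.2 h0, h1⟩
        rw [Set.indicator_of_mem hA', abs_mul, abs_of_nonneg (hχ0 u)]
        calc χ u * |g u| ≤ 1 * 1 := mul_le_mul (hχ1 u) (hgb u) (abs_nonneg _) zero_le_one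
          _ = 1 := one_mul 1
      · have hA' : u ∉ A := fun hu' => h1 hu'.2
        rw [Set.indicator_of_notMem hA', hχs u (not_le.1 h1), zero_mul, abs_zero]
  calc |∫ u, (χ u * g u - (Pl v).indicator g u) ∂μ|
      ≤ ∫ u, |χ u * g u - (Pl v).indicator g u| ∂μ := abs_integral_le_integral_abs
    _ ≤ ∫ u, A.indicator (fun _ => (1 : ℝ)) u ∂μ :=
        integral_mono (i1.sub i2).abs i3 hle
    _ = μ.real A := by
        rw [integral_indicator mA]
        simp [Measure.real]
    _ ≤ ε := hμ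

open Classical in
/-- uniform convergence of the second moments with a continuous weight -/
private theorem qs_unif {s : SeqG} {μ : Measure S2} {PP : Measure (S2 × S2 × S2)}
    (h : LimD s μ PP) {χ : S2 → ℝ} (hχ : Continuous χ) {ε : ℝ} (hε : 0 < ε) :
    ∀ᶠ m in UU, ∀ y : E, ‖y‖ = 1 →
      |∑ i, χ ((s.C m).us i) * (1 - 2 * ip ((s.C m).u i) y ^ 2) -
        (s.N m : ℝ) * ∫ u, χ u * (1 - 2 * ip u y ^ 2) ∂μ| ≤ ε * s.N m := by
  have := h.pr
  have hε' : 0 < ε / 20 := by positivity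
  have c2 : ∀ a b : Fin 3, Continuous fun u : S2 => χ u * ((u : E) a * (u : E) b) := by
    intro a b
    fun_prop
  have e0 := Metric.tendsto_nhds.1 (h.ct χ hχ) (ε / 20) hε'
  have e1 : ∀ᶠ m in UU, ∀ a b : Fin 3, dist (1 / (s.N m : ℝ) * ∑ i,
      χ ((s.C m).us i) * ((((s.C m).us i : S2) : E) a * (((s.C m).us i : S2) : E) b))
      (∫ u, χ u * ((u : E) a * (u : E) b) ∂μ) < ε / 20 :=
    Filter.eventually_all.2 fun a => Filter.eventually_all.2 fun b =>
      Metric.tendsto_nhds.1 (h.ct _ (c2 a b)) (ε / 20) hε'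
  filter_upwards [e0, e1] with m h0 h1 y hy
  have hN : (0 : ℝ) < s.N m := by exact_mod_cast N_pos s m
  set I0 : ℝ := ∫ u, χ u ∂μ with hI0
  set I1 : Fin 3 → Fin 3 → ℝ := fun a b => ∫ u, χ u * ((u : E) a * (u : E) b) ∂μ with hI1
  set S0 : ℝ := ∑ i, χ ((s.C m).us i) with hS0
  set S1 : Fin 3 → Fin 3 → ℝ := fun a b => ∑ i,
      χ ((s.C m).us i) * ((((s.C m).us i : S2) : E) a * (((s.C m).us i : S2) : E) b) with hS1
  have g0 : |S0 - s.N m * I0| ≤ ε / 20 * s.N m := by
    rw [Real.dist_eq] at h0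
    have e : S0 - s.N m * I0 = (s.N m : ℝ) * (1 / (s.N m : ℝ) * S0 - I0) := by
      field_simp
    rw [e, abs_mul, abs_of_pos hN, mul_comm]
    exact mul_le_mul_of_nonneg_right h0.le hN.le
  have g1 : ∀ a b, |S1 a b - s.N m * I1 a b| ≤ ε / 20 * s.N m := by
    intro a b
    have h2 := h1 a b
    rw [Real.dist_eq] at h2
    have e : S1 a b - s.N m * I1 a b = (s.N m : ℝ) * (1 / (s.N m : ℝ) * S1 a b - I1 a b) := by
      field_simp
    rw [e, abs_mul, abs_of_pos hN, mul_comm]
    exact mul_le_mul_of_nonneg_right h2.le hN.le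
  have hexp : ∀ u : S2, χ u * (1 - 2 * ip (u : E) y ^ 2) =
      χ u - 2 * ∑ a, ∑ b, y a * y b * (χ u * ((u : E) a * (u : E) b)) := by
    intro u
    rw [qs_sq]
    have e : ∑ a, ∑ b, y a * y b * (χ u * ((u : E) a * (u : E) b)) =
        χ u * ∑ a, ∑ b, y a * y b * ((u : E) a * (u : E) b) := by
      rw [Finset.mul_sum]
      refine Finset.sum_congr rfl fun a _ => ?_
      rw [Finset.mul_sum]
      refine Finset.sum_congr rfl fun b _ => ?_
      ring
    rw [e]
    ring
  have hsum : ∑ i, χ ((s.C m).us i) * (1 - 2 * ip ((s.C m).u i) y ^ 2) =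
      S0 - 2 * ∑ a, ∑ b, y a * y b * S1 a b := by
    have e : ∀ i, χ ((s.C m).us i) * (1 - 2 * ip ((s.C m).u i) y ^ 2) =
        χ ((s.C m).us i) - 2 * ∑ a, ∑ b, y a * y b *
          (χ ((s.C m).us i) * ((((s.C m).us i : S2) : E) a * (((s.C m).us i : S2) : E) b)) :=
      fun i => hexp ((s.C m).us i)
    rw [Finset.sum_congr rfl fun i _ => e i, Finset.sum_sub_distrib, ← Finset.mul_sum]
    congr 2
    rw [Finset.sum_comm]
    refine Finset.sum_congr rfl fun a _ => ?_
    rw [Finset.sum_comm]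
    refine Finset.sum_congr rfl fun b _ => ?_
    rw [← Finset.mul_sum]
  have hint : ∫ u, χ u * (1 - 2 * ip u y ^ 2) ∂μ = I0 - 2 * ∑ a, ∑ b, y a * y b * I1 a b := by
    simp only [hexp]
    have j1 : ∀ a b : Fin 3, Integrable (fun u : S2 => y a * y b *
        (χ u * ((u : E) a * (u : E) b))) μ := fun a b => (qs_int μ (c2 a b)).const_mul _
    have j2 : ∀ a : Fin 3, Integrable (fun u : S2 => ∑ b, y a * y b *
        (χ u * ((u : E) a * (u : E) b))) μ := fun a => integrable_finsetSum _ fun b _ => j1 a b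
    have j3 : Integrable (fun u : S2 => ∑ a, ∑ b, y a * y b *
        (χ u * ((u : E) a * (u : E) b))) μ := integrable_finsetSum _ fun a _ => j2 a
    rw [integral_sub (qs_int μ hχ) (j3.const_mul 2), integral_const_mul,
      integral_finsetSum _ fun a _ => j2 a]
    congr 2
    refine Finset.sum_congr rfl fun a _ => ?_
    rw [integral_finsetSum _ fun b _ => j1 a b]
    refine Finset.sum_congr rfl fun b _ => ?_
    rw [integral_const_mul]
  rw [hsum, hint]
  have e2 : S0 - 2 * ∑ a, ∑ b, y a * y b * S1 a b -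
      s.N m * (I0 - 2 * ∑ a, ∑ b, y a * y b * I1 a b) =
      (S0 - s.N m * I0) - 2 * ∑ a, ∑ b, y a * y b * (S1 a b - s.N m * I1 a b) := by
    have e3 : ∑ a, ∑ b, y a * y b * (S1 a b - s.N m * I1 a b) =
        ∑ a, ∑ b, y a * y b * S1 a b - s.N m * ∑ a, ∑ b, y a * y b * I1 a b := by
      rw [Finset.mul_sum, ← Finset.sum_sub_distrib]
      refine Finset.sum_congr rfl fun a _ => ?_
      rw [Finset.mul_sum, ← Finset.sum_sub_distrib]
      refine Finset.sum_congr rfl fun b _ => ?_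
      ring
    rw [e3]
    ring
  rw [e2]
  have h4 : |∑ a, ∑ b, y a * y b * (S1 a b - s.N m * I1 a b)| ≤ 9 * (ε / 20 * s.N m) := by
    have h5 : ∀ a b, |y a * y b * (S1 a b - s.N m * I1 a b)| ≤ ε / 20 * s.N m := by
      intro a b
      rw [abs_mul, abs_mul]
      have h6 : |y a| * |y b| ≤ 1 * 1 :=
        mul_le_mul (qs_coord hy a) (qs_coord hy b) (abs_nonneg _) zero_le_one
      calc |y a| * |y b| * |S1 a b - s.N m * I1 a b| ≤ (1 * 1) * (ε / 20 * s.N m) :=
            mul_le_mul h6 (g1 a b) (abs_nonneg _) (by norm_num)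
        _ = ε / 20 * s.N m := by ring
    calc |∑ a, ∑ b, y a * y b * (S1 a b - s.N m * I1 a b)|
        ≤ ∑ a, |∑ b, y a * y b * (S1 a b - s.N m * I1 a b)| := Finset.abs_sum_le_sum_abs _ _
      _ ≤ ∑ a : Fin 3, ∑ b : Fin 3, ε / 20 * s.N m := by
          refine Finset.sum_le_sum fun a _ => ?_
          exact (Finset.abs_sum_le_sum_abs _ _).trans (Finset.sum_le_sum fun b _ => h5 a b)
      _ = 9 * (ε / 20 * s.N m) := by
          simp only [Finset.sum_const, Finset.card_univ, Fintype.card_fin, nsmul_eq_mul]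
          push_cast
          ring
  have h6 := abs_sub (S0 - s.N m * I0) (2 * ∑ a, ∑ b, y a * y b * (S1 a b - s.N m * I1 a b))
  rw [abs_mul, abs_of_pos (by norm_num : (0 : ℝ) < 2)] at h6
  have h7 : 0 < ε * s.N m := by positivity
  linarith

open Classical in
theorem qs {s : SeqG} {μ : Measure S2} {PP : Measure (S2 × S2 × S2)} (h : LimD s μ PP) (v : S2)
    (hS : Scal μ v) (ε s1 r : ℝ) (hε : 0 < ε) (hs1 : 0 < s1)
    (hμ : μ.real {u : S2 | 0 < |ip u v| ∧ |ip u v| ≤ s1} ≤ ε) (hr : 0 < r) (hr1 : r < s1)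
    (hr2 : r ^ 2 ≤ ε) :
    ∀ᶠ m in UU,
      ((Finset.univ.filter fun j => r < |ip ((s.C m).u j) v| ∧
        |ip ((s.C m).u j) v| ≤ s1).card : ℝ) ≤ 2 * ε * s.N m ∧
      (∀ y : E, ‖y‖ = 1 → |ip y v| ≤ r →
        |∑ j ∈ NN (s.C m) v r, (1 - 2 * ip ((s.C m).u j) y ^ 2)| ≤ 5 * ε * s.N m) ∧
      (μ.real (Pl v) - ε) * s.N m ≤ ((NN (s.C m) v r).card : ℝ) := by
  have := h.pr
  have cabs : Continuous fun u : S2 => |ip u v| := by fun_prop
  -- the closed annulus
  obtain ⟨F, hFdef⟩ : ∃ F : Set S2, F = {u : S2 | r ≤ |ip u v| ∧ |ip u v| ≤ s1} := ⟨_, rfl⟩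
  have hF : IsClosed F := by
    rw [hFdef]
    exact (isClosed_le continuous_const cabs).inter (isClosed_le cabs continuous_const)
  have hF1 := h.cl F hF ε hε
  have hFμ : μ.real F ≤ ε := by
    refine le_trans (measureReal_mono ?_) hμ
    intro u hu
    rw [hFdef] at hu
    exact ⟨lt_of_lt_of_le hr hu.1, hu.2⟩
  -- the open band
  obtain ⟨G, hGdef⟩ : ∃ G : Set S2, G = {u : S2 | |ip u v| < r} := ⟨_, rfl⟩
  have hG : IsOpen G := by rw [hGdef]; exact isOpen_lt cabs continuous_const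
  have hG1 := h.op G hG ε hε
  have hGμ : μ.real (Pl v) ≤ μ.real G := by
    refine measureReal_mono (fun u hu => ?_)
    have hu' : ip (u : E) (v : E) = 0 := hu
    rw [hGdef]
    change |ip (u : E) (v : E)| < r
    rw [hu', abs_zero]
    exact hr
  -- the cut off
  set χ : S2 → ℝ := fun u => max 0 (min 1 ((s1 - |ip u v|) / (s1 - r))) with hχdef
  have hsr : 0 < s1 - r := by linarith
  have hχ : Continuous χ := by
    rw [hχdef]
    exact continuous_const.max (continuous_const.min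
      ((continuous_const.sub cabs).div_const _))
  have hχ0 : ∀ u, 0 ≤ χ u := fun u => le_max_left _ _
  have hχ1 : ∀ u, χ u ≤ 1 := fun u => max_le zero_le_one (min_le_left _ _)
  have hχr : ∀ u : S2, |ip u v| ≤ r → χ u = 1 := by
    intro u hu
    have h1 : 1 ≤ (s1 - |ip u v|) / (s1 - r) := by
      rw [le_div_iff₀ hsr]; linarith
    simp only [hχdef]
    rw [min_eq_left h1]
    exact max_eq_right zero_le_one
  have hχs : ∀ u : S2, s1 < |ip u v| → χ u = 0 := by
    intro u hu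
    have h1 : (s1 - |ip u v|) / (s1 - r) ≤ 0 :=
      div_nonpos_of_nonpos_of_nonneg (by linarith) hsr.le
    simp only [hχdef]
    exact max_eq_left ((min_le_right _ _).trans h1)
  have hχv : ∀ u : S2, ip u v = 0 → χ u = 1 := fun u hu => hχr u (by rw [hu, abs_zero]; exact hr.le)
  have hU := qs_unif h hχ hε
  filter_upwards [hF1, hG1, hU] with m h1 h2 h3
  have hN : (0 : ℝ) < s.N m := by exact_mod_cast N_pos s m
  have hann : ((Finset.univ.filter fun j => r < |ip ((s.C m).u j) v| ∧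
        |ip ((s.C m).u j) v| ≤ s1).card : ℝ) ≤ 2 * ε * s.N m := by
    have h4 : ((Finset.univ.filter fun j => r < |ip ((s.C m).u j) v| ∧
        |ip ((s.C m).u j) v| ≤ s1).card : ℝ) ≤ ((Finset.univ.filter fun i =>
          (s.C m).us i ∈ F).card : ℝ) := by
      have h5 : (Finset.univ.filter fun j => r < |ip ((s.C m).u j) v| ∧
        |ip ((s.C m).u j) v| ≤ s1) ⊆ (Finset.univ.filter fun i => (s.C m).us i ∈ F) := by
        intro j hj
        have hj' := (Finset.mem_filter.1 hj).2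
        refine Finset.mem_filter.2 ⟨Finset.mem_univ j, ?_⟩
        rw [hFdef]
        exact ⟨hj'.1.le, hj'.2⟩
      exact_mod_cast Finset.card_le_card h5
    refine h4.trans (h1.trans ?_)
    exact mul_le_mul_of_nonneg_right (by linarith) hN.le
  refine ⟨hann, fun y hy hyr => ?_, ?_⟩
  · have h4 := h3 y hy
    have h5 := qs_cmp (g := fun u : S2 => 1 - 2 * ip u y ^ 2) hμ hχ (by fun_prop) hχ0 hχ1 hχv hχs
      (fun u => by
        have h6 := qs_ip_le u hy
        rw [abs_le]
        constructor <;> nlinarith [sq_nonneg (ip (u : E) y)])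
    have h6 := qs_pl hS hy
    rw [h6] at h5
    have h7 : |μ.real (Pl v) * ip y v ^ 2| ≤ ε := by
      have h8 : μ.real (Pl v) ≤ 1 := measureReal_le_one
      have h9 : 0 ≤ μ.real (Pl v) := measureReal_nonneg
      have h10 : ip y v ^ 2 ≤ r ^ 2 := by
        rw [← sq_abs (ip y v)]
        exact pow_le_pow_left₀ (abs_nonneg _) hyr 2
      rw [abs_of_nonneg (mul_nonneg h9 (sq_nonneg _))]
      calc μ.real (Pl v) * ip y v ^ 2 ≤ 1 * r ^ 2 :=
            mul_le_mul h8 h10 (sq_nonneg _) zero_le_one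
        _ ≤ ε := by rw [one_mul]; exact hr2
    -- the difference of the sums
    set g : Fin (s.N m) → ℝ := fun i => 1 - 2 * ip ((s.C m).u i) y ^ 2 with hg
    have hgb : ∀ i, |g i| ≤ 1 := by
      intro i
      have h8 := qs_ip_le ((s.C m).us i) hy
      have h9 : ip ((s.C m).u i) y ^ 2 ≤ 1 := h8
      simp only [hg]
      rw [abs_le]
      constructor <;> nlinarith [sq_nonneg (ip ((s.C m).u i) y)]
    have h8 : |∑ j ∈ NN (s.C m) v r, g j - ∑ i, χ ((s.C m).us i) * g i| ≤ 2 * ε * s.N m := by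
      refine le_trans ?_ hann
      have e1 : ∑ j ∈ NN (s.C m) v r, g j =
          ∑ j, if |ip ((s.C m).u j) v| ≤ r then g j else 0 := by
        unfold NN
        rw [Finset.sum_filter]
      have e2 : ((Finset.univ.filter fun j => r < |ip ((s.C m).u j) v| ∧
          |ip ((s.C m).u j) v| ≤ s1).card : ℝ) = ∑ j, if (r < |ip ((s.C m).u j) v| ∧
          |ip ((s.C m).u j) v| ≤ s1) then (1 : ℝ) else 0 := by
        rw [Finset.sum_boole]
      rw [e1, e2, ← Finset.sum_sub_distrib]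
      refine (Finset.abs_sum_le_sum_abs _ _).trans (Finset.sum_le_sum fun j _ => ?_)
      by_cases hj : |ip ((s.C m).u j) v| ≤ r
      · have hj1 : χ ((s.C m).us j) = 1 := hχr ((s.C m).us j) hj
        rw [if_pos hj, hj1, one_mul, sub_self, abs_zero]
        split_ifs <;> norm_num
      · rw [if_neg hj, zero_sub, abs_neg]
        by_cases hj2 : |ip ((s.C m).u j) v| ≤ s1
        · rw [if_pos ⟨not_le.1 hj, hj2⟩, abs_mul, abs_of_nonneg (hχ0 _)]
          calc χ ((s.C m).us j) * |g j| ≤ 1 * 1 :=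
                mul_le_mul (hχ1 _) (hgb j) (abs_nonneg _) zero_le_one
            _ = 1 := one_mul 1
        · have hj3 : χ ((s.C m).us j) = 0 := hχs ((s.C m).us j) (not_le.1 hj2)
          rw [hj3, zero_mul, abs_zero]
          split_ifs <;> norm_num
    have h9 : |(s.N m : ℝ) * ∫ u, χ u * (1 - 2 * ip u y ^ 2) ∂μ| ≤ 2 * ε * s.N m := by
      rw [abs_mul, abs_of_pos hN, mul_comm]
      refine mul_le_mul_of_nonneg_right ?_ hN.le
      have h10 := abs_sub_abs_le_abs_sub (∫ u, χ u * (1 - 2 * ip u y ^ 2) ∂μ)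
        (μ.real (Pl v) * ip y v ^ 2)
      linarith
    have h10 : |∑ j ∈ NN (s.C m) v r, g j| ≤
        |∑ j ∈ NN (s.C m) v r, g j - ∑ i, χ ((s.C m).us i) * g i| +
        |∑ i, χ ((s.C m).us i) * g i - (s.N m : ℝ) * ∫ u, χ u * (1 - 2 * ip u y ^ 2) ∂μ| +
        |(s.N m : ℝ) * ∫ u, χ u * (1 - 2 * ip u y ^ 2) ∂μ| := by
      have h11 := abs_add_three (∑ j ∈ NN (s.C m) v r, g j - ∑ i, χ ((s.C m).us i) * g i)
        (∑ i, χ ((s.C m).us i) * g i - (s.N m : ℝ) * ∫ u, χ u * (1 - 2 * ip u y ^ 2) ∂μ)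
        ((s.N m : ℝ) * ∫ u, χ u * (1 - 2 * ip u y ^ 2) ∂μ)
      have e : ∑ j ∈ NN (s.C m) v r, g j =
        (∑ j ∈ NN (s.C m) v r, g j - ∑ i, χ ((s.C m).us i) * g i) +
        (∑ i, χ ((s.C m).us i) * g i - (s.N m : ℝ) * ∫ u, χ u * (1 - 2 * ip u y ^ 2) ∂μ) +
        ((s.N m : ℝ) * ∫ u, χ u * (1 - 2 * ip u y ^ 2) ∂μ) := by ring
      rw [← e] at h11
      exact h11
    linarith
  · have h4 : ((Finset.univ.filter fun i => (s.C m).us i ∈ G).card : ℝ) ≤
        ((NN (s.C m) v r).card : ℝ) := by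
      have h5 : (Finset.univ.filter fun i => (s.C m).us i ∈ G) ⊆ NN (s.C m) v r := by
        intro j hj
        have hj1 := (Finset.mem_filter.1 hj).2
        rw [hGdef] at hj1
        have hj' : |ip ((s.C m).u j) v| < r := hj1
        exact Finset.mem_filter.2 ⟨Finset.mem_univ j, hj'.le⟩
      exact_mod_cast Finset.card_le_card h5
    refine le_trans ?_ (h2.trans h4)
    exact mul_le_mul_of_nonneg_right (by linarith) hN.le

/-- Small annuli around a great circle have small mass. -/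
theorem annulus (μ : Measure S2) [IsProbabilityMeasure μ] (v : S2) (ε : ℝ) (hε : 0 < ε) :
    ∃ s1 : ℝ, 0 < s1 ∧ s1 ≤ 1 ∧ ∀ t : ℝ, t ≤ s1 →
      μ.real {u : S2 | 0 < |ip u v| ∧ |ip u v| ≤ t} ≤ ε := by
  have cabs : Continuous fun u : S2 => |ip u v| := by fun_prop
  set A : ℕ → Set S2 := fun k => {u : S2 | 0 < |ip u v| ∧ |ip u v| ≤ 1 / ((k : ℝ) + 1)} with hA
  have mA : ∀ k, MeasurableSet (A k) := fun k =>
    (measurableSet_lt measurable_const cabs.measurable).inter
      (measurableSet_le cabs.measurable measurable_const)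
  have hanti : Antitone A := by
    intro k l hkl u hu
    refine ⟨hu.1, hu.2.trans ?_⟩
    exact one_div_le_one_div_of_le (by positivity) (by
      have : (k : ℝ) ≤ l := by exact_mod_cast hkl
      linarith)
  have hemp : ⋂ k, A k = ∅ := by
    rw [Set.eq_empty_iff_forall_notMem]
    intro u hu
    rw [Set.mem_iInter] at hu
    obtain ⟨k, hk⟩ := exists_nat_one_div_lt (hu 0).1
    exact absurd (hu k).2 (not_le.2 hk)
  have ht := tendsto_measure_iInter_atTop (μ := μ) (fun k => (mA k).nullMeasurableSet) hanti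
    ⟨0, measure_ne_top _ _⟩
  rw [hemp, measure_empty] at ht
  have ht' : Tendsto (fun k => μ.real (A k)) atTop (𝓝 0) := by
    have := (ENNReal.tendsto_toReal ENNReal.zero_ne_top).comp ht
    simpa [Measure.real, Function.comp_def] using this
  obtain ⟨k, hk⟩ := (ht'.eventually (gt_mem_nhds hε)).exists
  refine ⟨1 / ((k : ℝ) + 1), by positivity, ?_, fun t ht => ?_⟩
  · rw [div_le_one (by positivity)]
    have : (0 : ℝ) ≤ k := Nat.cast_nonneg k
    linarith
  · refine le_trans (measureReal_mono ?_) hk.le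
    intro u hu
    exact ⟨hu.1, hu.2.trans ht⟩

end Pool.Agent.H23.DR
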