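import Pool.Agent.H23.DR.Eig

/-!
# Module Sc2 (about 110 lines)

PROOF. `BL_symm`, `BL_v`: clear (`ip u v = 0` on `Pl v`). `BL_trace`: if `e, f` is an orthonormal basis of the
plane then `ip u e ^ 2 + ip u f ^ 2 = 1` on `Pl v` (`exists_third`), so
`BL e e + BL f f = μ (Pl v)`. `scal_of_two`: let `p, q ∈ Pl v` be eigenvectors (`hp`, `hq`), not parallel, not
orthogonal. `f` = the third vector of the frame `p, v, f`; `q = c p + d f`, `c, d ≠ 0`. `hp` for `w = f`:
`BL p f = 0`. `hq` for `w = -d p + c f` (orthogonal to `q`): `0 = BL q w = - c d BL p p + c d BL f f`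
(bilinear, `BL p f = 0`), so `BL p p = BL f f = μ (Pl v) / 2`. For `a` orthogonal to `v`:
`a = a1 p + a2 f`, and `b = b1 p + b2 f + b3 v`, so `BL a b = (a1 b1 + a2 b2) μ/2 = μ/2 ip a b`.
`scal_of_atom`: by `eig` and `μ (pm x) > 0` (countable: `x` or `-x` is an atom) `x` is an eigenvector
(`BL (-x) w = - BL x w`); `μ (WW x ∩ Pl v) > 0`, so there is an eigenvector in `WW x ∩ Pl v`.
-/

namespace Pool.Agent.H23.DR

open H47.DR MeasureTheory Filter Topology

private theorem sc2_int (μ : Measure S2) [IsProbabilityMeasure μ] (v : S2) (a b : E) :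
    Integrable (fun u : S2 => ip u a * ip u b) (μ.restrict (Pl v)) := by
  have hc : Continuous fun u : S2 => ip u a * ip u b := by fun_prop
  refine Integrable.of_bound hc.aestronglyMeasurable (‖a‖ * ‖b‖) (Filter.Eventually.of_forall ?_)
  intro u
  have h1 : |ip (u : E) a| ≤ ‖a‖ := by
    have := abs_real_inner_le_norm (u : E) a
    rwa [norm_sph, one_mul] at this
  have h2 : |ip (u : E) b| ≤ ‖b‖ := by
    have := abs_real_inner_le_norm (u : E) b
    rwa [norm_sph, one_mul] at this
  rw [Real.norm_eq_abs, abs_mul]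
  exact mul_le_mul h1 h2 (abs_nonneg _) (norm_nonneg _)

theorem BL_symm (μ : Measure S2) (v : S2) (a b : E) : BL μ v a b = BL μ v b a := by
  unfold BL
  congr 1
  funext u
  exact mul_comm _ _

theorem BL_add (μ : Measure S2) [IsProbabilityMeasure μ] (v : S2) (a b c : E) :
    BL μ v (a + b) c = BL μ v a c + BL μ v b c := by
  unfold BL
  rw [← integral_add (sc2_int μ v a c) (sc2_int μ v b c)]
  congr 1
  funext u
  simp only [ip]
  rw [inner_add_right]
  ring

theorem BL_smul (μ : Measure S2) (v : S2) (t : ℝ) (a b : E) :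
    BL μ v (t • a) b = t * BL μ v a b := by
  unfold BL
  rw [← integral_const_mul]
  congr 1
  funext u
  simp only [ip]
  rw [real_inner_smul_right]
  ring

theorem BL_v (μ : Measure S2) (v : S2) (a : E) : BL μ v a v = 0 := by
  unfold BL
  rw [setIntegral_congr_fun (g := fun _ => (0 : ℝ)) (isClosed_Pl v).measurableSet]
  · simp
  · intro u hu
    have h : ip (u : E) (v : E) = 0 := hu
    change ip (u : E) a * ip (u : E) (v : E) = 0
    rw [h, mul_zero]

private theorem sc2_add_r (μ : Measure S2) [IsProbabilityMeasure μ] (v : S2) (a b c : E) :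
    BL μ v c (a + b) = BL μ v c a + BL μ v c b := by
  rw [BL_symm, BL_add, BL_symm μ v a, BL_symm μ v b]

private theorem sc2_smul_r (μ : Measure S2) (v : S2) (t : ℝ) (a b : E) :
    BL μ v b (t • a) = t * BL μ v b a := by
  rw [BL_symm, BL_smul, BL_symm μ v a]

theorem scal_of_two (μ : Measure S2) [IsProbabilityMeasure μ] (v p q : S2) (hpv : p ∈ Pl v)
    (hqv : q ∈ Pl v) (h1 : q ∈ WW p) (hp : ∀ w : E, ip p w = 0 → BL μ v p w = 0)
    (hq : ∀ w : E, ip q w = 0 → BL μ v q w = 0) : Scal μ v := by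
  have hpv' : ip (p : E) (v : E) = 0 := hpv
  have hqv' : ip (q : E) (v : E) = 0 := hqv
  obtain ⟨f, hf1, hpf, hvf, hpar, hexp⟩ := exists_third (p : E) (v : E) (norm_sph p) (norm_sph v) hpv'
  have hfp : ip f (p : E) = 0 := by
    have : ip f (p : E) = ip (p : E) f := real_inner_comm _ _
    rw [this, hpf]
  have hff : ip f f = 1 := by
    have : ip f f = ‖f‖ ^ 2 := real_inner_self_eq_norm_sq f
    rw [this, hf1]
    norm_num
  have hpp := ip_self_sph p
  have hqq := ip_self_sph q
  set c : ℝ := ip (q : E) (p : E) with hc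
  set d : ℝ := ip (q : E) f with hd
  have hcd : c ^ 2 + d ^ 2 = 1 := by
    have h2 := hpar (q : E) (q : E)
    rw [hqq, hqv', ← hc, ← hd] at h2
    linarith
  have hcp : ip (p : E) (q : E) = c := by
    rw [hc]
    exact real_inner_comm _ _
  have hW : 0 < |c| ∧ |c| < 1 := by
    have h2 : 0 < |ip (p : E) (q : E)| ∧ |ip (p : E) (q : E)| < 1 := h1
    rwa [hcp] at h2
  have hc0 : c ≠ 0 := abs_pos.1 hW.1
  have hd0 : d ≠ 0 := by
    intro h0
    rw [h0] at hcd
    have h3 : |c| ^ 2 = 1 := by
      rw [sq_abs]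
      linarith
    nlinarith [hW.2, hW.1]
  have hqe : (q : E) = c • (p : E) + d • f := by
    have h2 := hexp (q : E)
    rw [hqv', zero_smul, add_zero, ← hc, ← hd] at h2
    exact h2
  have hBpf : BL μ v (p : E) f = 0 := hp f hpf
  have hBfp : BL μ v f (p : E) = 0 := by rw [BL_symm]; exact hBpf
  have hw : ip (q : E) ((-d) • (p : E) + c • f) = 0 := by
    have e1 : ip (q : E) ((-d) • (p : E) + c • f) = (-d) * ip (q : E) (p : E) + c * ip (q : E) f := by
      simp only [ip]
      rw [inner_add_right, real_inner_smul_right, real_inner_smul_right]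
    rw [e1, ← hc, ← hd]
    ring
  have hBq := hq _ hw
  rw [hqe, BL_add, BL_smul, BL_smul, sc2_add_r, sc2_add_r, sc2_smul_r, sc2_smul_r, sc2_smul_r,
    sc2_smul_r, hBpf, hBfp] at hBq
  have hEq : BL μ v (p : E) (p : E) = BL μ v f f := by
    have h2 : c * d * (BL μ v f f - BL μ v (p : E) (p : E)) = 0 := by linear_combination hBq
    rcases mul_eq_zero.1 h2 with h3 | h3
    · rcases mul_eq_zero.1 h3 with h4 | h4
      · exact absurd h4 hc0
      · exact absurd h4 hd0
    · linarith
  have hTr : BL μ v (p : E) (p : E) + BL μ v f f = μ.real (Pl v) := by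
    unfold BL
    rw [← integral_add (sc2_int μ v _ _) (sc2_int μ v _ _),
      setIntegral_congr_fun (g := fun _ => (1 : ℝ)) (isClosed_Pl v).measurableSet]
    · simp [Measure.real]
    · intro u hu
      have hu' : ip (u : E) (v : E) = 0 := hu
      have h2 := hpar (u : E) (u : E)
      rw [ip_self_sph u, hu'] at h2
      change ip (u : E) (p : E) * ip (u : E) (p : E) + ip (u : E) f * ip (u : E) f = 1
      linarith
  intro a b ha
  have hea := hexp a
  rw [ha, zero_smul, add_zero] at hea
  have heb := hexp b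
  have hab := hpar a b
  rw [ha] at hab
  have hBpv : BL μ v (p : E) (v : E) = 0 := BL_v μ v _
  have hBfv : BL μ v f (v : E) = 0 := BL_v μ v _
  have h5 : BL μ v a b = ip a (p : E) * ip b (p : E) * BL μ v (p : E) (p : E) +
      ip a f * ip b f * BL μ v f f := by
    conv_lhs => rw [hea, heb]
    rw [BL_add, BL_smul, BL_smul, sc2_add_r, sc2_add_r, sc2_add_r, sc2_add_r, sc2_smul_r,
      sc2_smul_r, sc2_smul_r, sc2_smul_r, sc2_smul_r, sc2_smul_r, hBpf, hBfp, hBpv, hBfv]
    ring
  rw [h5, hab]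
  have h6 : BL μ v (p : E) (p : E) = μ.real (Pl v) / 2 := by linarith
  have h7 : BL μ v f f = μ.real (Pl v) / 2 := by linarith
  rw [h6, h7]
  ring

theorem scal_of_atom {s : SeqG} {μ : Measure S2} {PP : Measure (S2 × S2 × S2)} (h : LimD s μ PP)
    (x v : S2) (hx : 0 < μ (pm x)) (hxv : x ∈ Pl v) (hW : 0 < μ (WW x ∩ Pl v)) : Scal μ v := by
  have := h.pr
  have he := eig h v
  rw [ae_iff] at he
  set S : Set S2 := {p | ¬ (p ∈ Pl v → ∀ w : E, ip p w = 0 → BL μ v p w = 0)} with hS
  have hne : ∀ A : Set S2, 0 < μ A → ∃ y ∈ A, y ∉ S := by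
    intro A hA
    by_contra hcon
    push Not at hcon
    have h2 : μ A ≤ μ S := measure_mono hcon
    rw [he] at h2
    exact absurd h2 (not_le.2 hA)
  have hxv' : ip (x : E) (v : E) = 0 := hxv
  have hxe : ∀ w : E, ip (x : E) w = 0 → BL μ v (x : E) w = 0 := by
    obtain ⟨y, hy, hyS⟩ := hne _ hx
    rw [hS, Set.mem_ofPred_eq, not_not] at hyS
    rcases hy with rfl | hy
    · exact hyS hxv
    · have hy' : y = -x := hy
      subst hy'
      have h3 : (-x : S2) ∈ Pl v := by
        change ip ((-x : S2) : E) (v : E) = 0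
        simp only [ip] at hxv' ⊢
        rw [coe_neg_sphere, inner_neg_left, hxv', neg_zero]
      intro w hw
      have h4 := hyS h3 w (by
        simp only [ip] at hw ⊢
        rw [coe_neg_sphere, inner_neg_left, hw, neg_zero])
      rw [coe_neg_sphere] at h4
      have h5 : BL μ v (-(x : E)) w = - BL μ v (x : E) w := by
        have h6 := BL_smul μ v (-1) (x : E) w
        rw [neg_one_smul] at h6
        rw [h6]
        ring
      rw [h5] at h4
      linarith
  obtain ⟨q, hq, hqS⟩ := hne _ hW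
  rw [hS, Set.mem_ofPred_eq, not_not] at hqS
  exact scal_of_two μ v x q hxv hq.2 hq.1 hxe (hqS hq.2)

end Pool.Agent.H23.DR
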