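import Pool.Agent.H23.DR.Third

/-!
# Module Shell (about 60 lines)

PROOF. `shell`: the closed sets `{u | ||ip u y| - c| ≤ 1/(k+1)}` decrease to `{|ip u y| = c}`
(`tendsto_measure_iInter_atTop`). `shell_pair`: for the sign `τ = ± 1` of `ip u w`:
`‖w - τ u‖^2 = 2 - 2 |ip u w| ≤ 2 - 2 (1 - ρ^2) = 2 ρ^2` (`|ip u w| ≥ ip^2`), and
`||ip w y| - |ip u y|| ≤ |ip (w - τ u) y| ≤ ‖w - τ u‖ ≤ 2 ρ`.
-/

namespace Pool.Agent.H23.DR

open H47.DR MeasureTheory Filter Topology

theorem shell (μ : Measure S2) [IsProbabilityMeasure μ] (y : S2) (c : ℝ)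
    (h0 : μ {u : S2 | |ip u y| = c} = 0) (ε : ℝ) (hε : 0 < ε) :
    ∃ δ : ℝ, 0 < δ ∧ μ.real {u : S2 | |(|ip u y| - c)| ≤ δ} ≤ ε := by
  have hcont : Continuous fun u : S2 => |(|ip u y| - c)| := by fun_prop
  have hs : ∀ k : ℕ, MeasurableSet {u : S2 | |(|ip u y| - c)| ≤ 1 / ((k : ℝ) + 1)} := fun k =>
    (isClosed_le hcont continuous_const).measurableSet
  have hanti : Antitone fun k : ℕ => {u : S2 | |(|ip u y| - c)| ≤ 1 / ((k : ℝ) + 1)} := by
    intro k l hkl u hu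
    have h1 : |(|ip u y| - c)| ≤ 1 / ((l : ℝ) + 1) := hu
    have h2 : 1 / ((l : ℝ) + 1) ≤ 1 / ((k : ℝ) + 1) := by
      apply one_div_le_one_div_of_le (by positivity)
      have : (k : ℝ) ≤ l := by exact_mod_cast hkl
      linarith
    exact h1.trans h2
  have hlim := tendsto_measure_iInter_atTop (μ := μ) (fun k => (hs k).nullMeasurableSet) hanti
    ⟨0, measure_ne_top _ _⟩
  have hI : ⋂ k : ℕ, {u : S2 | |(|ip u y| - c)| ≤ 1 / ((k : ℝ) + 1)} = {u : S2 | |ip u y| = c} := by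
    ext u
    rw [Set.mem_iInter]
    constructor
    · intro h
      have h1 : |(|ip u y| - c)| ≤ 0 :=
        ge_of_tendsto' tendsto_one_div_add_atTop_nhds_zero_nat fun k => h k
      have h2 : |ip u y| - c = 0 := abs_eq_zero.1 (le_antisymm h1 (abs_nonneg _))
      change |ip u y| = c
      linarith
    · intro h k
      have h1 : |ip u y| = c := h
      change |(|ip u y| - c)| ≤ 1 / ((k : ℝ) + 1)
      rw [h1, sub_self, abs_zero]
      positivity
  rw [hI, h0] at hlim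
  have hreal : Tendsto (fun k : ℕ => μ.real {u : S2 | |(|ip u y| - c)| ≤ 1 / ((k : ℝ) + 1)}) atTop
      (𝓝 0) := by
    have := (ENNReal.tendsto_toReal ENNReal.zero_ne_top).comp hlim
    simpa [Measure.real, Function.comp_def] using this
  obtain ⟨k, hk⟩ := (hreal.eventually (ge_mem_nhds hε)).exists
  exact ⟨1 / ((k : ℝ) + 1), by positivity, hk⟩

theorem shell_pair (u w y : S2) (ρ : ℝ) (hρ : 0 ≤ ρ) (h : 1 - ρ ^ 2 ≤ ip u w ^ 2) :
    |(|ip w y| - |ip u y|)| ≤ 2 * ρ := by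
  have h1 : |ip u w| ≤ 1 := abs_ip_le u w
  have h2 : 1 - ρ ^ 2 ≤ |ip u w| := by
    have h3 : ip u w ^ 2 = |ip u w| ^ 2 := (sq_abs _).symm
    rw [h3] at h
    nlinarith [abs_nonneg (ip u w)]
  have hy : ‖(y : E)‖ = 1 := norm_sph y
  -- the sign
  have key : ∀ τ : ℝ, (τ = 1 ∨ τ = -1) → τ * ip u w = |ip u w| →
      |(|ip w y| - |ip u y|)| ≤ 2 * ρ := by
    intro τ hτ hτ2
    have e1 : |ip u y| = |ip (τ • (u : E)) y| := by
      have e2 : ip (τ • (u : E)) y = τ * ip u y := by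
        simp only [ip]; rw [real_inner_smul_left]
      rw [e2, abs_mul]
      rcases hτ with rfl | rfl <;> simp
    rw [e1]
    refine (abs_abs_sub_abs_le _ _).trans ?_
    have e3 : ip (w : E) y - ip (τ • (u : E)) y = ip ((w : E) - τ • (u : E)) y := by
      simp only [ip]; rw [inner_sub_left]
    rw [e3]
    refine (abs_real_inner_le_norm _ _).trans ?_
    rw [hy, mul_one]
    have e4 := norm_sub_sq_real (w : E) (τ • (u : E))
    have e5 : inner ℝ (w : E) (τ • (u : E)) = |ip u w| := by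
      rw [real_inner_smul_right, real_inner_comm]; exact hτ2
    have e6 : ‖τ • (u : E)‖ = 1 := by
      rw [norm_smul, norm_sph, mul_one]
      rcases hτ with rfl | rfl <;> simp
    rw [e5, e6, norm_sph] at e4
    have e7 : ‖(w : E) - τ • (u : E)‖ ^ 2 ≤ (2 * ρ) ^ 2 := by
      rw [e4]; nlinarith [sq_nonneg ρ]
    exact abs_le_of_sq_le_sq' e7 (by linarith) |>.2
  rcases le_total 0 (ip u w) with h3 | h3
  · exact key 1 (Or.inl rfl) (by rw [abs_of_nonneg h3]; ring)
  · exact key (-1) (Or.inr rfl) (by rw [abs_of_nonpos h3]; ring)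

end Pool.Agent.H23.DR
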