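import Pool.Agent.H23.DR.QS
import Pool.Agent.H23.DR.Caps
import Pool.Agent.H23.DR.Shell
import Pool.Agent.H23.DR.FS

/-!
# Module SolidT (about 170 lines): the solid plane theorem (3.2)

PROOF. Given `κ0, r0 > 0`. `y', c, ρ0` from `caps`. `b` = one half of the minimum of
`μ.real ({c < |ip u (y' a)|} ∩ Pl v)`, `a = 0,1,2` (`b > 0`). `κ = min (1/50) (κ0/24)`,
`η = b^4 κ^4 / 72` (`b ≤ 1`, so `η ≤ κ`), `ε = min (η/5) (κ0/2)`. `s1` from `annulus` for `ε`, replaced by
`min s1 r0`. `δ` from `shell` for `y' a`, `c`, `ε/2` (minimum of the three). `ρ = min` of `ρ0`, `1`, `η`, `δ/2`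
(so `ρ^2 ≤ η`). `r = min (s1 ρ/4) ε` (so `r < s1`, `r^2 ≤ ε` as `ε ≤ 1`).
Eventually in `UU` (use `qs`, `cl` for the closed shells, `op` for the open sets
`{c < |ip u (y' a)|} ∩ {|ip u v| < r}`, and `UU ≤ atTop` with `sum_card_sqrt` for
`∑ |l| sqrt T ≤ 2 sqrt (1/(m+1)) N^2 ≤ η N^2`, and `50 ≤ b N m`: by `g6` `m + 1 ≤ N m`) all hypotheses of
`finSolid` hold with `P a = NN filtered by c < |ip (u i) (y' a)|` and `σ i` = sign of `ip (u i) (y' a)` for the
first `a` with `c < |ip (u i) (y' a)|` (caps of different `a` are disjoint by the last property of `caps` with `u = w`: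
`1 = ip u u ^2 ≤ 1 - ρ0^2` is impossible), `σ i = 1` if there is none.
`hcard`: `op` with error `b`. `hsep`: `caps` and `ρ ≤ ρ0`. `e5`: if `1 - ρ^2 ≤ ip^2` and exactly one of
`p.1, p.2` is in `P a` (both in `NN`), then exactly one is in the cap and `shell_pair`
puts `p.1` in the shell `||ip u (y' a)| - c| ≤ 2 ρ ≤ δ`: at most `(ε/2 + ε/2) N * N` pairs.
`finSolid` gives `l` with `|l| ≥ (1 - 11 κ) |NN| ≥ (1 - 11 κ) (μ(Pl v) - ε) N ≥ (μ(Pl v) - κ0) N`, and
`|ip (u i) v| ≤ s1 ≤ r0` on `l`.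
-/

namespace Pool.Agent.H23.DR

open H47.DR MeasureTheory Filter Topology

theorem solidT_sign {n : ℕ} (C : Cfg n) (y' : Fin 3 → S2) (c ρ0 : ℝ) (hρ0 : 0 < ρ0)
    (hsep : ∀ a b : Fin 3, a ≠ b → ∀ u w : S2, c ≤ |ip u (y' a)| → c ≤ |ip w (y' b)| →
        ip u w ^ 2 ≤ 1 - ρ0 ^ 2) :
    ∃ σ : Fin n → ℝ, (∀ i, σ i = 1 ∨ σ i = -1) ∧
      ∀ i a, c < |ip (C.u i) (y' a)| → c ≤ ip (σ i • C.u i) (y' a) := by
  have h : ∀ i, ∃ t : ℝ, (t = 1 ∨ t = -1) ∧
      ∀ a, c < |ip (C.u i) (y' a)| → c ≤ ip (t • C.u i) (y' a) := by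
    intro i
    by_cases hex : ∃ a, c < |ip (C.u i) (y' a)|
    · obtain ⟨a, ha⟩ := hex
      have huniq : ∀ b, c < |ip (C.u i) (y' b)| → b = a := by
        intro b hb
        by_contra hne
        have h1 := hsep b a hne (C.us i) (C.us i) hb.le ha.le
        have h2 : ip (C.us i) (C.us i) = 1 := ip_self_sph _
        rw [h2] at h1
        nlinarith
      rcases abs_cases (ip (C.u i) (y' a)) with ⟨h1, h2⟩ | ⟨h1, h2⟩
      · refine ⟨1, Or.inl rfl, fun b hb => ?_⟩
        rw [huniq b hb, one_smul]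
        rw [h1] at ha
        exact ha.le
      · refine ⟨-1, Or.inr rfl, fun b hb => ?_⟩
        rw [huniq b hb]
        rw [h1] at ha
        have : ip ((-1 : ℝ) • C.u i) (y' a) = - ip (C.u i) (y' a) := by
          simp only [ip]
          rw [real_inner_smul_left]; ring
        rw [this]
        exact ha.le
    · push Not at hex
      exact ⟨1, Or.inl rfl, fun a ha => absurd ha (not_lt.2 (hex a))⟩
  choose σ h1 h2 using h
  exact ⟨σ, h1, h2⟩

theorem solidT_small (η : ℝ) (hη : 0 < η) : ∀ᶠ m : ℕ in UU, 2 * Real.sqrt (1 / ((m : ℝ) + 1)) ≤ η := by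
  have h1 : Tendsto (fun m : ℕ => 2 * Real.sqrt (1 / ((m : ℝ) + 1))) atTop (𝓝 (2 * Real.sqrt 0)) :=
    (Tendsto.sqrt tendsto_one_div_add_atTop_nhds_zero_nat).const_mul 2
  rw [Real.sqrt_zero, mul_zero] at h1
  exact UU_le ((h1.eventually (gt_mem_nhds hη)).mono fun m hm => hm.le)

theorem solidT_large (s : SeqG) (b : ℝ) (hb : 0 < b) : ∀ᶠ m : ℕ in UU, 50 ≤ b * s.N m := by
  have h1 : ∀ᶠ m : ℕ in atTop, 50 / b ≤ (m : ℝ) := by
    obtain ⟨k, hk⟩ := exists_nat_ge (50 / b)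
    filter_upwards [eventually_ge_atTop k] with m hm
    exact hk.trans (by exact_mod_cast hm)
  refine UU_le (h1.mono fun m hm => ?_)
  have h2 := (s.good m).g6
  have h3 : (0 : ℝ) < (m : ℝ) + 1 := by positivity
  have h4 : (m : ℝ) + 1 ≤ s.N m := by
    rw [div_mul_eq_mul_div, one_mul, le_div_iff₀ h3] at h2
    linarith
  rw [div_le_iff₀ hb] at hm
  nlinarith

theorem solid_of_three {s : SeqG} {μ : Measure S2} {PP : Measure (S2 × S2 × S2)}
    (h : LimD s μ PP) (v : S2) (hS : Scal μ v) (y : Fin 3 → S2) (hT : Three μ v y) :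
    Solid s μ v := by
  intro κ0 hκ0 r0 hr0
  have := h.pr
  obtain ⟨y', c, ρ0, hc0, hc1, hρ0, hyv, hpos, hnull, hor, hsep⟩ := caps μ v y hT
  have hm : ∀ a, 0 < μ.real ({u : S2 | c < |ip u (y' a)|} ∩ Pl v) := fun a =>
    ENNReal.toReal_pos (hpos a).ne' (measure_ne_top _ _)
  obtain ⟨b, hb, hb2⟩ : ∃ b : ℝ, 0 < b ∧
      ∀ a, 2 * b ≤ μ.real ({u : S2 | c < |ip u (y' a)|} ∩ Pl v) := by
    refine ⟨(min (μ.real ({u : S2 | c < |ip u (y' 0)|} ∩ Pl v))
      (min (μ.real ({u : S2 | c < |ip u (y' 1)|} ∩ Pl v))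
        (μ.real ({u : S2 | c < |ip u (y' 2)|} ∩ Pl v)))) / 2, ?_, ?_⟩
    · have := lt_min (hm 0) (lt_min (hm 1) (hm 2))
      linarith
    · have h3 : ∀ a : Fin 3, a = 0 ∨ a = 1 ∨ a = 2 := by decide
      intro a
      rcases h3 a with rfl | rfl | rfl
      · have := min_le_left (μ.real ({u : S2 | c < |ip u (y' 0)|} ∩ Pl v))
          (min (μ.real ({u : S2 | c < |ip u (y' 1)|} ∩ Pl v))
            (μ.real ({u : S2 | c < |ip u (y' 2)|} ∩ Pl v)))
        linarith
      · have h4 := min_le_right (μ.real ({u : S2 | c < |ip u (y' 0)|} ∩ Pl v))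
          (min (μ.real ({u : S2 | c < |ip u (y' 1)|} ∩ Pl v))
            (μ.real ({u : S2 | c < |ip u (y' 2)|} ∩ Pl v)))
        have h5 := min_le_left (μ.real ({u : S2 | c < |ip u (y' 1)|} ∩ Pl v))
            (μ.real ({u : S2 | c < |ip u (y' 2)|} ∩ Pl v))
        linarith
      · have h4 := min_le_right (μ.real ({u : S2 | c < |ip u (y' 0)|} ∩ Pl v))
          (min (μ.real ({u : S2 | c < |ip u (y' 1)|} ∩ Pl v))
            (μ.real ({u : S2 | c < |ip u (y' 2)|} ∩ Pl v)))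
        have h5 := min_le_right (μ.real ({u : S2 | c < |ip u (y' 1)|} ∩ Pl v))
            (μ.real ({u : S2 | c < |ip u (y' 2)|} ∩ Pl v))
        linarith
  set κ : ℝ := min (1 / 50) (κ0 / 24) with hκdef
  have hκ : 0 < κ := lt_min (by norm_num) (by positivity)
  have hκ1 : κ ≤ 1 / 50 := min_le_left _ _
  have hκ2 : κ ≤ κ0 / 24 := min_le_right _ _
  set η : ℝ := b ^ 4 * κ ^ 4 / 72 with hηdef
  have hη : 0 < η := by positivity
  set ε : ℝ := min (η / 5) (κ0 / 2) with hεdef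
  have hε : 0 < ε := lt_min (by positivity) (by positivity)
  have hε1 : 5 * ε ≤ η := by have := min_le_left (η / 5) (κ0 / 2); linarith
  have hε2 : ε ≤ κ0 / 2 := min_le_right _ _
  obtain ⟨s1, hs1, hs1', hann⟩ := annulus μ v ε hε
  set t : ℝ := min s1 r0 with htdef
  have ht : 0 < t := lt_min hs1 hr0
  have ht1 : t ≤ 1 := (min_le_left _ _).trans hs1'
  have htr : t ≤ r0 := min_le_right _ _
  have hsh : ∀ a, ∃ δ : ℝ, 0 < δ ∧ μ.real {u : S2 | |(|ip u (y' a)| - c)| ≤ δ} ≤ ε / 2 :=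
    fun a => shell μ (y' a) c (hnull a) (ε / 2) (by positivity)
  choose δ hδ0 hδ using hsh
  obtain ⟨d, hd, hd2⟩ : ∃ d : ℝ, 0 < d ∧ ∀ a, 2 * d ≤ δ a := by
    refine ⟨(min (δ 0) (min (δ 1) (δ 2))) / 2, ?_, ?_⟩
    · have := lt_min (hδ0 0) (lt_min (hδ0 1) (hδ0 2))
      linarith
    · have h3 : ∀ a : Fin 3, a = 0 ∨ a = 1 ∨ a = 2 := by decide
      have h4 := min_le_left (δ 0) (min (δ 1) (δ 2))
      have h5 := min_le_right (δ 0) (min (δ 1) (δ 2))
      have h6 := min_le_left (δ 1) (δ 2)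
      have h7 := min_le_right (δ 1) (δ 2)
      intro a
      rcases h3 a with rfl | rfl | rfl <;> linarith
  set ρ : ℝ := min (min ρ0 1) (min η d) with hρdef
  have hρ : 0 < ρ := lt_min (lt_min hρ0 one_pos) (lt_min hη hd)
  have hρ1 : ρ ≤ 1 := (min_le_left _ _).trans (min_le_right _ _)
  have hρ2 : ρ ≤ ρ0 := (min_le_left _ _).trans (min_le_left _ _)
  have hρ3 : ρ ≤ η := (min_le_right _ _).trans (min_le_left _ _)
  have hρ4 : ρ ≤ d := (min_le_right _ _).trans (min_le_right _ _)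
  set r : ℝ := min (t * ρ / 4) ε with hrdef
  have hr : 0 < r := lt_min (by positivity) hε
  have hr1 : 4 * r ≤ t * ρ := by
    have := min_le_left (t * ρ / 4) ε
    linarith
  have hr2 : r < t := by nlinarith
  have hr3 : r ^ 2 ≤ ε := by
    have h1 : r ≤ ε := min_le_right _ _
    have h2 : r ≤ 1 := by nlinarith
    nlinarith
  -- eventual facts
  classical
  obtain ⟨G, hG⟩ : ∃ G : Fin 3 → Set S2, ∀ a, G a = {u : S2 | c < |ip u (y' a)|} ∩
    {u : S2 | |ip u v| < r} := ⟨fun a => _, fun a => rfl⟩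
  obtain ⟨F, hF⟩ : ∃ F : Fin 3 → Set S2, ∀ a, F a = {u : S2 | |(|ip u (y' a)| - c)| ≤ δ a} :=
    ⟨fun a => _, fun a => rfl⟩
  have E1 := qs h v hS ε t r hε ht (hann t (min_le_left _ _)) hr hr2 hr3
  have E2 : ∀ a, ∀ᶠ m in UU, b * s.N m ≤ ((Finset.univ.filter fun i =>
      (s.C m).us i ∈ G a).card : ℝ) := by
    intro a
    have ho : IsOpen (G a) := by
      rw [hG]
      refine IsOpen.inter ?_ ?_
      · exact isOpen_lt continuous_const (by fun_prop)
      · exact isOpen_lt (by fun_prop) continuous_const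
    have hle : μ.real ({u : S2 | c < |ip u (y' a)|} ∩ Pl v) ≤ μ.real (G a) := by
      refine measureReal_mono ?_ (measure_ne_top _ _)
      rintro u ⟨h1, h2⟩
      rw [hG]
      refine ⟨h1, ?_⟩
      have h2 : ip u v = 0 := h2
      change |ip u v| < r
      rw [h2, abs_zero]
      exact hr
    refine (h.op _ ho b hb).mono fun m hm => le_trans ?_ hm
    refine mul_le_mul_of_nonneg_right ?_ (Nat.cast_nonneg _)
    have := hb2 a
    linarith
  have E3 : ∀ a, ∀ᶠ m in UU, ((Finset.univ.filter fun i =>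
      (s.C m).us i ∈ F a).card : ℝ) ≤ ε * s.N m := by
    intro a
    have hcl : IsClosed (F a) := by
      rw [hF]
      exact isClosed_le (by fun_prop) continuous_const
    refine (h.cl _ hcl (ε / 2) (by positivity)).mono fun m hm => hm.trans ?_
    refine mul_le_mul_of_nonneg_right ?_ (Nat.cast_nonneg _)
    have := hδ a
    rw [← hF] at this
    linarith
  filter_upwards [E1, E2 0, E2 1, E2 2, E3 0, E3 1, E3 2, solidT_small η hη, solidT_large s b hb]
    with m q1 q20 q21 q22 q30 q31 q32 q4 q5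
  have h3 : ∀ a : Fin 3, a = 0 ∨ a = 1 ∨ a = 2 := by decide
  have q2 : ∀ a, b * s.N m ≤ ((Finset.univ.filter fun i =>
      (s.C m).us i ∈ G a).card : ℝ) := by
    intro a; rcases h3 a with rfl | rfl | rfl <;> assumption
  have q3 : ∀ a, ((Finset.univ.filter fun i =>
      (s.C m).us i ∈ F a).card : ℝ) ≤ ε * s.N m := by
    intro a; rcases h3 a with rfl | rfl | rfl <;> assumption
  obtain ⟨q11, q12, q13⟩ := q1
  obtain ⟨σ, hσ, hσ'⟩ := solidT_sign (s.C m) y' c ρ0 hρ0 hsep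
  set C := s.C m with hC
  set P : Fin 3 → Finset (Fin (s.N m)) := fun a =>
    (NN C v r).filter fun i => c < |ip (C.u i) (y' a)| with hP
  have hPm : ∀ a i, i ∈ P a ↔ |ip (C.u i) v| ≤ r ∧ c < |ip (C.u i) (y' a)| := by
    intro a i
    simp only [hP, NN, Finset.mem_filter, Finset.mem_univ, true_and]
  have N0 : (0 : ℝ) ≤ s.N m := Nat.cast_nonneg _
  have hnorm : ∀ i, ‖σ i • C.u i‖ = 1 := by
    intro i
    rw [norm_smul, C.unit, mul_one]
    rcases hσ i with h | h <;> rw [h] <;> norm_num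
  obtain ⟨l, hl, hl1, hl2⟩ := finSolid C v (norm_sph v) r t ρ η b κ hr ht hρ hρ1 hr1 hη.le hb hκ
    hκ1 (by rw [hηdef]; linarith) q5 σ hσ P
    (fun a a' haa i hi j hj => hor a a' haa _ _ (hnorm i) (hnorm j)
      (hσ' i a ((hPm a i).1 hi).2) (hσ' j a' ((hPm a' j).1 hj).2))
    (fun a => Finset.filter_subset _ _)
    (fun a => (q2 a).trans (by
      refine Nat.cast_le.2 (Finset.card_le_card fun i hi => ?_)
      have h1 : C.us i ∈ G a := (Finset.mem_filter.1 hi).2
      rw [hG] at h1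
      have h2 : |ip (C.us i) v| < r := h1.2
      exact (hPm a i).2 ⟨h2.le, h1.1⟩))
    (fun a a' haa i hi j hj => by
      have h1 := hsep a a' haa (C.us i) (C.us j) ((hPm a i).1 hi).2.le ((hPm a' j).1 hj).2.le
      have h2 : ip (C.us i) (C.us j) = ip (C.u i) (C.u j) := rfl
      rw [h2] at h1
      nlinarith)
    ((sum_card_sqrt C _ (by positivity) (s.good m)).trans (by
      refine mul_le_mul_of_nonneg_right q4 (by positivity)))
    (q11.trans (by nlinarith)) (by nlinarith)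
    (fun i hi => (q12 (C.u i) (C.unit i) (by
      simpa only [NN, Finset.mem_filter, Finset.mem_univ, true_and] using hi)).trans' (by
        refine le_of_eq ?_
        congr 1
        refine Finset.sum_congr rfl fun j _ => ?_
        rw [show ip (C.u i) (C.u j) = ip (C.u j) (C.u i) from real_inner_comm _ _]) |>.trans
        (by nlinarith))
    (fun a => by
      have hsub : ((NN C v r ×ˢ NN C v r).filter fun p =>
          1 - ρ ^ 2 ≤ ip (C.u p.1) (C.u p.2) ^ 2 ∧ ¬(p.1 ∈ P a ↔ p.2 ∈ P a)) ⊆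
          (Finset.univ.filter fun i =>
            C.us i ∈ F a) ×ˢ (Finset.univ : Finset (Fin (s.N m))) := by
        intro p hp
        rw [Finset.mem_filter, Finset.mem_product] at hp
        obtain ⟨⟨p1, p2⟩, p3, p4⟩ := hp
        have p1' : |ip (C.u p.1) v| ≤ r := by
          simpa only [NN, Finset.mem_filter, Finset.mem_univ, true_and] using p1
        have p2' : |ip (C.u p.2) v| ≤ r := by
          simpa only [NN, Finset.mem_filter, Finset.mem_univ, true_and] using p2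
        rw [hPm, hPm] at p4
        have p5 := shell_pair (C.us p.1) (C.us p.2) (y' a) ρ hρ.le p3
        have p6 := hd2 a
        rw [Finset.mem_product, Finset.mem_filter]
        refine ⟨⟨Finset.mem_univ _, ?_⟩, Finset.mem_univ _⟩
        rw [hF]
        change |(|ip (C.us p.1) (y' a)| - c)| ≤ δ a
        have e1 : ip (C.us p.1) (y' a) = ip (C.u p.1) (y' a) := rfl
        have e2 : ip (C.us p.2) (y' a) = ip (C.u p.2) (y' a) := rfl
        rw [e1, e2] at p5
        rw [e1]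
        rw [abs_le] at p5 ⊢
        by_cases c1 : c < |ip (C.u p.1) (y' a)|
        · have c2 : ¬ c < |ip (C.u p.2) (y' a)| := fun c2 => p4 ⟨fun _ => ⟨p2', c2⟩, fun _ => ⟨p1', c1⟩⟩
          constructor <;> linarith [p5.1, p5.2]
        · have c2 : c < |ip (C.u p.2) (y' a)| := by
            by_contra c2
            exact p4 ⟨fun h => absurd h.2 c1, fun h => absurd h.2 c2⟩
          constructor <;> linarith [p5.1, p5.2]
      have h1 := Finset.card_le_card hsub
      rw [Finset.card_product, Finset.card_univ, Fintype.card_fin] at h1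
      have h2 : (((NN C v r ×ˢ NN C v r).filter fun p =>
          1 - ρ ^ 2 ≤ ip (C.u p.1) (C.u p.2) ^ 2 ∧ ¬(p.1 ∈ P a ↔ p.2 ∈ P a)).card : ℝ) ≤
          ((Finset.univ.filter fun i => C.us i ∈ F a).card : ℝ) * s.N m := by
        exact_mod_cast h1
      calc _ ≤ _ := h2
        _ ≤ (ε * s.N m) * s.N m := mul_le_mul_of_nonneg_right (q3 a) N0
        _ ≤ η * (s.N m : ℝ) ^ 2 := by nlinarith [sq_nonneg (s.N m : ℝ)])
  refine ⟨l, hl, ?_, fun i hi => (hl2 i hi).trans htr⟩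
  refine le_trans ?_ hl1
  have hμ1 : μ.real (Pl v) ≤ 1 := measureReal_le_one
  have e1 : (0 : ℝ) ≤ 1 - 11 * κ := by linarith
  calc (μ.real (Pl v) - κ0) * s.N m ≤ ((1 - 11 * κ) * (μ.real (Pl v) - ε)) * s.N m := by
        refine mul_le_mul_of_nonneg_right ?_ N0
        nlinarith
    _ = (1 - 11 * κ) * ((μ.real (Pl v) - ε) * s.N m) := by ring
    _ ≤ (1 - 11 * κ) * ((NN C v r).card : ℝ) := mul_le_mul_of_nonneg_left q13 e1

end Pool.Agent.H23.DR
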