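import Pool.Agent.H23.DR.Base

/-!
# Module Third (about 70 lines, linear algebra)

PROOF. Extend the orthonormal pair `a, ν` of the 3-dimensional space to an orthonormal basis
(`Orthonormal.exists_orthonormalBasis_extension_of_card_eq`, or take the cross product
`b = a × ν` in coordinates); the last formula is Parseval (`OrthonormalBasis.sum_inner_mul_inner`),
and `expand` is the expansion in the basis. `perp_one` : apply `exists_third`-like extension for one
vector. `Pl_pm`: `ν` and `v` are orthogonal to the independent vectors `p`, `k` : with the basis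
`p, b, v` (`exists_third p v`), `k = ip k p p + ip k b b`, `ip k b ≠ 0` because `|ip k p| < 1`, so
`ip ν k = 0`, `ip ν p = 0` give `ip ν b = 0`, so `ν = ip ν v v`, `|ip ν v| = 1`.
`eq_or_neg`: Cauchy-Schwarz equality, or `‖k - p‖^2 = 2 - 2 ip`.
-/

namespace Pool.Agent.H23.DR

open H47.DR

/-- The third vector of an orthonormal frame. -/
theorem exists_third (a ν : E) (ha : ‖a‖ = 1) (hν : ‖ν‖ = 1) (h : ip a ν = 0) :
    ∃ b : E, ‖b‖ = 1 ∧ ip a b = 0 ∧ ip ν b = 0 ∧
      (∀ x y : E, ip x y = ip x a * ip y a + ip x ν * ip y ν + ip x b * ip y b) ∧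
      (∀ x : E, x = ip x a • a + ip x ν • ν + ip x b • b) := by
  have hcard : Module.finrank ℝ E = Fintype.card (Fin 3) := by simp
  have h' : ip ν a = 0 := by rw [ip, real_inner_comm]; exact h
  have hon : Orthonormal ℝ (({0, 1} : Set (Fin 3)).domRestrict ![a, ν, 0]) := by
    constructor
    · rintro ⟨i, hi⟩
      rcases hi with rfl | hi
      · simpa using ha
      · obtain rfl : i = 1 := hi
        simpa using hν
    · rintro ⟨i, hi⟩ ⟨j, hj⟩ hij
      rcases hi with rfl | hi <;> rcases hj with rfl | hj
      · exact absurd rfl hij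
      · obtain rfl : j = 1 := hj
        simpa using h
      · obtain rfl : i = 1 := hi
        simpa using h'
      · obtain rfl : i = 1 := hi
        obtain rfl : j = 1 := hj
        exact absurd rfl hij
  obtain ⟨B, hB⟩ := hon.exists_orthonormalBasis_extension_of_card_eq hcard
  have h0 : B 0 = a := by simpa using hB 0 (by simp)
  have h1 : B 1 = ν := by simpa using hB 1 (by simp)
  have hort := B.orthonormal
  refine ⟨B 2, hort.1 2, ?_, ?_, ?_, ?_⟩
  · rw [← h0]; exact hort.2 (by decide)
  · rw [← h1]; exact hort.2 (by decide)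
  · intro x y
    have := B.sum_inner_mul_inner x y
    rw [Fin.sum_univ_three, h0, h1] at this
    rw [ip, ← this]
    simp only [ip]
    rw [real_inner_comm y a, real_inner_comm y ν, real_inner_comm y (B 2)]
  · intro x
    have := B.sum_repr' x
    rw [Fin.sum_univ_three, h0, h1] at this
    simp only [ip]
    rw [real_inner_comm a x, real_inner_comm ν x, real_inner_comm (B 2) x]
    exact this.symm

/-- There is a unit vector orthogonal to two given vectors. -/
theorem perp_two (a b : E) : ∃ ν : E, ‖ν‖ = 1 ∧ ip ν a = 0 ∧ ip ν b = 0 := by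
  classical
  have h1 : Module.finrank ℝ (Submodule.span ℝ ({a, b} : Set E)) ≤ 2 := by
    have := finrank_span_le_card (R := ℝ) ({a, b} : Set E)
    refine this.trans ?_
    rw [Set.toFinset_insert, Set.toFinset_singleton]
    exact Finset.card_le_two
  have h2 := Submodule.finrank_add_finrank_orthogonal (Submodule.span ℝ ({a, b} : Set E))
  have h3 : Module.finrank ℝ E = 3 := by simp
  rw [h3] at h2
  have h4 : 0 < Module.finrank ℝ (Submodule.span ℝ ({a, b} : Set E))ᗮ := by omega
  obtain ⟨⟨x, hx⟩, hx0⟩ := (Module.finrank_pos_iff_exists_ne_zero (R := ℝ)).1 h4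
  have hx0' : x ≠ 0 := by
    intro h; apply hx0; exact Subtype.ext h
  have hn : ‖x‖ ≠ 0 := norm_ne_zero_iff.2 hx0'
  rw [Submodule.mem_orthogonal'] at hx
  have ea : ip x a = 0 := hx a (Submodule.subset_span (by simp))
  have eb : ip x b = 0 := hx b (Submodule.subset_span (by simp))
  refine ⟨‖x‖⁻¹ • x, ?_, ?_, ?_⟩
  · rw [norm_smul, norm_inv, norm_norm, inv_mul_cancel₀ hn]
  · simp only [ip] at ea ⊢
    rw [real_inner_smul_left, ea, mul_zero]
  · simp only [ip] at eb ⊢
    rw [real_inner_smul_left, eb, mul_zero]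

/-- Two unit vectors with inner product of absolute value 1 are parallel. -/
theorem eq_or_neg (p k : S2) (h : 1 ≤ |ip p k|) : k = p ∨ k = -p := by
  rcases le_abs.1 h with h1 | h1
  · left
    have h2 := norm_sub_sq_real (k : E) (p : E)
    rw [norm_sph, norm_sph, real_inner_comm] at h2
    simp only [ip] at h1
    have h3 : ‖(k : E) - p‖ ^ 2 ≤ 0 := by rw [h2]; linarith
    have h4 : ‖(k : E) - p‖ = 0 := by
      have := sq_nonneg ‖(k : E) - p‖
      exact pow_eq_zero_iff two_ne_zero |>.1 (le_antisymm h3 this)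
    exact Subtype.ext (sub_eq_zero.1 (norm_eq_zero.1 h4))
  · right
    have h2 := norm_add_sq_real (k : E) (p : E)
    rw [norm_sph, norm_sph, real_inner_comm] at h2
    simp only [ip] at h1
    have h3 : ‖(k : E) + p‖ ^ 2 ≤ 0 := by rw [h2]; linarith
    have h4 : ‖(k : E) + p‖ = 0 := by
      have := sq_nonneg ‖(k : E) + p‖
      exact pow_eq_zero_iff two_ne_zero |>.1 (le_antisymm h3 this)
    exact Subtype.ext (eq_neg_of_add_eq_zero_left (norm_eq_zero.1 h4))

theorem abs_ip_le (p k : S2) : |ip p k| ≤ 1 := by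
  have h1 := abs_real_inner_le_norm (p : E) (k : E)
  rwa [norm_sph, norm_sph, mul_one] at h1

/-- Two unit normals of two independent vectors are equal up to sign. -/
theorem Pl_pm (p k v ν : S2) (hpk : |ip p k| < 1) (h1 : ip v p = 0) (h2 : ip v k = 0)
    (h3 : ip ν p = 0) (h4 : ip ν k = 0) : ν = v ∨ ν = -v := by
  have h1' : ip (p : E) v = 0 := by rw [ip, real_inner_comm]; exact h1
  have h2' : ip (k : E) v = 0 := by rw [ip, real_inner_comm]; exact h2
  have hpk' : ip (k : E) p = ip (p : E) k := by rw [ip, real_inner_comm]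
  obtain ⟨b, hb, -, -, hP, -⟩ := exists_third (p : E) (v : E) (norm_sph p) (norm_sph v) h1'
  have e1 := hP k k
  rw [ip_self_sph, h2', hpk'] at e1
  have e2 := hP ν k
  rw [h4, h3, h2'] at e2
  have e3 := hP ν ν
  rw [ip_self_sph, h3] at e3
  have hkb : ip (k : E) b ≠ 0 := by
    intro h0
    rw [h0] at e1
    have h5 : |ip (p : E) k| ^ 2 < 1 := by
      have := abs_nonneg (ip (p : E) k)
      nlinarith
    rw [sq_abs] at h5
    linarith
  have hνb : ip (ν : E) b = 0 := by
    have : ip (ν : E) b * ip (k : E) b = 0 := by linarith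
    exact (mul_eq_zero.1 this).resolve_right hkb
  rw [hνb] at e3
  refine eq_or_neg v ν ?_
  have h6 : ip (v : E) ν = ip (ν : E) v := by rw [ip, real_inner_comm]
  rw [h6]
  by_contra hcon
  push Not at hcon
  have h7 : |ip (ν : E) v| ^ 2 < 1 := by
    have := abs_nonneg (ip (ν : E) v)
    nlinarith
  rw [sq_abs] at h7
  linarith

end Pool.Agent.H23.DR
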