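import Pool.Agent.H23.DR.BC

/-!
# Module TwoC (about 90 lines)

PROOF. Apply `bc` to `F i = 1_A(i)/|A| - 1_B(i)/|B|`, `K = 2/(b n)` (`|F i| ≤ 1/|A| + 1/|B|`), `0 < n`. For a
line `∑_{i ∈ l} F i = |l ∩ A|/|A| - |l ∩ B|/|B|`. `∑_{j ∈ NN} F j = 0` (`A, B ⊆ NN`), so the double sum is
`∑_{i ∈ NN} F i^2 ∑_{j ∈ NN} (1 - 2 ip^2) ≤ n K^2 η n` (`e4`). If `F i ≠ F j` then
`¬(i ∈ A ↔ j ∈ A) ∨ ¬(i ∈ B ↔ j ∈ B)`. Total
`K^2 (η + η + η + 2 η + 4 η) n^2 = 9 K^2 η n^2 = 36 η / b^2`.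
-/

namespace Pool.Agent.H23.DR

open H47.DR Finset

variable {n : ℕ}

open Classical in
theorem twoC_sum (A B l : Finset (Fin n)) :
    ∑ i ∈ l, ((if i ∈ A then (1 : ℝ) / A.card else 0) - (if i ∈ B then (1 : ℝ) / B.card else 0)) =
      ((l ∩ A).card : ℝ) / A.card - ((l ∩ B).card : ℝ) / B.card := by
  rw [sum_sub_distrib]
  have h : ∀ X : Finset (Fin n), ∑ i ∈ l, (if i ∈ X then (1 : ℝ) / X.card else 0) =
      ((l ∩ X).card : ℝ) / X.card := by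
    intro X
    rw [← sum_filter, sum_const, filter_mem_eq_inter, nsmul_eq_mul]
    ring
  rw [h, h]

open Classical in
theorem twoC (C : Cfg n) (v : E) (r s ρ η b : ℝ) (hr : 0 < r) (hs : 0 < s) (hρ : 0 < ρ)
    (hρ1 : ρ ≤ 1) (h4 : 4 * r ≤ s * ρ) (hη : 0 ≤ η) (hb : 0 < b) (hn : 0 < n)
    (A B : Finset (Fin n)) (hA : A ⊆ NN C v r) (hB : B ⊆ NN C v r)
    (cA : b * n ≤ (A.card : ℝ)) (cB : b * n ≤ (B.card : ℝ))
    (e1 : ∑ l ∈ C.L, (l.card : ℝ) * Real.sqrt (C.T l) ≤ η * (n : ℝ) ^ 2)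
    (e2 : ((univ.filter fun j => r < |ip (C.u j) v| ∧ |ip (C.u j) v| ≤ s).card : ℝ) ≤ η * n)
    (e3 : ρ ^ 2 ≤ η)
    (e4 : ∀ i ∈ NN C v r, |∑ j ∈ NN C v r, (1 - 2 * ip (C.u i) (C.u j) ^ 2)| ≤ η * n)
    (e5 : (((NN C v r ×ˢ NN C v r).filter fun p => 1 - ρ ^ 2 ≤ ip (C.u p.1) (C.u p.2) ^ 2 ∧
      (¬(p.1 ∈ A ↔ p.2 ∈ A) ∨ ¬(p.1 ∈ B ↔ p.2 ∈ B))).card : ℝ) ≤ 2 * η * (n : ℝ) ^ 2) :
    ∑ l ∈ Us C v s, (((l ∩ A).card : ℝ) / A.card - ((l ∩ B).card : ℝ) / B.card) ^ 2 ≤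
      36 * η / b ^ 2 := by
  have hn' : (0 : ℝ) < n := by exact_mod_cast hn
  have hbn : 0 < b * n := mul_pos hb hn'
  have hAp : (0 : ℝ) < A.card := lt_of_lt_of_le hbn cA
  have hBp : (0 : ℝ) < B.card := lt_of_lt_of_le hbn cB
  set F : Fin n → ℝ := fun i =>
    (if i ∈ A then (1 : ℝ) / A.card else 0) - (if i ∈ B then (1 : ℝ) / B.card else 0) with hFdef
  set K : ℝ := 2 / (b * n) with hK
  have hKp : 0 < K := by rw [hK]; positivity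
  have iA : (1 : ℝ) / A.card ≤ 1 / (b * n) := one_div_le_one_div_of_le hbn cA
  have iB : (1 : ℝ) / B.card ≤ 1 / (b * n) := one_div_le_one_div_of_le hbn cB
  have iA0 : (0 : ℝ) ≤ (1 : ℝ) / A.card := by positivity
  have iB0 : (0 : ℝ) ≤ (1 : ℝ) / B.card := by positivity
  have ibn : (0 : ℝ) ≤ 1 / (b * n) := by positivity
  have hK2 : K = 1 / (b * n) + 1 / (b * n) := by rw [hK]; ring
  have hF : ∀ i, |F i| ≤ K := by
    intro i
    simp only [hFdef]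
    rw [abs_le]
    split_ifs <;> constructor <;> linarith
  have h0 : ∀ i, i ∉ NN C v r → F i = 0 := by
    intro i hi
    have h1 : i ∉ A := fun h => hi (hA h)
    have h2 : i ∉ B := fun h => hi (hB h)
    simp [hFdef, h1, h2]
  have key := bc C v r s ρ hr hs hρ hρ1 h4 F K hF h0
  have hl : ∀ l : Finset (Fin n), ∑ i ∈ l, F i =
      ((l ∩ A).card : ℝ) / A.card - ((l ∩ B).card : ℝ) / B.card := fun l => twoC_sum A B l
  have hN0 : ∑ j ∈ NN C v r, F j = 0 := by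
    rw [hl, inter_eq_right.mpr hA, inter_eq_right.mpr hB, div_self hAp.ne', div_self hBp.ne',
      sub_self]
  -- the double sum
  have hcardN : ((NN C v r).card : ℝ) ≤ n := by
    have := card_le_univ (NN C v r)
    rw [Fintype.card_fin] at this
    exact_mod_cast this
  have hd : ∑ i ∈ NN C v r, ∑ j ∈ NN C v r,
      (F i ^ 2 * (1 - 2 * ip (C.u i) (C.u j) ^ 2) + F i * F j) ≤ K ^ 2 * (η * (n : ℝ) ^ 2) := by
    have e : ∀ i ∈ NN C v r, ∑ j ∈ NN C v r,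
        (F i ^ 2 * (1 - 2 * ip (C.u i) (C.u j) ^ 2) + F i * F j) ≤ K ^ 2 * (η * n) := by
      intro i hi
      rw [sum_add_distrib, ← mul_sum, ← mul_sum, hN0, mul_zero, add_zero]
      have h1 : F i ^ 2 ≤ K ^ 2 := by
        have := hF i
        rw [← sq_abs]
        exact pow_le_pow_left₀ (abs_nonneg _) this 2
      have h2 := (abs_le.mp (e4 i hi)).2
      calc F i ^ 2 * ∑ j ∈ NN C v r, (1 - 2 * ip (C.u i) (C.u j) ^ 2)
          ≤ F i ^ 2 * (η * n) := mul_le_mul_of_nonneg_left h2 (sq_nonneg _)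
        _ ≤ K ^ 2 * (η * n) := mul_le_mul_of_nonneg_right h1 (by positivity)
    calc _ ≤ ∑ i ∈ NN C v r, K ^ 2 * (η * n) := sum_le_sum e
      _ = (NN C v r).card * (K ^ 2 * (η * n)) := by rw [sum_const, nsmul_eq_mul]
      _ ≤ n * (K ^ 2 * (η * n)) := mul_le_mul_of_nonneg_right hcardN (by positivity)
      _ = K ^ 2 * (η * (n : ℝ) ^ 2) := by ring
  -- the number of pairs
  have h5 : (((NN C v r ×ˢ NN C v r).filter fun p =>
          1 - ρ ^ 2 ≤ ip (C.u p.1) (C.u p.2) ^ 2 ∧ F p.1 ≠ F p.2).card : ℝ) ≤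
      2 * η * (n : ℝ) ^ 2 := by
    refine le_trans ?_ e5
    have : ((NN C v r ×ˢ NN C v r).filter fun p =>
          1 - ρ ^ 2 ≤ ip (C.u p.1) (C.u p.2) ^ 2 ∧ F p.1 ≠ F p.2) ⊆
        ((NN C v r ×ˢ NN C v r).filter fun p => 1 - ρ ^ 2 ≤ ip (C.u p.1) (C.u p.2) ^ 2 ∧
      (¬(p.1 ∈ A ↔ p.2 ∈ A) ∨ ¬(p.1 ∈ B ↔ p.2 ∈ B))) := by
      intro p hp
      rw [mem_filter] at hp ⊢
      refine ⟨hp.1, hp.2.1, ?_⟩
      by_contra hcon
      push Not at hcon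
      apply hp.2.2
      simp only [hFdef, hcon.1, hcon.2]
    exact_mod_cast card_le_card this
  have hfin : ∑ l ∈ C.L, (l.card : ℝ) * Real.sqrt (C.T l) +
        n * ((univ.filter fun j => r < |ip (C.u j) v| ∧ |ip (C.u j) v| ≤ s).card : ℝ) +
        2 * ρ ^ 2 * (n : ℝ) ^ 2 +
        2 * (((NN C v r ×ˢ NN C v r).filter fun p =>
          1 - ρ ^ 2 ≤ ip (C.u p.1) (C.u p.2) ^ 2 ∧ F p.1 ≠ F p.2).card : ℝ) ≤
      8 * (η * (n : ℝ) ^ 2) := by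
    have a1 : (n : ℝ) * ((univ.filter fun j => r < |ip (C.u j) v| ∧ |ip (C.u j) v| ≤ s).card : ℝ) ≤
        n * (η * n) := mul_le_mul_of_nonneg_left e2 hn'.le
    have a2 : 2 * ρ ^ 2 * (n : ℝ) ^ 2 ≤ 2 * η * (n : ℝ) ^ 2 := by
      have : (0 : ℝ) ≤ (n : ℝ) ^ 2 := by positivity
      nlinarith
    nlinarith [e1, a1, a2, h5]
  calc ∑ l ∈ Us C v s, (((l ∩ A).card : ℝ) / A.card - ((l ∩ B).card : ℝ) / B.card) ^ 2
      = ∑ l ∈ Us C v s, (∑ i ∈ l, F i) ^ 2 := by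
        apply sum_congr rfl; intro l _; rw [hl]
    _ ≤ _ := key
    _ ≤ K ^ 2 * (η * (n : ℝ) ^ 2) + K ^ 2 * (8 * (η * (n : ℝ) ^ 2)) :=
        add_le_add hd (mul_le_mul_of_nonneg_left hfin (by positivity))
    _ = 36 * η / b ^ 2 := by
        rw [hK]
        field_simp
        ring

end Pool.Agent.H23.DR
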