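import Pool.Agent.H23.DR.LimEx
import Pool.Agent.H23.DR.Geo
import Pool.Agent.H47.DR.LSb

/-!
# Module TwoSol (about 130 lines)

PROOF. `solid_le`: for `κ > 0` eventually `(μ(Pl v) - κ) N ≤ |l| ≤ (1/3 + 1/(m+1)) N` (`g4`), `N > 0`, and
`1/(m+1) → 0` along `UU ≤ atTop`. `two_solid`: let `a = μ.real (pm x) > 0`, `w = μ.real (WW x ∩ Pl v) > 0`,
`κ > 0` with `4 κ < a`, `3 κ < w`. `Pl v ∩ Pl v' = pm x` (`Pl_inter`). The closed sets
`{|ip u v| ≤ r} ∪ {|ip u v'| ≤ r}` and `{|ip u v| ≤ r} ∩ {|ip u v'| ≤ r}` decrease, for `r = 1/(k+1)`, to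
`Pl v ∪ Pl v'` and `pm x` (`tendsto_measure_iInter_atTop`); take `r` such that their measures are at most
`μ(Pl v ∪ Pl v') + κ`, `a + κ`. Eventually (`cl` with error `κ`, `Solid` twice) there are lines `l, l'` with
`|l| ≥ (μ(Pl v) - κ) N`, `|l'| ≥ (μ(Pl v') - κ) N`, `|l ∪ l'| ≤ (μ(Pl v ∪ Pl v') + 2 κ) N`. So
`|l ∩ l'| ≥ (μ(Pl v) + μ(Pl v') - μ(Pl v ∪ Pl v') - 4 κ) N = (a - 4 κ) N > 1` for large `m` (`N ≥ m + 1` by `g6`),
so `l = l'` (`LS.uniq`). Then all points of `l` are in the intersection set: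
`(μ(Pl v) - κ) N ≤ |l| ≤ (a + 2 κ) N`, but `μ(Pl v) ≥ a + w` (`pm x` and `WW x ∩ Pl v` are disjoint subsets of
`Pl v`), so `w ≤ 3 κ`, contradiction.
-/

namespace Pool.Agent.H23.DR

open H47.DR MeasureTheory Filter Topology

private theorem TwoSol_eps : Tendsto (fun m : ℕ => 1 / ((m : ℝ) + 1)) UU (𝓝 0) :=
  tendsto_one_div_add_atTop_nhds_zero_nat.mono_left UU_le

private theorem TwoSol_shr (μ : Measure S2) [IsFiniteMeasure μ] (f : S2 → ℝ) (hf : Continuous f)
    (κ : ℝ) (hκ : 0 < κ) : ∃ r : ℝ, 0 < r ∧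
      μ.real {u | f u ≤ r} ≤ μ.real {u | f u ≤ 0} + κ := by
  let S : ℕ → Set S2 := fun k => {u | f u ≤ 1 / ((k : ℝ) + 1)}
  have hS : ⋂ k, S k = {u | f u ≤ 0} := by
    ext u
    simp only [S, Set.mem_iInter, Set.mem_setOf_eq]
    constructor
    · intro h
      exact ge_of_tendsto' tendsto_one_div_add_atTop_nhds_zero_nat h
    · intro h k
      exact h.trans (by positivity)
  have hanti : Antitone S := by
    intro k l hkl u hu
    have h1 : (k : ℝ) ≤ l := by exact_mod_cast hkl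
    have h2 : 1 / ((l : ℝ) + 1) ≤ 1 / ((k : ℝ) + 1) := by
      apply one_div_le_one_div_of_le (by positivity)
      linarith
    exact le_trans (show f u ≤ 1 / ((l : ℝ) + 1) from hu) h2
  have hmeas : ∀ k, NullMeasurableSet (S k) μ := fun k =>
    (isClosed_le hf continuous_const).measurableSet.nullMeasurableSet
  have h1 := tendsto_measure_iInter_atTop hmeas hanti ⟨0, measure_ne_top _ _⟩
  rw [hS] at h1
  have h2 := (ENNReal.tendsto_toReal (measure_ne_top μ {u | f u ≤ 0})).comp h1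
  have h3 : ∀ᶠ k in atTop, (μ (S k)).toReal < (μ {u | f u ≤ 0}).toReal + κ :=
    h2.eventually (gt_mem_nhds (by linarith))
  obtain ⟨k, hk⟩ := h3.exists
  exact ⟨1 / ((k : ℝ) + 1), by positivity, hk.le⟩

theorem solid_le {s : SeqG} {μ : Measure S2} {PP : Measure (S2 × S2 × S2)} (_h : LimD s μ PP)
    (v : S2) (hS : Solid s μ v) : μ.real (Pl v) ≤ 1 / 3 := by
  by_contra hcon
  push Not at hcon
  have hκ : 0 < (μ.real (Pl v) - 1 / 3) / 3 := by linarith
  have h1 := hS _ hκ 1 one_pos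
  have h2 : ∀ᶠ m : ℕ in UU, 1 / ((m : ℝ) + 1) < (μ.real (Pl v) - 1 / 3) / 3 :=
    TwoSol_eps.eventually (gt_mem_nhds hκ)
  haveI := UU_neBot
  obtain ⟨m, ⟨l, hl, hl1, -⟩, hm⟩ := (h1.and h2).exists
  have h3 := (s.good m).g4 l hl
  have hN : (0 : ℝ) < s.N m := by exact_mod_cast N_pos s m
  have h4 : (μ.real (Pl v) - (μ.real (Pl v) - 1 / 3) / 3) * s.N m ≤
      (1 / 3 + 1 / ((m : ℝ) + 1)) * s.N m := hl1.trans h3
  have h5 := le_of_mul_le_mul_right h4 hN
  linarith

theorem two_solid {s : SeqG} {μ : Measure S2} {PP : Measure (S2 × S2 × S2)} (h : LimD s μ PP)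
    (x v v' : S2) (hx : 0 < μ (pm x)) (h1 : x ∈ Pl v) (h2 : x ∈ Pl v') (hne : Pl v ≠ Pl v')
    (hW : 0 < μ (WW x ∩ Pl v)) (hS : Solid s μ v) (hS' : Solid s μ v') : False := by
  haveI := h.pr
  haveI := UU_neBot
  classical
  have ha : 0 < μ.real (pm x) := by
    rw [Measure.real, ENNReal.toReal_pos_iff]
    exact ⟨hx, measure_lt_top _ _⟩
  have hw : 0 < μ.real (WW x ∩ Pl v) := by
    rw [Measure.real, ENNReal.toReal_pos_iff]
    exact ⟨hW, measure_lt_top _ _⟩
  obtain ⟨κ, hκ, hκa, hκw⟩ : ∃ κ : ℝ, 0 < κ ∧ 4 * κ < μ.real (pm x) ∧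
      3 * κ < μ.real (WW x ∩ Pl v) := by
    refine ⟨min (μ.real (pm x)) (μ.real (WW x ∩ Pl v)) / 8, ?_, ?_, ?_⟩
    · have := lt_min ha hw
      linarith
    · have h3 := min_le_left (μ.real (pm x)) (μ.real (WW x ∩ Pl v))
      linarith
    · have h3 := min_le_right (μ.real (pm x)) (μ.real (WW x ∩ Pl v))
      linarith
  have hneg : ∀ w : S2, x ∈ Pl w → -x ∈ Pl w := by
    intro w hxw
    have h3 : ip (x : E) (w : E) = 0 := hxw
    change ip ((-x : S2) : E) (w : E) = 0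
    simp only [ip] at h3 ⊢
    rw [coe_neg_sphere, inner_neg_left, h3, neg_zero]
  have hint : Pl v ∩ Pl v' = pm x := by
    ext u
    constructor
    · rintro ⟨h3, h4⟩
      exact Pl_inter x v v' u h1 h2 hne h3 h4
    · intro hu
      rcases hu with rfl | hu
      · exact ⟨h1, h2⟩
      · have hu' : u = -x := hu
        rw [hu']
        exact ⟨hneg v h1, hneg v' h2⟩
  have hie : μ.real (Pl v ∪ Pl v') + μ.real (pm x) = μ.real (Pl v) + μ.real (Pl v') := by
    rw [← hint]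
    exact measureReal_union_add_inter (isClosed_Pl v').measurableSet
  have hα : μ.real (pm x) + μ.real (WW x ∩ Pl v) ≤ μ.real (Pl v) := by
    have hd : Disjoint (pm x) (WW x ∩ Pl v) := by
      rw [Set.disjoint_left]
      rintro u hu ⟨⟨-, h4⟩, -⟩
      rcases hu with rfl | hu
      · rw [ip_self_sph] at h4
        norm_num at h4
      · have hu' : u = -x := hu
        rw [hu', coe_neg_sphere] at h4
        have h5 := ip_self_sph x
        simp only [ip] at h4 h5
        rw [inner_neg_right, h5] at h4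
        norm_num at h4
    rw [← measureReal_union hd ((isOpen_WW x).measurableSet.inter (isClosed_Pl v).measurableSet)]
    refine measureReal_mono ?_ (measure_ne_top _ _)
    refine Set.union_subset ?_ Set.inter_subset_right
    rw [← hint]
    exact Set.inter_subset_left
  -- the closed neighbourhoods
  have hcv : ∀ w : S2, Continuous fun u : S2 => |ip (u : E) (w : E)| := fun w => by fun_prop
  obtain ⟨r1, hr1, hU⟩ := TwoSol_shr μ (fun u : S2 => min |ip (u : E) (v : E)| |ip (u : E) (v' : E)|)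
    ((hcv v).min (hcv v')) κ hκ
  obtain ⟨r2, hr2, hI⟩ := TwoSol_shr μ (fun u : S2 => max |ip (u : E) (v : E)| |ip (u : E) (v' : E)|)
    ((hcv v).max (hcv v')) κ hκ
  have eU : {u : S2 | min |ip (u : E) (v : E)| |ip (u : E) (v' : E)| ≤ 0} = Pl v ∪ Pl v' := by
    ext u
    simp only [Set.mem_setOf_eq, min_le_iff, abs_nonpos_iff, Set.mem_union]
    rfl
  have eI : {u : S2 | max |ip (u : E) (v : E)| |ip (u : E) (v' : E)| ≤ 0} = pm x := by
    rw [← hint]
    ext u
    simp only [Set.mem_setOf_eq, max_le_iff, abs_nonpos_iff, Set.mem_inter_iff]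
    rfl
  rw [eU] at hU
  rw [eI] at hI
  have E1 := h.cl _ (isClosed_le ((hcv v).min (hcv v')) (continuous_const (y := r1))) κ hκ
  have E2 := h.cl _ (isClosed_le ((hcv v).max (hcv v')) (continuous_const (y := r2))) κ hκ
  have E3 := hS κ hκ (min r1 r2) (lt_min hr1 hr2)
  have E4 := hS' κ hκ (min r1 r2) (lt_min hr1 hr2)
  have E5 : ∀ᶠ m : ℕ in UU, 1 / ((m : ℝ) + 1) < μ.real (pm x) - 4 * κ :=
    TwoSol_eps.eventually (gt_mem_nhds (by linarith))
  obtain ⟨m, ⟨⟨⟨⟨e1, e2⟩, ⟨l, hl, hl1, hl2⟩⟩, ⟨l', hl', hl1', hl2'⟩⟩, e5⟩⟩ :=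
    ((((E1.and E2).and E3).and E4).and E5).exists
  have hN : (0 : ℝ) < s.N m := by exact_mod_cast N_pos s m
  have hm1 : (0 : ℝ) < (m : ℝ) + 1 := by positivity
  have hNm : (m : ℝ) + 1 ≤ s.N m := by
    have h3 := (s.good m).g6
    rw [div_mul_eq_mul_div, one_mul, le_div_iff₀ hm1, one_mul] at h3
    exact h3
  -- the union
  have hsubU : ((l ∪ l').card : ℝ) ≤ (μ.real (Pl v ∪ Pl v') + 2 * κ) * s.N m := by
    refine le_trans ?_ (e1.trans ?_)
    · norm_cast
      refine Finset.card_le_card fun i hi => ?_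
      simp only [Finset.mem_filter, Finset.mem_univ, true_and, Set.mem_setOf_eq]
      rcases Finset.mem_union.1 hi with hi | hi
      · exact (min_le_left _ _).trans ((hl2 i hi).trans (min_le_left _ _))
      · exact (min_le_right _ _).trans ((hl2' i hi).trans (min_le_left _ _))
    · exact mul_le_mul_of_nonneg_right (by linarith) hN.le
  have hcard : ((l ∪ l').card : ℝ) + ((l ∩ l').card : ℝ) = l.card + l'.card := by
    exact_mod_cast Finset.card_union_add_card_inter l l'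
  have hbig : (μ.real (pm x) - 4 * κ) * s.N m ≤ ((l ∩ l').card : ℝ) := by
    have h3 : (μ.real (pm x) - 4 * κ) * s.N m = (μ.real (Pl v) - κ) * s.N m +
        (μ.real (Pl v') - κ) * s.N m - (μ.real (Pl v ∪ Pl v') + 2 * κ) * s.N m := by
      have : μ.real (pm x) = μ.real (Pl v) + μ.real (Pl v') - μ.real (Pl v ∪ Pl v') := by linarith
      rw [this]
      ring
    linarith
  have h1lt : (1 : ℝ) < ((l ∩ l').card : ℝ) := by
    rw [div_lt_iff₀ hm1] at e5
    have h3 : (μ.real (pm x) - 4 * κ) * ((m : ℝ) + 1) ≤ (μ.real (pm x) - 4 * κ) * s.N m :=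
      mul_le_mul_of_nonneg_left hNm (by linarith)
    linarith
  have h1lt' : 1 < (l ∩ l').card := by exact_mod_cast h1lt
  obtain ⟨i, hi, j, hj, hij⟩ := Finset.one_lt_card.1 h1lt'
  have hi' := Finset.mem_inter.1 hi
  have hj' := Finset.mem_inter.1 hj
  have hll : l = l' := (s.C m).uniq l hl l' hl' i j hij hi'.1 hj'.1 hi'.2 hj'.2
  have hsubI : (l.card : ℝ) ≤ (μ.real (pm x) + 2 * κ) * s.N m := by
    refine le_trans ?_ (e2.trans ?_)
    · norm_cast
      refine Finset.card_le_card fun i hi => ?_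
      simp only [Finset.mem_filter, Finset.mem_univ, true_and, Set.mem_setOf_eq]
      exact max_le ((hl2 i hi).trans (min_le_right _ _))
        ((hl2' i (hll ▸ hi)).trans (min_le_right _ _))
    · exact mul_le_mul_of_nonneg_right (by linarith) hN.le
  have h6 : (μ.real (Pl v) - κ) * s.N m ≤ (μ.real (pm x) + 2 * κ) * s.N m := hl1.trans hsubI
  have h7 := le_of_mul_le_mul_right h6 hN
  linarith

end Pool.Agent.H23.DR
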