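import Pool.Agent.H23.DR.Geo

/-!
# Module Wnl (about 130 lines): section (4.2)

PROOF. Let `W' = {q ∈ WW x | μ (L_q \ pm x) = 0}`, `L_q = {u | Cop x q u}`. `W'` is measurable: the set
`{(q, u) | Cop x q u ∧ u ∉ pm x}` is measurable (`isClosed_cop`, `isClosed_pm`), use
`measurable_measure_prodMk_left`. Apply `bal` to `V (p, ν) = (ip x p) • cof x p` if `p ∈ W'` and
`ip ν x = 0`, and `0` otherwise (bounded by 2, `cof_norm`, `cof_perp`). Almost everywhere (`PP`) `ν` is
orthogonal to `p` and `k` (`perp`), and not (`p ∈ W'` and `k ∈ L_p \ pm x`): by `marg` the measure of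
this set is `∫_{W'} μ (L_p \ pm x) dμ = 0` (`Measure.measure_prod_null` or `prod_apply`).
So almost everywhere: (`p ∈ W'` and `ip ν x = 0`) iff (`p ∈ W'` and `k ∈ pm x`) [→: `Cop x p k`, so
`k ∈ pm x`; ←: `ip ν k = 0`]. For `k = ± x` the integrand `ip p k * ip (V (p, ν)) k` is
`ip p x * ip x p * ip (cof x p) x = (ip x p)^2 (1 - (ip x p)^2)` (the two signs cancel). By `marg`
`0 = ∫_{p ∈ W', k ∈ pm x} (ip x p)^2 (1 - (ip x p)^2) d(μ ⊗ μ) = μ(pm x) ∫_{W'} (..) dμ`, the function is
positive on `W'` and `μ (pm x) > 0`, so `μ W' = 0`.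
-/

namespace Pool.Agent.H23.DR

open H47.DR MeasureTheory Filter Topology

/-- the value of the integrand at `k = ± x` -/
private theorem Wnl_val (x p k : S2) (hk : k ∈ pm x) :
    ip p k * ip ((ip x p) • cof x p) k = (ip x p) ^ 2 * (1 - (ip x p) ^ 2) := by
  have h1 : ip (cof (x : E) (p : E)) (x : E) = 1 - (ip x p) ^ 2 := by
    have := ip_self_sph x
    simp only [ip, cof] at this ⊢
    rw [inner_sub_left, real_inner_smul_left, this, real_inner_comm]
    ring
  have h2 : ip (p : E) (x : E) = ip (x : E) (p : E) := by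
    simp only [ip]; exact real_inner_comm _ _
  have h3 : ∀ y : E, ip ((ip x p) • cof x p) y = ip (x : E) p * ip (cof x p) y := by
    intro y; simp only [ip]; exact real_inner_smul_left _ _ _
  rw [h3]
  rcases hk with rfl | hk
  · rw [h1, h2]; ring
  · have hk' : k = -x := hk
    subst hk'
    have h4 : ip (p : E) ((-x : S2) : E) = -ip (x : E) (p : E) := by
      rw [← h2]; simp only [ip]
      rw [show ((-x : S2) : E) = -(x : E) from rfl, inner_neg_right]
    have h5 : ip (cof (x : E) (p : E)) ((-x : S2) : E) = -(1 - (ip x p) ^ 2) := by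
      rw [← h1]; simp only [ip]
      rw [show ((-x : S2) : E) = -(x : E) from rfl, inner_neg_right]
    rw [h4, h5]; ring

theorem wnl {s : SeqG} {μ : Measure S2} {PP : Measure (S2 × S2 × S2)} (h : LimD s μ PP) (x : S2)
    (hx : 0 < μ (pm x)) :
    μ {q : S2 | q ∈ WW x ∧ μ ({u : S2 | Cop x q u} \ pm x) = 0} = 0 := by
  classical
  have := h.pr
  have := h.prP
  set D : Set (S2 × S2) := {y | Cop x y.1 y.2 ∧ y.2 ∉ pm x} with hD
  have hDm : MeasurableSet D := by
    have h1 : IsClosed {y : S2 × S2 | Cop x y.1 y.2} :=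
      isClosed_cop.preimage (f := fun y : S2 × S2 => (x, y.1, y.2)) (by fun_prop)
    have h2 : IsClosed {y : S2 × S2 | y.2 ∈ pm x} :=
      (isClosed_pm x).preimage (f := fun y : S2 × S2 => y.2) (by fun_prop)
    exact h1.measurableSet.inter h2.measurableSet.compl
  set W : Set S2 := {q : S2 | q ∈ WW x ∧ μ ({u : S2 | Cop x q u} \ pm x) = 0} with hW
  have hWeq : W = WW x ∩ {q | μ (Prod.mk q ⁻¹' D) = 0} := rfl
  have hWm : MeasurableSet W := by
    rw [hWeq]
    refine (isOpen_WW x).measurableSet.inter ?_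
    exact (measurable_measure_prodMk_left hDm) (measurableSet_singleton 0)
  -- the test field
  set A : Set (S2 × S2) := {y | y.1 ∈ W ∧ ip y.2 x = 0} with hA
  have hAm : MeasurableSet A := by
    have h2 : IsClosed {y : S2 × S2 | ip y.2 x = 0} :=
      isClosed_singleton.preimage (f := fun y : S2 × S2 => ip (y.2 : E) (x : E)) (by fun_prop)
    exact (measurable_fst hWm).inter h2.measurableSet
  set V : S2 × S2 → E := fun y => if y ∈ A then (ip x y.1) • cof x y.1 else 0 with hV
  have hVm : Measurable V := by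
    refine Measurable.ite hAm ?_ measurable_const
    have : Continuous fun y : S2 × S2 => (ip (x : E) (y.1 : E)) • cof (x : E) (y.1 : E) := by
      unfold cof; fun_prop
    exact this.measurable
  have hVb : ∃ C, ∀ y, ‖V y‖ ≤ C := by
    refine ⟨2, fun y => ?_⟩
    rw [hV]; simp only
    split_ifs
    · rw [norm_smul, Real.norm_eq_abs]
      have h1 := abs_ip_le x y.1
      have h2 := cof_norm (x : E) y.1
      rw [norm_sph, mul_one] at h2
      calc _ ≤ 1 * (2 : ℝ) := mul_le_mul h1 h2 (norm_nonneg _) zero_le_one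
        _ = 2 := one_mul _
    · simp
  have hVp : ∀ p ν : S2, ip (V (p, ν)) p = 0 := by
    intro p ν
    rw [hV]; simp only
    split_ifs
    · have := cof_perp (x : E) p
      simp only [ip] at this ⊢
      rw [real_inner_smul_left, this, mul_zero]
    · simp
  have hbal := h.bal V hVm hVb hVp
  -- the limit integrand
  set g : S2 → ℝ := fun p => (ip (x : E) (p : E)) ^ 2 * (1 - (ip (x : E) (p : E)) ^ 2) with hg
  have hgc : Continuous g := by rw [hg]; fun_prop
  set R : Set (S2 × S2) := W ×ˢ pm x with hR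
  have hRm : MeasurableSet R := hWm.prod (isClosed_pm x).measurableSet
  set F : S2 × S2 → ℝ := R.indicator fun y => g y.1 with hF
  have hFm : Measurable F := (hgc.measurable.comp measurable_fst).indicator hRm
  have hpi : Measurable fun z : S2 × S2 × S2 => (z.1, z.2.1) := by fun_prop
  -- the exceptional set
  have hnull : ∀ᵐ z ∂PP, ¬ (z.1 ∈ W ∧ (z.1, z.2.1) ∈ D) := by
    have h1 : (μ.prod μ) (D ∩ Prod.fst ⁻¹' W) = 0 := by
      rw [Measure.measure_prod_null (hDm.inter (measurable_fst hWm))]
      refine Eventually.of_forall fun q => ?_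
      show μ (Prod.mk q ⁻¹' (D ∩ Prod.fst ⁻¹' W)) = 0
      by_cases hq : q ∈ W
      · refine measure_mono_null (fun u hu => ?_) hq.2
        exact hu.1
      · have : Prod.mk q ⁻¹' (D ∩ Prod.fst ⁻¹' W) = ∅ := by
          ext u; simp only [Set.mem_preimage, Set.mem_inter_iff, Set.mem_empty_iff_false,
            iff_false, not_and]
          exact fun _ => hq
        rw [this, measure_empty]
    rw [← h.marg, Measure.map_apply hpi (hDm.inter (measurable_fst hWm))] at h1
    have h2 : ∀ᵐ z ∂PP, z ∉ (fun z : S2 × S2 × S2 => (z.1, z.2.1)) ⁻¹' (D ∩ Prod.fst ⁻¹' W) :=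
      measure_eq_zero_iff_ae_notMem.1 h1
    filter_upwards [h2] with z hz hz2
    exact hz ⟨hz2.2, hz2.1⟩
  have hint : ∫ z, F (z.1, z.2.1) ∂PP = 0 := by
    rw [← hbal]
    refine integral_congr_ae ?_
    filter_upwards [hnull, h.perp] with z hz1 hz2
    obtain ⟨p, k, ν⟩ := z
    simp only at hz1 hz2 ⊢
    by_cases hp : p ∈ W
    · by_cases hk : k ∈ pm x
      · have hν : ip (ν : E) (x : E) = 0 := by
          rcases hk with rfl | hk
          · exact hz2.2
          · have hk' : k = -x := hk
            have := hz2.2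
            rw [hk'] at this
            simp only [ip] at this ⊢
            rw [show ((-x : S2) : E) = -(x : E) from rfl, inner_neg_right] at this
            linarith
        have hAmem : (p, ν) ∈ A := ⟨hp, hν⟩
        have hRmem : (p, k) ∈ R := ⟨hp, hk⟩
        rw [hF, Set.indicator_of_mem hRmem, hV]
        simp only [if_pos hAmem]
        exact (Wnl_val x p k hk).symm
      · have hRmem : (p, k) ∉ R := fun hh => hk hh.2
        have hAmem : (p, ν) ∉ A := by
          intro hh
          refine hz1 ⟨hp, ?_, hk⟩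
          exact ⟨ν, norm_sph ν, hh.2, hz2.1, hz2.2⟩
        rw [hF, Set.indicator_of_notMem hRmem, hV]
        simp only [if_neg hAmem]
        simp
    · have hRmem : (p, k) ∉ R := fun hh => hp hh.1
      have hAmem : (p, ν) ∉ A := fun hh => hp hh.1
      rw [hF, Set.indicator_of_notMem hRmem, hV]
      simp only [if_neg hAmem]
      simp
  have hint2 : ∫ y, F y ∂(μ.prod μ) = 0 := by
    rw [← h.marg, integral_map hpi.aemeasurable hFm.aestronglyMeasurable]
    exact hint
  have habs : ∀ p : S2, (ip (x : E) (p : E)) ^ 2 ≤ 1 := fun p => by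
    have := abs_ip_le x p
    rw [← sq_abs]
    nlinarith [abs_nonneg (ip (x : E) (p : E))]
  have hg0 : ∀ p, 0 ≤ g p := fun p => mul_nonneg (sq_nonneg _) (by linarith [habs p])
  have hF0 : ∀ y, 0 ≤ F y := fun y => Set.indicator_nonneg (fun y _ => hg0 y.1) y
  have hFi : Integrable F (μ.prod μ) := by
    refine Integrable.of_bound hFm.aestronglyMeasurable 1 (Eventually.of_forall fun y => ?_)
    rw [Real.norm_eq_abs, abs_of_nonneg (hF0 y), hF]
    refine Set.indicator_le' (f := fun y : S2 × S2 => g y.1) (g := fun _ => (1 : ℝ)) ?_ ?_ y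
    · intro y _
      have := habs y.1
      show (ip (x : E) (y.1 : E)) ^ 2 * (1 - (ip (x : E) (y.1 : E)) ^ 2) ≤ 1
      nlinarith [sq_nonneg (ip (x : E) (y.1 : E))]
    · intro y _; exact zero_le_one
  have hae := (integral_eq_zero_iff_of_nonneg hF0 hFi).1 hint2
  have hzero : (μ.prod μ) R = 0 := by
    refine measure_mono_null (fun y hy => ?_) hae
    show ¬ (F y = (0 : S2 × S2 → ℝ) y)
    rw [hF, Set.indicator_of_mem hy]
    have h1 : 0 < |ip (x : E) (y.1 : E)| ∧ |ip (x : E) (y.1 : E)| < 1 := hy.1.1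
    have h2 : 0 < (ip (x : E) (y.1 : E)) ^ 2 := by rw [← sq_abs]; exact pow_pos h1.1 2
    have h3 : (ip (x : E) (y.1 : E)) ^ 2 < 1 := by
      rw [← sq_abs]; nlinarith [h1.1, h1.2]
    exact (mul_pos h2 (by linarith)).ne'
  rw [hR, Measure.prod_prod] at hzero
  exact (mul_eq_zero.1 hzero).resolve_right hx.ne'

end Pool.Agent.H23.DR
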