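import Pool.Agent.H23.DR.Cover
import Pool.Agent.H23.DR.Dich
import Pool.Agent.H23.DR.SolidT
import Pool.Agent.H23.DR.TwoSol

/-!
# Module Wz (about 120 lines): sections (4.1) and (4.3)

PROOF. (1) If `ip x v = 0` and `0 < μ (WW x ∩ Pl v)` then `Solid s μ v`: `Scal μ v` by `scal_of_atom`; `dich`: the first
alternative is impossible: `μ (Pl v \ (pm y ∪ pm z)) = 0` (masses), so `pm x` charged gives
`x ∈ pm y ∪ pm z`, say `x = ± y`; every `u ∈ WW x` is not in `pm y` (`|ip x u| < 1`) and not in `pm z`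
(`ip x z = 0`), so `μ (WW x ∩ Pl v) = 0`. So `Three`, and `solid_of_three`.
(2) Suppose `μ (WW x) ≠ 0`. By `cover` for `Z = WW x` there is `v0`, `ip x v0 = 0`, `0 < μ (WW x ∩ Pl v0)`, `Solid v0`.
`cover` for `Z = WW x \ Pl v0`: for `v` with `Pl v = Pl v0` the intersection is empty, otherwise
`μ (WW x ∩ Pl v) = 0` by (1) and `two_solid`. So `μ (WW x \ Pl v0) = 0`.
(3) `1/3 = ∫ ip u x ^2 dμ = ∫_{Pl v0} ip u x ^2 dμ` (`iso`; outside `Pl v0` almost every `u` is not in `WW x` and not in
`pm x ⊆ Pl v0`, so `|ip u x| = 0` by `eq_or_neg`) `= BL μ v0 x x = μ(Pl v0)/2 ≤ 1/6` (`Scal`, `solid_le`).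
Contradiction.
-/

namespace Pool.Agent.H23.DR

open H47.DR MeasureTheory Filter Topology

private theorem Wz_comm (x y : E) : ip x y = ip y x := by
  simp only [ip]; exact real_inner_comm y x

private theorem Wz_neg (x u : S2) : ip (x : E) ((-u : S2) : E) = -ip (x : E) (u : E) := by
  have e1 : ((-u : S2) : E) = -(u : E) := rfl
  rw [e1]
  simp only [ip]
  rw [inner_neg_right]

/-- Membership in `pm y` gives the inner product up to sign. -/
private theorem Wz_abs (x y u : S2) (hu : u ∈ pm y) : |ip (x : E) (u : E)| = |ip (x : E) (y : E)| := by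
  rcases hu with h | h
  · have h' : u = y := h
    rw [h']
  · have h' : u = -y := h
    rw [h', Wz_neg, abs_neg]

private theorem Wz_pm_sub (v y : S2) (hy : y ∈ Pl v) : pm y ⊆ Pl v := by
  intro u hu
  have hy' : ip y v = 0 := hy
  have h1 := Wz_abs v y u hu
  rw [Wz_comm (v : E) (y : E), hy', abs_zero] at h1
  have h2 := abs_eq_zero.1 h1
  change ip (u : E) (v : E) = 0
  rw [Wz_comm]
  exact h2

private theorem Wz_pm_symm (x y : S2) (h : x ∉ pm y) : ∀ u ∈ pm x, u ∉ pm y := by
  intro u hu hu'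
  apply h
  rcases hu with hx | hx
  · have hx' : u = x := hx
    rw [← hx']
    exact hu'
  · have hx' : u = -x := hx
    have h1 : x = -u := by rw [hx', neg_neg]
    rcases hu' with hy | hy
    · have hy' : u = y := hy
      right
      change x = -y
      rw [h1, hy']
    · have hy' : u = -y := hy
      left
      rw [h1, hy', neg_neg]

private theorem Wz_null {μ : Measure S2} [IsProbabilityMeasure μ] (v y z : S2) (hy : y ∈ Pl v)
    (hz : z ∈ Pl v) (hyz : ip y z = 0) (h1 : μ.real (pm y) = μ.real (Pl v) / 2)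
    (h2 : μ.real (pm z) = μ.real (Pl v) / 2) : μ (Pl v \ (pm y ∪ pm z)) = 0 := by
  have hzy : z ∉ pm y := by
    intro hz'
    have h3 := Wz_abs y y z hz'
    rw [hyz, ip_self_sph y] at h3
    norm_num at h3
  have hdisj : Disjoint (pm y) (pm z) := by
    rw [Set.disjoint_left]
    intro u hu hu'
    exact Wz_pm_symm z y hzy u hu' hu
  have hsub : pm y ∪ pm z ⊆ Pl v := Set.union_subset (Wz_pm_sub v y hy) (Wz_pm_sub v z hz)
  have hm : MeasurableSet (pm y ∪ pm z) :=
    (isClosed_pm y).measurableSet.union (isClosed_pm z).measurableSet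
  have h3 : μ.real (pm y ∪ pm z) = μ.real (Pl v) := by
    rw [measureReal_union hdisj (isClosed_pm z).measurableSet, h1, h2]
    ring
  have h4 : μ.real (Pl v \ (pm y ∪ pm z)) = 0 := by
    rw [measureReal_sdiff hsub hm, h3, sub_self]
  exact (measureReal_eq_zero_iff (measure_ne_top _ _)).1 h4

private theorem Wz_aux {x y z u : S2} (hyz : ip y z = 0) (hx : x ∈ pm y) (hu : u ∈ WW x) :
    u ∉ pm y ∪ pm z := by
  obtain ⟨h0, h1⟩ : 0 < |ip (x : E) (u : E)| ∧ |ip (x : E) (u : E)| < 1 := hu
  rintro (h | h)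
  · have h2 := Wz_abs x y u h
    have h3 := Wz_abs y y x hx
    rw [ip_self_sph y, abs_one, Wz_comm] at h3
    rw [h2, h3] at h1
    exact lt_irrefl _ h1
  · have h2 := Wz_abs x z u h
    have h3 := Wz_abs z y x hx
    rw [Wz_comm (z : E) (y : E), hyz, abs_zero, Wz_comm] at h3
    rw [h2, h3] at h0
    exact lt_irrefl _ h0

theorem wz {s : SeqG} {μ : Measure S2} {PP : Measure (S2 × S2 × S2)} (h : LimD s μ PP)
    (x : S2) (hx : 0 < μ (pm x)) : μ (WW x) = 0 := by
  have := h.pr
  by_contra hne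
  have hsol : ∀ v : S2, ip x v = 0 → 0 < μ (WW x ∩ Pl v) → Scal μ v ∧ Solid s μ v := by
    intro v hxv hW
    have hS : Scal μ v := scal_of_atom h x v hx hxv hW
    have hvpos : 0 < μ (Pl v) := lt_of_lt_of_le hW (measure_mono Set.inter_subset_right)
    refine ⟨hS, ?_⟩
    rcases dich μ v hvpos hS with ⟨y, z, hy, hz, hyz, h1, h2⟩ | ⟨y, hT⟩
    · exfalso
      have h0 := Wz_null v y z hy hz hyz h1 h2
      have hzy : ip z y = 0 := by rw [Wz_comm]; exact hyz
      have key : ∀ u ∈ WW x, u ∉ pm y ∪ pm z := by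
        by_cases hxy : x ∈ pm y
        · intro u hu
          exact Wz_aux hyz hxy hu
        · by_cases hxz : x ∈ pm z
          · intro u hu
            have h3 := Wz_aux hzy hxz hu
            rwa [Set.union_comm] at h3
          · exfalso
            have h3 : pm x ⊆ Pl v \ (pm y ∪ pm z) := by
              intro u hu
              refine ⟨Wz_pm_sub v x hxv hu, ?_⟩
              rintro (h4 | h4)
              · exact Wz_pm_symm x y hxy u hu h4
              · exact Wz_pm_symm x z hxz u hu h4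
            have h4 := measure_mono_null h3 h0
            rw [h4] at hx
            exact lt_irrefl _ hx
      have h3 : WW x ∩ Pl v ⊆ Pl v \ (pm y ∪ pm z) := fun u hu => ⟨hu.2, key u hu.1⟩
      rw [measure_mono_null h3 h0] at hW
      exact lt_irrefl _ hW
    · exact solid_of_three h v hS y hT
  have hex : ∃ v0 : S2, ip x v0 = 0 ∧ 0 < μ (WW x ∩ Pl v0) := by
    by_contra hno
    push Not at hno
    exact hne (cover h x hx (WW x) subset_rfl fun v hv => le_antisymm (hno v hv) zero_le)
  obtain ⟨v0, hxv0, hW0⟩ := hex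
  obtain ⟨hS0, hSol0⟩ := hsol v0 hxv0 hW0
  have hZ : μ (WW x \ Pl v0) = 0 := by
    refine cover h x hx _ Set.sdiff_subset fun v hv => ?_
    by_contra hc
    have hc' : 0 < μ (WW x ∩ Pl v) := lt_of_lt_of_le (pos_iff_ne_zero.2 hc)
      (measure_mono (Set.inter_subset_inter_left _ Set.sdiff_subset))
    by_cases hP : Pl v = Pl v0
    · apply hc
      have : (WW x \ Pl v0) ∩ Pl v = ∅ := by
        ext u
        simp only [Set.mem_inter_iff, Set.mem_sdiff, Set.mem_empty_iff_false, iff_false]
        rintro ⟨⟨-, h1⟩, h2⟩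
        rw [hP] at h2
        exact h1 h2
      rw [this, measure_empty]
    · exact two_solid h x v0 v hx hxv0 hv (fun he => hP he.symm) hW0 hSol0 (hsol v hv hc').2
  have hiso := h.iso (x : E)
  rw [norm_sph, one_pow] at hiso
  have hcont : Continuous fun u : S2 => ip (u : E) (x : E) ^ 2 := by fun_prop
  have hint : Integrable (fun u : S2 => ip (u : E) (x : E) ^ 2) μ :=
    hcont.integrable_of_hasCompactSupport (HasCompactSupport.of_compactSpace _)
  have hmeas : MeasurableSet (Pl v0) := (isClosed_Pl v0).measurableSet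
  have hsplit := integral_add_compl hmeas hint
  have hcompl : ∫ u in (Pl v0)ᶜ, ip (u : E) (x : E) ^ 2 ∂μ = 0 := by
    have hae : ∀ᵐ u ∂μ, u ∉ WW x \ Pl v0 := measure_eq_zero_iff_ae_notMem.1 hZ
    rw [← integral_indicator hmeas.compl]
    refine integral_eq_zero_of_ae ?_
    filter_upwards [hae] with u hu
    by_cases hu' : u ∈ (Pl v0)ᶜ
    · rw [Set.indicator_of_mem hu']
      have hnot : u ∉ WW x := fun h3 => hu ⟨h3, hu'⟩
      have hpm : ¬ 1 ≤ |ip (x : E) (u : E)| := by
        intro h4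
        apply hu'
        refine Wz_pm_sub v0 x hxv0 ?_
        exact eq_or_neg x u h4
      have h5 : ¬ 0 < |ip (x : E) (u : E)| := fun h6 => hnot ⟨h6, not_le.1 hpm⟩
      have h6 : |ip (x : E) (u : E)| = 0 := le_antisymm (not_lt.1 h5) (abs_nonneg _)
      have h7 := abs_eq_zero.1 h6
      rw [Wz_comm] at h7
      change ip (u : E) (x : E) ^ 2 = 0
      rw [h7]
      norm_num
    · rw [Set.indicator_of_notMem hu']
      rfl
  have hBL : ∫ u in Pl v0, ip (u : E) (x : E) ^ 2 ∂μ = μ.real (Pl v0) / 2 := by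
    have h1 := hS0 x x hxv0
    rw [ip_self_sph x, mul_one] at h1
    rw [← h1]
    unfold BL
    refine setIntegral_congr_fun hmeas fun u _ => ?_
    simp only [sq]
  have hle := solid_le h v0 hSol0
  rw [hcompl, hBL, add_zero, hiso] at hsplit
  linarith

end Pool.Agent.H23.DR
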